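import Pool.Agent.LibCramer.Core

/-!
Runs of about `c log b` consecutive gaps: deterministic facts.
-/

namespace Pool.Agent.LibCramer

open Filter Topology
open scoped ENNReal

/-- For a set `B` of natural numbers with increasing enumeration `b 0 < b 1 < ...`, the limsup of
`(b (n + 1 + k) - b n) / (log (b n))^2`, where `k = ⌊c log (b n)⌋`. For `c = 0` this is the Cramer
constant of `B`. -/
noncomputable def cramerRun (c : ℝ) (B : Set ℕ) : ℝ≥0∞ :=
  limsup (fun n : ℕ => ENNReal.ofReal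
    (((Nat.nth (· ∈ B) (n + 1 + ⌊c * Real.log (Nat.nth (· ∈ B) n : ℝ)⌋₊) : ℝ) -
      (Nat.nth (· ∈ B) n : ℝ)) / Real.log (Nat.nth (· ∈ B) n : ℝ) ^ 2)) atTop

lemma cramerRun_zero (B : Set ℕ) : cramerRun 0 B = cramer B := by
  unfold cramerRun cramer
  simp

/-- the number of elements of `B` in `(m, m + l]` -/
noncomputable def cnt (B : Set ℕ) (m l : ℕ) : ℕ := (B ∩ Set.Ioc m (m + l)).ncard

lemma finite_win (B : Set ℕ) (m l : ℕ) : (B ∩ Set.Ioc m (m + l)).Finite :=
  (Set.finite_Ioc _ _).subset Set.inter_subset_right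

lemma cnt_mono (B : Set ℕ) (m : ℕ) {l l' : ℕ} (h : l ≤ l') : cnt B m l ≤ cnt B m l' := by
  apply Set.ncard_le_ncard _ (finite_win B m l')
  intro j hj
  exact ⟨hj.1, hj.2.1, hj.2.2.trans (by omega)⟩

/-- if a window after `b n` has more than `j` elements then `b (n + 1 + j)` is in it -/
lemma nth_le_of_lt_cnt {B : Set ℕ} (hB : B.Infinite) {n l j : ℕ}
    (h : j < cnt B (Nat.nth (· ∈ B) n) l) :
    Nat.nth (· ∈ B) (n + 1 + j) ≤ Nat.nth (· ∈ B) n + l := by
  by_contra hlt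
  push Not at hlt
  have hmono := Nat.nth_strictMono (p := (· ∈ B)) hB
  have hsub : B ∩ Set.Ioc (Nat.nth (· ∈ B) n) (Nat.nth (· ∈ B) n + l) ⊆
      Nat.nth (· ∈ B) '' (Finset.Ioo n (n + 1 + j) : Set ℕ) := by
    intro x hx
    obtain ⟨hxB, hx1, hx2⟩ := hx
    obtain ⟨i, hi⟩ : ∃ i, Nat.nth (· ∈ B) i = x := by
      have : x ∈ Set.range (Nat.nth (· ∈ B)) := by
        rw [Nat.range_nth_of_infinite (p := (· ∈ B)) hB]
        exact hxB
      exact this
    refine ⟨i, ?_, hi⟩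
    rw [← hi] at hx1 hx2
    rw [Finset.coe_Ioo]
    constructor
    · exact hmono.lt_iff_lt.1 hx1
    · exact hmono.lt_iff_lt.1 (lt_of_le_of_lt hx2 hlt)
  have h1 : cnt B (Nat.nth (· ∈ B) n) l ≤ (Nat.nth (· ∈ B) '' (Finset.Ioo n (n + 1 + j) : Set ℕ)).ncard :=
    Set.ncard_le_ncard hsub ((Finset.finite_toSet _).image _)
  have h2 := Set.ncard_image_le (f := Nat.nth (· ∈ B)) (Finset.finite_toSet (Finset.Ioo n (n + 1 + j)))
  rw [Set.ncard_coe_finset, Nat.card_Ioo] at h2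
  omega

/-- if a window starting at `m`, between `b n` and `b (n + 1)`, has at most `j` elements then
`b (n + 1 + j)` is beyond it -/
lemma lt_nth_of_cnt_le {B : Set ℕ} (hB : B.Infinite) {n m l j : ℕ}
    (hm : m < Nat.nth (· ∈ B) (n + 1)) (h : cnt B m l ≤ j) :
    m + l < Nat.nth (· ∈ B) (n + 1 + j) := by
  by_contra hle
  push Not at hle
  have hmono := Nat.nth_strictMono (p := (· ∈ B)) hB
  have hsub : Nat.nth (· ∈ B) '' (Finset.Icc (n + 1) (n + 1 + j) : Set ℕ) ⊆
      B ∩ Set.Ioc m (m + l) := by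
    rintro x ⟨i, hi, rfl⟩
    rw [Finset.coe_Icc] at hi
    refine ⟨Nat.nth_mem_of_infinite (p := (· ∈ B)) hB i, ?_, ?_⟩
    · exact lt_of_lt_of_le hm (hmono.monotone hi.1)
    · exact (hmono.monotone hi.2).trans hle
  have h1 := Set.ncard_le_ncard hsub (finite_win B m l)
  rw [Set.ncard_image_of_injective _ hmono.injective, Set.ncard_coe_finset, Nat.card_Icc] at h1
  unfold cnt at h
  omega

/-- If all far windows have more than `⌊c log m⌋` elements, the run constant is at most `d`. -/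
lemma cramerRun_le {B : Set ℕ} (hB : B.Infinite) {c d : ℝ} (hd : 0 ≤ d)
    (h : ∀ᶠ m : ℕ in atTop, ⌊c * Real.log (m : ℝ)⌋₊ < cnt B m (len d m)) :
    cramerRun c B ≤ ENNReal.ofReal d := by
  unfold cramerRun
  refine limsup_le_of_le (by isBoundedDefault) ?_
  filter_upwards [(tendsto_nth hB).eventually h, (tendsto_nth hB).eventually_ge_atTop 3] with n hn hn3
  apply ENNReal.ofReal_le_ofReal
  have hlog : 0 < Real.log (Nat.nth (· ∈ B) n : ℝ) := by
    apply Real.log_pos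
    have : (3 : ℝ) ≤ (Nat.nth (· ∈ B) n : ℝ) := by exact_mod_cast hn3
    linarith
  rw [div_le_iff₀ (by positivity)]
  have hle := nth_le_of_lt_cnt hB hn
  have h1 : (Nat.nth (· ∈ B) (n + 1 + ⌊c * Real.log (Nat.nth (· ∈ B) n : ℝ)⌋₊) : ℝ) ≤
      (Nat.nth (· ∈ B) n : ℝ) + len d (Nat.nth (· ∈ B) n) := by
    exact_mod_cast hle
  have h2 := len_le hd (Nat.nth (· ∈ B) n)
  linarith

/-- If infinitely many windows have at most `c' log m` elements, `c' < c` or `c' = c = 0`, the run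
constant is at least `d`. -/
lemma le_cramerRun {B : Set ℕ} (hB : B.Infinite) {c c' d : ℝ} (hc' : 0 ≤ c') (hcc : c' < c ∨ c' = 0)
    (hc : 0 ≤ c) (hd : 0 ≤ d)
    (h : ∃ᶠ m : ℕ in atTop, cnt B m (len d m) ≤ ⌊c' * Real.log (m : ℝ)⌋₊) :
    ENNReal.ofReal d ≤ cramerRun c B := by
  unfold cramerRun
  apply le_limsup_of_frequently_le _ (by isBoundedDefault)
  have hDec : DecidablePred (· ∈ B) := Classical.decPred _
  -- growth: if `log b` is much smaller than `log m` the gap is huge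
  obtain ⟨M₀, hM₀⟩ : ∃ M₀ : ℕ, ∀ m : ℕ, M₀ ≤ m → ∀ b : ℕ, 3 ≤ b → b ≤ m →
      c * Real.log (b : ℝ) < c' * Real.log (m : ℝ) → d * Real.log (b : ℝ) ^ 2 ≤ (m : ℝ) - b := by
    rcases hcc with hcc | hcc
    · have hc0 : 0 < c := lt_of_le_of_lt hc' hcc
      have hr : c' / c < 1 := (div_lt_one hc0).2 hcc
      have h1 : Tendsto (fun x : ℝ => x ^ (c' / c) / x) atTop (𝓝 0) := by
        have h2 := tendsto_rpow_neg_atTop (show 0 < 1 - c' / c by linarith)
        refine h2.congr' ?_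
        filter_upwards [eventually_gt_atTop 0] with x hx
        rw [show -(1 - c' / c) = c' / c - 1 by ring, Real.rpow_sub hx, Real.rpow_one]
      have h2 : Tendsto (fun x : ℝ => Real.log x ^ 2 / x) atTop (𝓝 0) :=
        Real.isLittleO_pow_log_id_atTop.tendsto_div_nhds_zero
      have h3 := (h1.add (h2.const_mul d))
      simp only [mul_zero, add_zero] at h3
      obtain ⟨M₀, hM₀⟩ := eventually_atTop.1 ((tendsto_natCast_atTop_atTop (R := ℝ)).eventually
        ((h3.eventually_lt_const one_pos).and (eventually_gt_atTop 0)))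
      refine ⟨M₀, fun m hm b hb hbm hlog => ?_⟩
      obtain ⟨h4, h5⟩ := hM₀ m hm
      have hb0 : (0 : ℝ) < b := by
        have : (3 : ℝ) ≤ b := by exact_mod_cast hb
        linarith
      have hb1 : 0 ≤ Real.log (b : ℝ) := by
        apply Real.log_nonneg
        have : (3 : ℝ) ≤ b := by exact_mod_cast hb
        linarith
      have h6 : (b : ℝ) ≤ (m : ℝ) ^ (c' / c) := by
        rw [← Real.exp_log hb0, Real.rpow_def_of_pos h5]
        apply Real.exp_le_exp.2
        rw [mul_div_assoc', le_div_iff₀ hc0]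
        linarith
      have h7 : Real.log (b : ℝ) ≤ Real.log (m : ℝ) := Real.log_le_log hb0 (by exact_mod_cast hbm)
      have h8 : (m : ℝ) ^ (c' / c) + d * Real.log (m : ℝ) ^ 2 ≤ m := by
        have := mul_lt_mul_of_pos_right h4 h5
        rw [one_mul] at this
        refine le_trans (le_of_eq ?_) this.le
        field_simp
      have h9 : d * Real.log (b : ℝ) ^ 2 ≤ d * Real.log (m : ℝ) ^ 2 := by gcongr
      linarith
    · refine ⟨0, fun m _ b hb _ hlog => ?_⟩
      exfalso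
      rw [hcc, zero_mul] at hlog
      have hb1 : 0 ≤ Real.log (b : ℝ) := by
        apply Real.log_nonneg
        have : (3 : ℝ) ≤ b := by exact_mod_cast hb
        linarith
      nlinarith
  rw [frequently_atTop] at h ⊢
  intro N
  obtain ⟨m, hm, hmB⟩ := h (Nat.nth (· ∈ B) (N + 3) + 3 + M₀)
  -- index of the first element beyond m
  set k := Nat.count (· ∈ B) (m + 1) with hk
  have hk1 : m + 1 ≤ Nat.nth (· ∈ B) k := Nat.le_nth_count (p := (· ∈ B)) hB (m + 1)
  have hkpos : N + 3 < k := by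
    rw [hk, Nat.lt_nth_iff_count_lt (p := (· ∈ B)) hB]
    omega
  obtain ⟨l, hkl⟩ : ∃ l, k = l + 1 := ⟨k - 1, by omega⟩
  rw [hkl] at hk hk1 hkpos
  refine ⟨l, by omega, ?_⟩
  have hl1 : Nat.nth (· ∈ B) l < m + 1 := by
    rw [← Nat.lt_nth_iff_count_lt (p := (· ∈ B)) hB]
    omega
  have hl3 : 3 ≤ Nat.nth (· ∈ B) l := by
    have h1 : l ≤ Nat.nth (· ∈ B) l := (Nat.nth_strictMono (p := (· ∈ B)) hB).le_apply
    omega
  apply ENNReal.ofReal_le_ofReal
  set b := Nat.nth (· ∈ B) l with hb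
  have hb3 : (3 : ℝ) ≤ (b : ℝ) := by exact_mod_cast hl3
  have hlog : 0 < Real.log (b : ℝ) := Real.log_pos (by linarith)
  rw [le_div_iff₀ (by positivity)]
  have hlm : (b : ℝ) ≤ m := by exact_mod_cast Nat.lt_succ_iff.mp hl1
  have hlogm : Real.log (b : ℝ) ≤ Real.log (m : ℝ) := Real.log_le_log (by linarith) hlm
  have hmono := Nat.nth_strictMono (p := (· ∈ B)) hB
  rcases lt_or_ge (c * Real.log (b : ℝ)) (c' * Real.log (m : ℝ)) with hcase | hcase
  · have h1 := hM₀ m (by omega) b hl3 (by omega) hcase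
    have h2 : Nat.nth (· ∈ B) (l + 1) ≤ Nat.nth (· ∈ B) (l + 1 + ⌊c * Real.log (b : ℝ)⌋₊) :=
      hmono.monotone (by omega)
    have h3 : (m : ℝ) + 1 ≤ (Nat.nth (· ∈ B) (l + 1 + ⌊c * Real.log (b : ℝ)⌋₊) : ℝ) := by
      exact_mod_cast hk1.trans h2
    linarith
  · have h0 : cnt B m (len d m) ≤ ⌊c * Real.log (b : ℝ)⌋₊ := hmB.trans (Nat.floor_mono hcase)
    have hbig := lt_nth_of_cnt_le hB (n := l) (by omega) h0
    have h1 : (m : ℝ) + len d m + 1 ≤
        (Nat.nth (· ∈ B) (l + 1 + ⌊c * Real.log (b : ℝ)⌋₊) : ℝ) := by exact_mod_cast hbig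
    have h2 := lt_len d m
    have h3 : d * Real.log (b : ℝ) ^ 2 ≤ d * Real.log (m : ℝ) ^ 2 := by gcongr
    linarith

end Pool.Agent.LibCramer
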