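import Pool.Agent.LibCramer.Bernoulli
import Pool.Agent.LibCramer.Runs

/-!
Lower bound for the probability that a window of length `l log² m` contains at most `c log m`
points of a random set with independent points of density `1 / log`.
-/

namespace Pool.Agent.LibCramer.LowerTail

open Filter Topology MeasureTheory ProbabilityTheory
open Pool.Agent.LibCramer
open scoped ENNReal NNReal

variable {Ω : Type*} [MeasurableSpace Ω] {μ : Measure Ω}

/-- The event that exactly the points of `T` occur among those of `W`. -/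
noncomputable def Pat (E : ℕ → Set Ω) (W T : Finset ℕ) : Set Ω :=
  ⋂ j ∈ W, (if j ∈ T then E j else (E j)ᶜ)

omit [MeasurableSpace Ω] in
lemma mem_Pat {E : ℕ → Set Ω} {W T : Finset ℕ} {ω : Ω} :
    ω ∈ Pat E W T ↔ ∀ j ∈ W, (ω ∈ E j ↔ j ∈ T) := by
  simp only [Pat, Set.mem_iInter]
  refine forall₂_congr fun j _ => ?_
  split_ifs with h
  · simp [h]
  · simp [h]

lemma measurableSet_Pat {E : ℕ → Set Ω} (hE : ∀ n, MeasurableSet (E n)) (W T : Finset ℕ) :
    MeasurableSet (Pat E W T) := by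
  refine Finset.measurableSet_biInter _ fun j _ => ?_
  split_ifs
  · exact hE j
  · exact (hE j).compl

lemma prob_Pat {E : ℕ → Set Ω} (hE : ∀ n, MeasurableSet (E n)) (hind : iIndepSet E μ)
    {q : ℕ → ℝ} (hq : ∀ n, μ (E n) = ENNReal.ofReal (q n)) (hq0 : ∀ n, 0 ≤ q n)
    (hq1 : ∀ n, q n ≤ 1) (W T : Finset ℕ) :
    μ.real (Pat E W T) = ∏ j ∈ W, (if j ∈ T then q j else 1 - q j) := by
  have := hind.isProbabilityMeasure
  have h := (iIndepSet_iff E μ).1 hind W (f := fun j => if j ∈ T then E j else (E j)ᶜ)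
    (fun i _ => by
      split_ifs
      · exact MeasurableSpace.measurableSet_generateFrom (Set.mem_singleton _)
      · exact (MeasurableSpace.measurableSet_generateFrom (Set.mem_singleton _)).compl)
  rw [Measure.real, Pat, h, ENNReal.toReal_prod]
  apply Finset.prod_congr rfl
  intro j _
  split_ifs
  · rw [hq, ENNReal.toReal_ofReal (hq0 j)]
  · rw [prob_compl_eq_one_sub (hE j), hq, ENNReal.toReal_sub_of_le _ ENNReal.one_ne_top]
    · rw [ENNReal.toReal_ofReal (hq0 j), ENNReal.toReal_one]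
    · exact ENNReal.ofReal_le_one.2 (hq1 j)

open Classical in
/-- Lower tail of a sum of independent indicators. -/
theorem prob_card_ge {E : ℕ → Set Ω} (hE : ∀ n, MeasurableSet (E n)) (hind : iIndepSet E μ)
    {q : ℕ → ℝ} (hq : ∀ n, μ (E n) = ENNReal.ofReal (q n)) (hq0 : ∀ n, 0 ≤ q n)
    (hq1 : ∀ n, q n ≤ 1) (W : Finset ℕ) (k : ℕ) {a b : ℝ} (ha : 0 ≤ a)
    (haq : ∀ j ∈ W, a ≤ q j) (hqb : ∀ j ∈ W, q j ≤ b) (hb : b ≤ 1) (hb0 : 0 ≤ b) :
    (W.card.choose k : ℝ) * a ^ k * (1 - b) ^ W.card ≤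
      μ.real {ω | (W.filter fun j => ω ∈ E j).card ≤ k} := by
  have := hind.isProbabilityMeasure
  have hdisj : Set.PairwiseDisjoint (↑(Finset.powersetCard k W) : Set (Finset ℕ)) (Pat E W) := by
    intro T hT T' hT' hne
    rw [Function.onFun, Set.disjoint_left]
    intro ω h1 h2
    apply hne
    rw [mem_Pat] at h1 h2
    rw [Finset.mem_coe, Finset.mem_powersetCard] at hT hT'
    ext j
    constructor
    · intro hj
      exact (h2 j (hT.1 hj)).1 ((h1 j (hT.1 hj)).2 hj)
    · intro hj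
      exact (h1 j (hT'.1 hj)).1 ((h2 j (hT'.1 hj)).2 hj)
  have hsub : (⋃ T ∈ Finset.powersetCard k W, Pat E W T) ⊆
      {ω | (W.filter fun j => ω ∈ E j).card ≤ k} := by
    intro ω hω
    simp only [Set.mem_iUnion, exists_prop] at hω
    obtain ⟨T, hT, hω⟩ := hω
    rw [Finset.mem_powersetCard] at hT
    rw [mem_Pat] at hω
    have : W.filter (fun j => ω ∈ E j) = T := by
      ext j
      rw [Finset.mem_filter]
      constructor
      · rintro ⟨h1, h2⟩
        exact (hω j h1).1 h2
      · intro h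
        exact ⟨hT.1 h, (hω j (hT.1 h)).2 h⟩
    change (W.filter fun j => ω ∈ E j).card ≤ k
    rw [this, hT.2]
  have hm := measureReal_mono (μ := μ) hsub
  rw [measureReal_biUnion_finset hdisj (fun T _ => measurableSet_Pat hE W T)] at hm
  refine le_trans ?_ hm
  calc (W.card.choose k : ℝ) * a ^ k * (1 - b) ^ W.card
      = ∑ _T ∈ Finset.powersetCard k W, a ^ k * (1 - b) ^ W.card := by
        rw [Finset.sum_const, Finset.card_powersetCard, nsmul_eq_mul]; ring
    _ ≤ ∑ T ∈ Finset.powersetCard k W, μ.real (Pat E W T) := by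
        apply Finset.sum_le_sum
        intro T hT
        rw [Finset.mem_powersetCard] at hT
        rw [prob_Pat hE hind hq hq0 hq1, Finset.prod_ite]
        have e1 : W.filter (fun j => j ∈ T) = T := by
          ext j
          rw [Finset.mem_filter]
          exact ⟨fun h => h.2, fun h => ⟨hT.1 h, h⟩⟩
        rw [e1]
        have h1 : a ^ k ≤ ∏ j ∈ T, q j := by
          rw [← hT.2, ← Finset.prod_const]
          exact Finset.prod_le_prod (fun _ _ => ha) fun j hj => haq j (hT.1 hj)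
        have h2 : (1 - b) ^ W.card ≤ ∏ j ∈ W.filter (fun j => j ∉ T), (1 - q j) := by
          calc (1 - b) ^ W.card ≤ (1 - b) ^ (W.filter (fun j => j ∉ T)).card := by
                apply pow_le_pow_of_le_one (by linarith) (by linarith)
                exact Finset.card_le_card (Finset.filter_subset _ _)
            _ ≤ _ := by
                rw [← Finset.prod_const]
                refine Finset.prod_le_prod (fun _ _ => by linarith) fun j hj => ?_
                have := hqb j (Finset.mem_filter.1 hj).1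
                linarith
        exact mul_le_mul h1 h2 (pow_nonneg (by linarith) _)
          (Finset.prod_nonneg fun j _ => hq0 j)

/-! ### Analysis -/

lemma factorial_le (k : ℕ) (hk : 1 ≤ k) :
    Real.log (k.factorial : ℝ) ≤ k * Real.log k - k + Real.log k + 1 := by
  induction k, hk using Nat.le_induction with
  | base => simp
  | succ k hk ih =>
    have hk0 : (0 : ℝ) < k := by exact_mod_cast hk
    have h1 : Real.log ((k + 1).factorial : ℝ) = Real.log (k + 1) + Real.log (k.factorial : ℝ) := by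
      rw [Nat.factorial_succ]
      push_cast
      rw [Real.log_mul (by positivity) (by positivity)]
    rw [h1]
    push_cast
    -- `(k + 1) log ((k + 1) / k) ≥ 1`
    have h2 : 1 ≤ (k + 1) * (Real.log (k + 1) - Real.log k) := by
      rw [← Real.log_div (by positivity) (by positivity)]
      have h3 := Real.one_sub_inv_le_log_of_pos (x := ((k : ℝ) + 1) / k) (by positivity)
      have h4 : 1 - (((k : ℝ) + 1) / k)⁻¹ = 1 / (k + 1) := by field_simp; ring
      rw [h4] at h3
      calc (1 : ℝ) = (k + 1) * (1 / (k + 1)) := by field_simp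
        _ ≤ _ := by gcongr
    nlinarith

lemma log_choose_ge (n k : ℕ) (hk : 1 ≤ k) (hkn : k ≤ n) :
    k * Real.log (n + 1 - k) - (k * Real.log k - k + Real.log k + 1) ≤
      Real.log (n.choose k : ℝ) := by
  have h1 : (n + 1 - k) ^ k ≤ n.descFactorial k := Nat.pow_sub_le_descFactorial n k
  rw [Nat.descFactorial_eq_factorial_mul_choose] at h1
  have h2 : ((n : ℝ) + 1 - k) ^ k ≤ (k.factorial : ℝ) * (n.choose k : ℝ) := by
    have : ((n + 1 - k : ℕ) : ℝ) = (n : ℝ) + 1 - k := by
      rw [Nat.cast_sub (by omega)]; push_cast; ring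
    rw [← this]
    exact_mod_cast h1
  have hkn' : (k : ℝ) ≤ n := by exact_mod_cast hkn
  have hpos : (0 : ℝ) < (n : ℝ) + 1 - k := by linarith
  have hch : (0 : ℝ) < n.choose k := by exact_mod_cast Nat.choose_pos hkn
  have h3 := Real.log_le_log (by positivity) h2
  rw [Real.log_pow, Real.log_mul (by positivity) hch.ne'] at h3
  have h4 := factorial_le k hk
  linarith

lemma tendsto_logn : Tendsto (fun m : ℕ => Real.log (m : ℝ)) atTop atTop :=
  Real.tendsto_log_atTop.comp tendsto_natCast_atTop_atTop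

lemma tendsto_len_div {l : ℝ} (hl : 0 ≤ l) :
    Tendsto (fun m : ℕ => (len l m : ℝ) / Real.log (m : ℝ) ^ 2) atTop (𝓝 l) :=
  (tendsto_nat_floor_mul_div_atTop hl).comp ((tendsto_pow_atTop two_ne_zero).comp tendsto_logn)

lemma tendsto_floor_div {c : ℝ} (hc : 0 ≤ c) :
    Tendsto (fun m : ℕ => (⌊c * Real.log (m : ℝ)⌋₊ : ℝ) / Real.log (m : ℝ)) atTop (𝓝 c) :=
  (tendsto_nat_floor_mul_div_atTop hc).comp tendsto_logn

lemma tendsto_log_add_len_div {l : ℝ} (hl : 0 ≤ l) :
    Tendsto (fun m : ℕ => Real.log ((m : ℝ) + len l m) / Real.log (m : ℝ)) atTop (𝓝 1) := by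
  -- `log (m + len) = log m + log (1 + len / m)`
  have h0 : Tendsto (fun m : ℕ => (len l m : ℝ) / m) atTop (𝓝 0) := by
    have h1 : Tendsto (fun m : ℕ => l * (Real.log (m : ℝ) ^ 2 / m)) atTop (𝓝 (l * 0)) := by
      refine Tendsto.const_mul l ?_
      have h2 : Tendsto (fun x : ℝ => Real.log x ^ 2 / x) atTop (𝓝 0) := by
        have := Real.isLittleO_pow_log_id_atTop (n := 2)
        exact this.tendsto_div_nhds_zero
      exact h2.comp tendsto_natCast_atTop_atTop
    rw [mul_zero] at h1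
    refine squeeze_zero (fun m => by positivity) (fun m => ?_) h1
    rw [mul_div_assoc']
    gcongr
    exact len_le hl m
  have h1 : Tendsto (fun m : ℕ => Real.log (1 + (len l m : ℝ) / m) / Real.log (m : ℝ)) atTop
      (𝓝 0) := by
    have h2 : Tendsto (fun m : ℕ => Real.log (1 + (len l m : ℝ) / m)) atTop (𝓝 0) := by
      have h3 : Tendsto (fun m : ℕ => 1 + (len l m : ℝ) / m) atTop (𝓝 (1 + 0)) :=
        tendsto_const_nhds.add h0
      rw [add_zero] at h3
      have h4 := (Real.continuousAt_log (x := 1) one_ne_zero).tendsto.comp h3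
      rwa [Real.log_one] at h4
    exact h2.div_atTop tendsto_logn
  have h2 : Tendsto (fun m : ℕ => 1 + Real.log (1 + (len l m : ℝ) / m) / Real.log (m : ℝ)) atTop
      (𝓝 (1 + 0)) := tendsto_const_nhds.add h1
  rw [add_zero] at h2
  refine h2.congr' ?_
  filter_upwards [eventually_ge_atTop 3] with m hm
  have hm' : (3 : ℝ) ≤ m := by exact_mod_cast hm
  have hlog : 0 < Real.log (m : ℝ) := Real.log_pos (by linarith)
  have hmp : (0 : ℝ) < m := by linarith
  have e : (m : ℝ) + len l m = m * (1 + (len l m : ℝ) / m) := by field_simp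
  rw [e, Real.log_mul (by positivity) (by positivity), add_div, div_self hlog.ne']

lemma tendsto_inv_logn : Tendsto (fun m : ℕ => 1 / Real.log (m : ℝ)) atTop (𝓝 0) := by
  simp only [one_div]
  exact tendsto_logn.inv_tendsto_atTop

/-- Binomial lower tail at logarithmic scale. -/
theorem choose_lower {c l : ℝ} (hc : 0 < c) (hcl : c < l)
    (hI : l - c - c * Real.log (l / c) < 1) :
    ∃ δ ε : ℝ, 0 < δ ∧ 0 < ε ∧ ε < 1 ∧ ∀ᶠ m : ℕ in atTop, (m : ℝ) ^ (-(1 - δ)) ≤
      ((len l m).choose ⌊c * Real.log (m : ℝ)⌋₊ : ℝ) *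
        ((1 - ε) / Real.log ((m : ℝ) + len l m)) ^ ⌊c * Real.log (m : ℝ)⌋₊ *
        (1 - (1 + ε) / Real.log (m : ℝ)) ^ len l m := by
  have hl : 0 < l := hc.trans hcl
  -- choice of `ε`
  obtain ⟨ε, hε0, hε1, hε⟩ : ∃ ε : ℝ, 0 < ε ∧ ε < 1 ∧
      -1 < c * (Real.log (l / c * (1 - ε)) + 1) + l * (-(1 + ε)) := by
    have hcont : Tendsto (fun ε : ℝ => c * (Real.log (l / c * (1 - ε)) + 1) + l * (-(1 + ε)))
        (𝓝[>] 0) (𝓝 (c * (Real.log (l / c * (1 - 0)) + 1) + l * (-(1 + 0)))) := by
      have : ContinuousAt (fun ε : ℝ => c * (Real.log (l / c * (1 - ε)) + 1) + l * (-(1 + ε))) 0 := by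
        have h1 : ContinuousAt (fun ε : ℝ => Real.log (l / c * (1 - ε))) 0 := by
          apply ContinuousAt.log (by fun_prop)
          have : 0 < l / c * (1 - 0) := by rw [sub_zero, mul_one]; positivity
          exact this.ne'
        fun_prop
      exact this.tendsto.mono_left nhdsWithin_le_nhds
    have hval : -1 < c * (Real.log (l / c * (1 - 0)) + 1) + l * (-(1 + 0)) := by
      rw [sub_zero, mul_one]; linarith
    have h1 : ∀ᶠ ε : ℝ in 𝓝[>] 0, ε ∈ Set.Ioo 0 1 := Ioo_mem_nhdsGT one_pos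
    obtain ⟨ε, h2, h3⟩ := (h1.and (hcont.eventually_const_lt hval)).exists
    exact ⟨ε, h2.1, h2.2, h3⟩
  set G := c * (Real.log (l / c * (1 - ε)) + 1) + l * (-(1 + ε)) with hG
  refine ⟨(1 + G) / 2, ε, by linarith, hε0, hε1, ?_⟩
  -- the normalised logarithm
  set F : ℕ → ℝ := fun m =>
    ((⌊c * Real.log (m : ℝ)⌋₊ : ℝ) / Real.log (m : ℝ)) *
      (Real.log ((((len l m : ℝ) / Real.log (m : ℝ) ^ 2) + 1 / Real.log (m : ℝ) ^ 2 -
          ((⌊c * Real.log (m : ℝ)⌋₊ : ℝ) / Real.log (m : ℝ)) * (1 / Real.log (m : ℝ))) /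
        (((⌊c * Real.log (m : ℝ)⌋₊ : ℝ) / Real.log (m : ℝ)) *
          (Real.log ((m : ℝ) + len l m) / Real.log (m : ℝ))) * (1 - ε)) + 1)
      - (Real.log (⌊c * Real.log (m : ℝ)⌋₊ : ℝ) / Real.log (m : ℝ) + 1 / Real.log (m : ℝ))
      + ((len l m : ℝ) / Real.log (m : ℝ) ^ 2) *
        (Real.log (m : ℝ) * Real.log (1 + (-(1 + ε)) / Real.log (m : ℝ))) with hF
  have hinv := tendsto_inv_logn
  have hinv2 : Tendsto (fun m : ℕ => 1 / Real.log (m : ℝ) ^ 2) atTop (𝓝 0) := by
    simp only [one_div]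
    exact ((tendsto_pow_atTop two_ne_zero).comp tendsto_logn).inv_tendsto_atTop
  have hk := tendsto_floor_div hc.le
  have hlen := tendsto_len_div hl.le
  have hlogk : Tendsto (fun m : ℕ => Real.log (⌊c * Real.log (m : ℝ)⌋₊ : ℝ) / Real.log (m : ℝ))
      atTop (𝓝 0) := by
    -- `log k / log m = (log k / k) * (k / log m)`
    have h1 : Tendsto (fun m : ℕ => ⌊c * Real.log (m : ℝ)⌋₊) atTop atTop :=
      tendsto_nat_floor_atTop.comp (tendsto_logn.const_mul_atTop hc)
    have h2 : Tendsto (fun x : ℝ => Real.log x / x) atTop (𝓝 0) :=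
      Real.isLittleO_log_id_atTop.tendsto_div_nhds_zero
    have h3 := (h2.comp (tendsto_natCast_atTop_atTop.comp h1)).mul hk
    rw [zero_mul] at h3
    refine h3.congr' ?_
    filter_upwards [h1.eventually_ge_atTop 1] with m hm
    have : (0 : ℝ) < (⌊c * Real.log (m : ℝ)⌋₊ : ℝ) := by exact_mod_cast hm
    simp only [Function.comp_apply]
    field_simp
  have hlim : Tendsto F atTop (𝓝 (c * (Real.log ((l + 0 - c * 0) / (c * 1) * (1 - ε)) + 1) - (0 + 0)
      + l * (-(1 + ε)))) := by
    refine ((hk.mul (((Tendsto.log ?_ ?_)).add_const 1)).sub (hlogk.add hinv)).add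
      (hlen.mul ?_)
    · exact (((hlen.add hinv2).sub (hk.mul hinv)).div
        (hk.mul (tendsto_log_add_len_div hl.le)) (by simpa using hc.ne')).mul_const _
    · have : 0 < (l + 0 - c * 0) / (c * 1) * (1 - ε) := by
        simp only [mul_zero, add_zero, sub_zero, mul_one]
        have : 0 < 1 - ε := by linarith
        positivity
      exact this.ne'
    · exact (Real.tendsto_mul_log_one_add_div_atTop (-(1 + ε))).comp tendsto_logn
  have hval : c * (Real.log ((l + 0 - c * 0) / (c * 1) * (1 - ε)) + 1) - (0 + 0)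
      + l * (-(1 + ε)) = G := by
    simp only [mul_zero, add_zero, sub_zero, mul_one, hG]
  rw [hval] at hlim
  have hev := hlim.eventually_const_le (u := -(1 - (1 + G) / 2)) (by linarith)
  have h1 : Tendsto (fun m : ℕ => ⌊c * Real.log (m : ℝ)⌋₊) atTop atTop :=
    tendsto_nat_floor_atTop.comp (tendsto_logn.const_mul_atTop hc)
  -- eventually `k ≤ len`
  have hkl : ∀ᶠ m : ℕ in atTop, ⌊c * Real.log (m : ℝ)⌋₊ ≤ len l m := by
    filter_upwards [tendsto_logn.eventually_ge_atTop 1] with m hm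
    apply Nat.floor_mono
    have : Real.log (m : ℝ) ≤ Real.log (m : ℝ) ^ 2 := by nlinarith
    calc c * Real.log (m : ℝ) ≤ l * Real.log (m : ℝ) := by gcongr
      _ ≤ l * Real.log (m : ℝ) ^ 2 := by gcongr
  filter_upwards [hev, h1.eventually_ge_atTop 1, hkl, tendsto_logn.eventually_ge_atTop 4,
    eventually_ge_atTop 3] with m hFm hk1 hkl hlog hm3
  set L := Real.log (m : ℝ) with hL
  set k := ⌊c * L⌋₊ with hkdef
  have hm' : (3 : ℝ) ≤ m := by exact_mod_cast hm3
  have hmp : (0 : ℝ) < m := by linarith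
  have hLpos : 0 < L := by linarith
  have hkpos : (0 : ℝ) < k := by exact_mod_cast hk1
  have hML : L ≤ Real.log ((m : ℝ) + len l m) := by
    rw [hL]
    apply Real.log_le_log hmp
    have : (0 : ℝ) ≤ len l m := by positivity
    linarith
  set M := Real.log ((m : ℝ) + len l m) with hM
  have hMpos : 0 < M := by linarith
  have hkln : (k : ℝ) ≤ len l m := by exact_mod_cast hkl
  have hchpos : (0 : ℝ) < ((len l m).choose k : ℝ) := by exact_mod_cast Nat.choose_pos hkl
  have he1 : 0 < 1 - ε := by linarith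
  have hone : 0 < 1 - (1 + ε) / L := by
    have : (1 + ε) / L ≤ 2 / 4 := by gcongr; linarith
    linarith
  -- take logarithms
  rw [← Real.log_le_log_iff (by positivity) (by positivity)]
  rw [Real.log_rpow hmp, Real.log_mul (by positivity) (by positivity),
    Real.log_mul hchpos.ne' (by positivity), Real.log_pow, Real.log_pow]
  have hch := log_choose_ge (len l m) k hk1 hkl
  have hlog1 : Real.log ((1 - ε) / M) = Real.log (1 - ε) - Real.log M :=
    Real.log_div he1.ne' hMpos.ne'
  rw [hlog1, ← hL]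
  have hge : (-(1 - (1 + G) / 2)) * L ≤ F m * L := by gcongr
  refine hge.trans ?_
  -- `F m * L` in terms of `k, len, M`
  have hFL : F m * L = k * Real.log ((len l m : ℝ) + 1 - k) - (k * Real.log k - k + Real.log k + 1)
      + k * (Real.log (1 - ε) - Real.log M) + len l m * Real.log (1 - (1 + ε) / L) := by
    have hposn : (0 : ℝ) < (len l m : ℝ) + 1 - k := by linarith
    have e1 : (((len l m : ℝ) / L ^ 2) + 1 / L ^ 2 - ((k : ℝ) / L) * (1 / L)) /
        (((k : ℝ) / L) * (M / L)) = ((len l m : ℝ) + 1 - k) / (k * M) := by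
      field_simp
    have e2 : Real.log (((len l m : ℝ) + 1 - k) / (k * M) * (1 - ε)) =
        Real.log ((len l m : ℝ) + 1 - k) - Real.log k - Real.log M + Real.log (1 - ε) := by
      rw [Real.log_mul (by positivity) he1.ne', Real.log_div hposn.ne' (by positivity),
        Real.log_mul hkpos.ne' hMpos.ne']
      ring
    have e3 : 1 + (-(1 + ε)) / L = 1 - (1 + ε) / L := by ring
    simp only [hF]
    rw [← hL, ← hkdef, ← hM, e1, e2, e3]
    field_simp
    ring
  rw [hFL]
  linarith

/-- The empty window. -/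
theorem empty_lower {l : ℝ} (hl : 0 < l) (hI : l < 1) :
    ∃ δ ε : ℝ, 0 < δ ∧ 0 < ε ∧ ε < 1 ∧ ∀ᶠ m : ℕ in atTop, (m : ℝ) ^ (-(1 - δ)) ≤
        (1 - (1 + ε) / Real.log (m : ℝ)) ^ len l m := by
  obtain ⟨ε, hε0, hε1, hε⟩ : ∃ ε : ℝ, 0 < ε ∧ ε < 1 ∧ -1 < l * (-(1 + ε)) := by
    refine ⟨(1 - l) / 2, by linarith, by linarith, by nlinarith⟩
  set G := l * (-(1 + ε)) with hG
  refine ⟨(1 + G) / 2, ε, by linarith, hε0, hε1, ?_⟩
  have hlim : Tendsto (fun m : ℕ => ((len l m : ℝ) / Real.log (m : ℝ) ^ 2) *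
        (Real.log (m : ℝ) * Real.log (1 + (-(1 + ε)) / Real.log (m : ℝ)))) atTop (𝓝 G) :=
    (tendsto_len_div hl.le).mul
      ((Real.tendsto_mul_log_one_add_div_atTop (-(1 + ε))).comp tendsto_logn)
  have hev := hlim.eventually_const_le (u := -(1 - (1 + G) / 2)) (by linarith)
  filter_upwards [hev, tendsto_logn.eventually_ge_atTop 4, eventually_ge_atTop 3] with m hFm hlog hm3
  set L := Real.log (m : ℝ) with hL
  have hm' : (3 : ℝ) ≤ m := by exact_mod_cast hm3
  have hmp : (0 : ℝ) < m := by linarith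
  have hLpos : 0 < L := by linarith
  have hone : 0 < 1 - (1 + ε) / L := by
    have : (1 + ε) / L ≤ 2 / 4 := by gcongr; linarith
    linarith
  rw [← Real.log_le_log_iff (by positivity) (by positivity), Real.log_rpow hmp, Real.log_pow, ← hL]
  have e3 : 1 + (-(1 + ε)) / L = 1 - (1 + ε) / L := by ring
  rw [e3] at hFm
  calc (-(1 - (1 + G) / 2)) * L ≤ (((len l m : ℝ) / L ^ 2) * (L * Real.log (1 - (1 + ε) / L))) * L := by
        gcongr
    _ = len l m * Real.log (1 - (1 + ε) / L) := by field_simp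

open Classical in
theorem lower_tail {Ω : Type*} [MeasurableSpace Ω] {μ : Measure Ω} [IsProbabilityMeasure μ]
    {E : ℕ → Set Ω} (hE : ∀ n, MeasurableSet (E n)) (hind : iIndepSet E μ) {q : ℕ → ℝ}
    (hq : ∀ n, μ.real (E n) = q n) (hlim : Tendsto (fun n => q n * Real.log n) atTop (𝓝 1))
    {c d : ℝ} (hc : 0 ≤ c) (hcd : c < d) (h : d - c - c * Real.log (d / c) < 1) :
    ∃ δ : ℝ, 0 < δ ∧ ∀ᶠ m : ℕ in atTop, (m : ℝ) ^ (-(1 - δ)) ≤
      μ.real {ω | cnt {n | ω ∈ E n} m (len d m) ≤ ⌊c * Real.log (m : ℝ)⌋₊} := by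
  have hq' : ∀ n, μ (E n) = ENNReal.ofReal (q n) := fun n => by
    rw [← hq n, Measure.real, ENNReal.ofReal_toReal (measure_ne_top _ _)]
  have hq0 : ∀ n, 0 ≤ q n := fun n => by rw [← hq n]; exact measureReal_nonneg
  have hq1 : ∀ n, q n ≤ 1 := fun n => by rw [← hq n]; exact measureReal_le_one
  have hcnt : ∀ (ω : Ω) (m l : ℕ), cnt {n | ω ∈ E n} m l =
      ((Finset.Ioc m (m + l)).filter fun j => ω ∈ E j).card := by
    intro ω m l
    rw [cnt, ← Set.ncard_coe_finset]
    congr 1
    ext j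
    simp [and_comm]
  simp only [hcnt]
  have hd : 0 < d := hc.trans_lt hcd
  -- bounds of `q`
  have hqb : ∀ ε : ℝ, 0 < ε → ε < 1 → ∀ᶠ m : ℕ in atTop, ∀ j ∈ Finset.Ioc m (m + len d m),
      (1 - ε) / Real.log ((m : ℝ) + len d m) ≤ q j ∧ q j ≤ (1 + ε) / Real.log (m : ℝ) := by
    intro ε hε0 hε1
    have h1 : ∀ᶠ n : ℕ in atTop, 1 - ε < q n * Real.log n := hlim.eventually_const_lt (by linarith)
    have h2 : ∀ᶠ n : ℕ in atTop, q n * Real.log n < 1 + ε := hlim.eventually_lt_const (by linarith)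
    obtain ⟨N, hN⟩ := eventually_atTop.1 (h1.and h2)
    filter_upwards [eventually_ge_atTop N, eventually_ge_atTop 3] with m hmN hm3 j hj
    rw [Finset.mem_Ioc] at hj
    have hm' : (3 : ℝ) ≤ m := by exact_mod_cast hm3
    have hj1 : (m : ℝ) < j := by exact_mod_cast hj.1
    have hj2 : (j : ℝ) ≤ (m : ℝ) + len d m := by exact_mod_cast hj.2
    obtain ⟨h3, h4⟩ := hN j (by omega)
    have hlj : 0 < Real.log (j : ℝ) := Real.log_pos (by linarith)
    have hlm : 0 < Real.log (m : ℝ) := Real.log_pos (by linarith)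
    constructor
    · calc (1 - ε) / Real.log ((m : ℝ) + len d m) ≤ (1 - ε) / Real.log (j : ℝ) := by
            apply div_le_div_of_nonneg_left (by linarith) hlj
            exact Real.log_le_log (by linarith) hj2
        _ ≤ q j := by rw [div_le_iff₀ hlj]; exact h3.le
    · calc q j ≤ (1 + ε) / Real.log (j : ℝ) := by rw [le_div_iff₀ hlj]; exact h4.le
        _ ≤ (1 + ε) / Real.log (m : ℝ) := by
          apply div_le_div_of_nonneg_left (by linarith) hlm
          exact Real.log_le_log (by linarith) hj1.le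
  have hcard : ∀ m : ℕ, (Finset.Ioc m (m + len d m)).card = len d m := fun m => by
    rw [Nat.card_Ioc]; omega
  rcases hc.eq_or_lt with hc0 | hcpos
  · subst hc0
    obtain ⟨δ, ε, hδ, hε0, hε1, hev⟩ := empty_lower hd (by simpa using h)
    refine ⟨δ, hδ, ?_⟩
    filter_upwards [hev, hqb ε hε0 hε1, eventually_ge_atTop 3,
      tendsto_logn.eventually_ge_atTop 2] with m hm hqm hm3 hlog
    refine hm.trans ?_
    have hm' : (3 : ℝ) ≤ m := by exact_mod_cast hm3
    have hlen0 : (0 : ℝ) ≤ len d m := by positivity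
    have hM : Real.log (m : ℝ) ≤ Real.log ((m : ℝ) + len d m) :=
      Real.log_le_log (by linarith) (by linarith)
    have key := prob_card_ge hE hind hq' hq0 hq1 (Finset.Ioc m (m + len d m))
      ⌊0 * Real.log (m : ℝ)⌋₊ (a := (1 - ε) / Real.log ((m : ℝ) + len d m))
      (b := (1 + ε) / Real.log (m : ℝ)) (div_nonneg (by linarith) (by linarith))
      (fun j hj => (hqm j hj).1) (fun j hj => (hqm j hj).2)
      (by rw [div_le_one (by linarith)]; linarith)
      (div_nonneg (by linarith) (by linarith))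
    rw [hcard] at key
    have e0 : ⌊0 * Real.log (m : ℝ)⌋₊ = 0 := by simp
    rw [e0] at key ⊢
    simpa using key
  · obtain ⟨δ, ε, hδ, hε0, hε1, hev⟩ := choose_lower hcpos hcd h
    refine ⟨δ, hδ, ?_⟩
    filter_upwards [hev, hqb ε hε0 hε1, eventually_ge_atTop 3,
      tendsto_logn.eventually_ge_atTop 2] with m hm hqm hm3 hlog
    refine hm.trans ?_
    have hm' : (3 : ℝ) ≤ m := by exact_mod_cast hm3
    have hlen0 : (0 : ℝ) ≤ len d m := by positivity
    have hM : Real.log (m : ℝ) ≤ Real.log ((m : ℝ) + len d m) :=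
      Real.log_le_log (by linarith) (by linarith)
    have key := prob_card_ge hE hind hq' hq0 hq1 (Finset.Ioc m (m + len d m))
      ⌊c * Real.log (m : ℝ)⌋₊ (a := (1 - ε) / Real.log ((m : ℝ) + len d m))
      (b := (1 + ε) / Real.log (m : ℝ)) (div_nonneg (by linarith) (by linarith))
      (fun j hj => (hqm j hj).1) (fun j hj => (hqm j hj).2)
      (by rw [div_le_one (by linarith)]; linarith)
      (div_nonneg (by linarith) (by linarith))
    rw [hcard] at key
    exact key

end Pool.Agent.LibCramer.LowerTail
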