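import Mathlib

/-!
Core deterministic facts on the Cramer constant of a set of natural numbers.
-/

namespace Pool.Agent.LibCramer

open Filter Topology
open scoped ENNReal

/-- The Cramer constant of a set `B` of natural numbers with increasing enumeration
`b 0 < b 1 < ...`: the limsup of `(b (n+1) - b n) / (log (b n))^2`. -/
noncomputable def cramer (B : Set ℕ) : ℝ≥0∞ :=
  limsup (fun n : ℕ => ENNReal.ofReal
    (((Nat.nth (· ∈ B) (n + 1) : ℝ) - (Nat.nth (· ∈ B) n : ℝ)) /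
      Real.log (Nat.nth (· ∈ B) n : ℝ) ^ 2)) atTop

/-- length of the window at `m` -/
noncomputable def len (c : ℝ) (m : ℕ) : ℕ := ⌊c * Real.log (m : ℝ) ^ 2⌋₊

lemma len_mono {c d : ℝ} (h : c ≤ d) (m : ℕ) : len c m ≤ len d m :=
  Nat.floor_mono (mul_le_mul_of_nonneg_right h (sq_nonneg _))

lemma len_le {c : ℝ} (hc : 0 ≤ c) (m : ℕ) : (len c m : ℝ) ≤ c * Real.log (m : ℝ) ^ 2 :=
  Nat.floor_le (mul_nonneg hc (sq_nonneg _))

lemma lt_len (c : ℝ) (m : ℕ) : c * Real.log (m : ℝ) ^ 2 < len c m + 1 :=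
  Nat.lt_floor_add_one _

lemma tendsto_nth {B : Set ℕ} (hB : B.Infinite) :
    Tendsto (fun n => Nat.nth (· ∈ B) n) atTop atTop :=
  (Nat.nth_strictMono (p := (· ∈ B)) hB).tendsto_atTop

/-- If all far windows are hit, the Cramer constant is at most `c`. -/
lemma cramer_le {B : Set ℕ} (hB : B.Infinite) {c : ℝ} (hc : 0 ≤ c)
    (h : ∀ᶠ m : ℕ in atTop, ∃ j ∈ B, m < j ∧ j ≤ m + len c m) :
    cramer B ≤ ENNReal.ofReal c := by
  unfold cramer
  refine limsup_le_of_le (by isBoundedDefault) ?_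
  filter_upwards [(tendsto_nth hB).eventually h, (tendsto_nth hB).eventually_ge_atTop 3] with n hn hn3
  obtain ⟨j, hjB, hj1, hj2⟩ := hn
  apply ENNReal.ofReal_le_ofReal
  have hlog : 0 < Real.log (Nat.nth (· ∈ B) n : ℝ) := by
    apply Real.log_pos
    have : (3 : ℝ) ≤ (Nat.nth (· ∈ B) n : ℝ) := by exact_mod_cast hn3
    linarith
  rw [div_le_iff₀ (by positivity)]
  have hle : Nat.nth (· ∈ B) (n + 1) ≤ j := by
    by_contra hlt
    push Not at hlt
    have := Nat.le_nth_of_lt_nth_succ hlt hjB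
    omega
  have h1 : (Nat.nth (· ∈ B) (n + 1) : ℝ) ≤ (Nat.nth (· ∈ B) n : ℝ) + len c (Nat.nth (· ∈ B) n) := by
    exact_mod_cast hle.trans hj2
  have h2 := len_le hc (Nat.nth (· ∈ B) n)
  linarith

/-- If infinitely many windows are missed, the Cramer constant is at least `c`. -/
lemma le_cramer {B : Set ℕ} (hB : B.Infinite) {c : ℝ} (hc : 0 ≤ c)
    (h : ∃ᶠ m : ℕ in atTop, ∀ j, m < j → j ≤ m + len c m → j ∉ B) :
    ENNReal.ofReal c ≤ cramer B := by
  unfold cramer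
  apply le_limsup_of_frequently_le _ (by isBoundedDefault)
  rw [frequently_atTop] at h ⊢
  intro N
  obtain ⟨m, hm, hmB⟩ := h (Nat.nth (· ∈ B) (N + 3) + 3)
  have : DecidablePred (· ∈ B) := Classical.decPred _
  -- index of the first element beyond m
  set k := Nat.count (· ∈ B) (m + 1) with hk
  have hk1 : m + 1 ≤ Nat.nth (· ∈ B) k := Nat.le_nth_count (p := (· ∈ B)) hB (m + 1)
  have hkpos : N + 3 < k := by
    rw [hk, Nat.lt_nth_iff_count_lt (p := (· ∈ B)) hB]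
    omega
  obtain ⟨l, hkl⟩ : ∃ l, k = l + 1 := ⟨k - 1, by omega⟩
  rw [hkl] at hk hk1 hkpos
  refine ⟨l, by omega, ?_⟩
  have hl1 : Nat.nth (· ∈ B) l < m + 1 := by
    rw [← Nat.lt_nth_iff_count_lt (p := (· ∈ B)) hB]
    omega
  have hl3 : 3 ≤ Nat.nth (· ∈ B) l := by
    have h1 : l ≤ Nat.nth (· ∈ B) l := (Nat.nth_strictMono (p := (· ∈ B)) hB).le_apply
    omega
  have hbig : m + len c m < Nat.nth (· ∈ B) (l + 1) := by
    by_contra hlt
    push Not at hlt
    exact hmB _ (by omega) hlt (Nat.nth_mem_of_infinite (p := (· ∈ B)) hB _)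
  apply ENNReal.ofReal_le_ofReal
  have hlog : 0 < Real.log (Nat.nth (· ∈ B) l : ℝ) := by
    apply Real.log_pos
    have : (3 : ℝ) ≤ (Nat.nth (· ∈ B) l : ℝ) := by exact_mod_cast hl3
    linarith
  rw [le_div_iff₀ (by positivity)]
  have hlm : (Nat.nth (· ∈ B) l : ℝ) ≤ m := by exact_mod_cast Nat.lt_succ_iff.mp hl1
  have h1 : (m : ℝ) + len c m + 1 ≤ Nat.nth (· ∈ B) (l + 1) := by exact_mod_cast hbig
  have h2 := lt_len c m
  have h3 : Real.log (Nat.nth (· ∈ B) l : ℝ) ^ 2 ≤ Real.log (m : ℝ) ^ 2 := by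
    apply pow_le_pow_left₀ hlog.le
    apply Real.log_le_log _ hlm
    have : (3 : ℝ) ≤ (Nat.nth (· ∈ B) l : ℝ) := by exact_mod_cast hl3
    linarith
  have h4 : c * Real.log (Nat.nth (· ∈ B) l : ℝ) ^ 2 ≤ c * Real.log (m : ℝ) ^ 2 :=
    mul_le_mul_of_nonneg_left h3 hc
  linarith

end Pool.Agent.LibCramer
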