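import Mathlib

/-!
A second moment Borel-Cantelli lemma for events with local dependence.
-/

namespace Pool.Agent.LibCramer

open Filter Topology MeasureTheory ProbabilityTheory
open scoped ENNReal

variable {Ω : Type*} [MeasurableSpace Ω] {μ : Measure Ω}

/-- weighted indicator -/
noncomputable def wind (W : ℕ → ℝ) (A : ℕ → Set Ω) (m : ℕ) : Ω → ℝ :=
  (A m).indicator (fun _ => W m)

lemma wind_memLp [IsProbabilityMeasure μ] (W : ℕ → ℝ) {A : ℕ → Set Ω}
    (hA : ∀ m, MeasurableSet (A m)) (m : ℕ) : MemLp (wind W A m) 2 μ :=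
  (memLp_const (W m)).indicator (hA m)

lemma wind_integral [IsProbabilityMeasure μ] (W : ℕ → ℝ) {A : ℕ → Set Ω}
    (hA : ∀ m, MeasurableSet (A m)) (m : ℕ) : ∫ ω, wind W A m ω ∂μ = W m * μ.real (A m) := by
  unfold wind
  rw [integral_indicator_const _ (hA m)]
  simp [mul_comm]

lemma wind_cov [IsProbabilityMeasure μ] (W : ℕ → ℝ) {A : ℕ → Set Ω}
    (hA : ∀ m, MeasurableSet (A m)) (m n : ℕ) :
    cov[wind W A m, wind W A n; μ] =
      W m * W n * (μ.real (A m ∩ A n) - μ.real (A m) * μ.real (A n)) := by
  rw [covariance_eq_sub (wind_memLp W hA m) (wind_memLp W hA n), wind_integral W hA,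
    wind_integral W hA]
  have h : (wind W A m * wind W A n) = (A m ∩ A n).indicator (fun _ => W m * W n) := by
    funext ω
    simp only [wind, Pi.mul_apply]
    by_cases h1 : ω ∈ A m <;> by_cases h2 : ω ∈ A n <;> simp [h1, h2]
  rw [h, integral_indicator_const _ ((hA m).inter (hA n))]
  simp only [smul_eq_mul]
  ring

/-- Variance bound. -/
lemma var_bound [IsProbabilityMeasure μ] {W : ℕ → ℝ} {A : ℕ → Set Ω} {ℓ : ℕ → ℕ} {C : ℝ}
    (hA : ∀ m, MeasurableSet (A m)) (hW : ∀ m, 0 ≤ W m)
    (hdis : ∀ m n, m ≤ n → m + ℓ m ≤ n → μ.real (A m ∩ A n) ≤ μ.real (A m) * μ.real (A n))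
    (hmono : ∀ m n, m ≤ n → n < m + ℓ m → W n ≤ W m)
    (hC : ∀ m, ℓ m * W m ≤ C) (N : ℕ) :
    Var[fun ω => ∑ m ∈ Finset.range N, wind W A m ω; μ] ≤
      2 * C * ∑ m ∈ Finset.range N, W m * μ.real (A m) := by
  rw [variance_fun_sum' (fun i _ => wind_memLp W hA i)]
  -- bound of a covariance
  set K : ℕ → ℕ → ℝ := fun m n => if m ≤ n ∧ n < m + ℓ m then W m * μ.real (A m) * W n else 0
    with hK
  have hKnn : ∀ m n, 0 ≤ K m n := by
    intro m n
    simp only [hK]
    split_ifs
    · exact mul_nonneg (mul_nonneg (hW m) measureReal_nonneg) (hW n)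
    · exact le_rfl
  have hcov1 : ∀ m n, m ≤ n → cov[wind W A m, wind W A n; μ] ≤ K m n := by
    intro m n hmn
    rw [wind_cov W hA]
    simp only [hK]
    split_ifs with h
    · have h1 : μ.real (A m ∩ A n) ≤ μ.real (A m) := measureReal_mono Set.inter_subset_left
      have h2 : 0 ≤ μ.real (A m) * μ.real (A n) := mul_nonneg measureReal_nonneg measureReal_nonneg
      have h3 : 0 ≤ W m * W n := mul_nonneg (hW m) (hW n)
      nlinarith
    · have h1 := hdis m n hmn (by
        by_contra hlt
        exact h ⟨hmn, by omega⟩)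
      have h3 : 0 ≤ W m * W n := mul_nonneg (hW m) (hW n)
      nlinarith
  have hcov : ∀ m n, cov[wind W A m, wind W A n; μ] ≤ K m n + K n m := by
    intro m n
    rcases le_total m n with h | h
    · exact (hcov1 m n h).trans (le_add_of_nonneg_right (hKnn n m))
    · rw [covariance_comm]
      exact (hcov1 n m h).trans (le_add_of_nonneg_left (hKnn m n))
  have hrow : ∀ m, ∑ n ∈ Finset.range N, K m n ≤ C * (W m * μ.real (A m)) := by
    intro m
    have h0 : 0 ≤ W m * μ.real (A m) := mul_nonneg (hW m) measureReal_nonneg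
    calc ∑ n ∈ Finset.range N, K m n
        = ∑ n ∈ (Finset.range N).filter (fun n => m ≤ n ∧ n < m + ℓ m),
            W m * μ.real (A m) * W n := by rw [Finset.sum_filter]
      _ ≤ ∑ n ∈ Finset.Ico m (m + ℓ m), W m * μ.real (A m) * W n := by
          apply Finset.sum_le_sum_of_subset_of_nonneg
          · intro n hn
            rw [Finset.mem_filter] at hn
            rw [Finset.mem_Ico]
            exact hn.2
          · intro n _ _
            exact mul_nonneg h0 (hW n)
      _ ≤ ∑ n ∈ Finset.Ico m (m + ℓ m), W m * μ.real (A m) * W m := by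
          apply Finset.sum_le_sum
          intro n hn
          rw [Finset.mem_Ico] at hn
          exact mul_le_mul_of_nonneg_left (hmono m n hn.1 hn.2) h0
      _ = (ℓ m * W m) * (W m * μ.real (A m)) := by
          rw [Finset.sum_const, Nat.card_Ico, nsmul_eq_mul]
          have : m + ℓ m - m = ℓ m := by omega
          rw [this]
          ring
      _ ≤ C * (W m * μ.real (A m)) := mul_le_mul_of_nonneg_right (hC m) h0
  calc ∑ i ∈ Finset.range N, ∑ j ∈ Finset.range N, cov[wind W A i, wind W A j; μ]
      ≤ ∑ i ∈ Finset.range N, ∑ j ∈ Finset.range N, (K i j + K j i) :=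
        Finset.sum_le_sum fun i _ => Finset.sum_le_sum fun j _ => hcov i j
    _ = ∑ i ∈ Finset.range N, ∑ j ∈ Finset.range N, K i j
        + ∑ i ∈ Finset.range N, ∑ j ∈ Finset.range N, K j i := by
        rw [← Finset.sum_add_distrib]
        exact Finset.sum_congr rfl fun i _ => Finset.sum_add_distrib
    _ = 2 * ∑ i ∈ Finset.range N, ∑ j ∈ Finset.range N, K i j := by
        rw [Finset.sum_comm (f := fun i j => K j i)]
        ring
    _ ≤ 2 * ∑ i ∈ Finset.range N, C * (W i * μ.real (A i)) := by
        apply mul_le_mul_of_nonneg_left _ (by norm_num)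
        exact Finset.sum_le_sum fun i _ => hrow i
    _ = 2 * C * ∑ m ∈ Finset.range N, W m * μ.real (A m) := by
        rw [← Finset.mul_sum]
        ring

/-- Second moment Borel-Cantelli with local dependence. -/
theorem frequently_of_second_moment [IsProbabilityMeasure μ] {W : ℕ → ℝ} {A : ℕ → Set Ω}
    {ℓ : ℕ → ℕ} {C : ℝ}
    (hA : ∀ m, MeasurableSet (A m)) (hW : ∀ m, 0 ≤ W m)
    (hdis : ∀ m n, m ≤ n → m + ℓ m ≤ n → μ.real (A m ∩ A n) ≤ μ.real (A m) * μ.real (A n))
    (hmono : ∀ m n, m ≤ n → n < m + ℓ m → W n ≤ W m)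
    (hC : ∀ m, ℓ m * W m ≤ C)
    (hdiv : Tendsto (fun N => ∑ m ∈ Finset.range N, W m * μ.real (A m)) atTop atTop) :
    ∀ᵐ ω ∂μ, ∃ᶠ m in atTop, ω ∈ A m := by
  have hC0 : 0 ≤ C := (mul_nonneg (Nat.cast_nonneg _) (hW 0)).trans (hC 0)
  set e : ℕ → ℝ := fun N => ∑ m ∈ Finset.range N, W m * μ.real (A m) with he
  set S : ℕ → Ω → ℝ := fun N ω => ∑ m ∈ Finset.range N, wind W A m ω with hS
  have hSLp : ∀ N, MemLp (S N) 2 μ := fun N => memLp_finsetSum _ fun i _ => wind_memLp W hA i
  have hSint : ∀ N, ∫ ω, S N ω ∂μ = e N := by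
    intro N
    simp only [hS, he]
    rw [integral_finsetSum _ fun i _ => (wind_memLp W hA i).integrable (by norm_num)]
    exact Finset.sum_congr rfl fun i _ => wind_integral W hA i
  -- the bad events
  have hbad : ∀ K : ℕ, μ {ω | ∀ m, K ≤ m → ω ∉ A m} = 0 := by
    intro K
    set M : ℝ := ∑ m ∈ Finset.range K, W m with hM
    have hM0 : 0 ≤ M := Finset.sum_nonneg fun m _ => hW m
    have hsub : ∀ N, {ω | ∀ m, K ≤ m → ω ∉ A m} ⊆ {ω | S N ω ≤ M} := by
      intro N ω hω
      simp only [Set.mem_ofPred_eq] at hω ⊢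
      calc S N ω = ∑ m ∈ Finset.range N, wind W A m ω := rfl
        _ ≤ ∑ m ∈ Finset.range N, (if m < K then W m else 0) := by
            apply Finset.sum_le_sum
            intro m _
            by_cases h1 : ω ∈ A m
            · have h2 : m < K := by
                by_contra h2
                exact hω m (by omega) h1
              simp [wind, h1, h2]
            · simp only [wind, Set.indicator_of_notMem h1]
              split_ifs
              · exact hW m
              · exact le_rfl
        _ = ∑ m ∈ (Finset.range N).filter (· < K), W m := by rw [Finset.sum_filter]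
        _ ≤ M := by
            apply Finset.sum_le_sum_of_subset_of_nonneg
            · intro m hm
              rw [Finset.mem_filter] at hm
              exact Finset.mem_range.mpr hm.2
            · intro m _ _
              exact hW m
    have hbound : ∀ᶠ N in atTop, μ {ω | ∀ m, K ≤ m → ω ∉ A m} ≤
        ENNReal.ofReal (8 * C * (e N)⁻¹) := by
      filter_upwards [hdiv.eventually_ge_atTop (2 * M + 1), hdiv.eventually_gt_atTop 0]
        with N hN hN0
      have hNe : 2 * M + 1 ≤ e N := hN
      have hN0' : 0 < e N := hN0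
      calc μ {ω | ∀ m, K ≤ m → ω ∉ A m} ≤ μ {ω | e N / 2 ≤ |S N ω - μ[S N]|} := by
            apply measure_mono
            intro ω hω
            have h1 := hsub N hω
            simp only [Set.mem_ofPred_eq] at h1 ⊢
            rw [hSint]
            rw [abs_sub_comm]
            refine le_trans ?_ (le_abs_self _)
            linarith
        _ ≤ ENNReal.ofReal (Var[S N; μ] / (e N / 2) ^ 2) :=
            meas_ge_le_variance_div_sq (hSLp N) (by positivity)
        _ ≤ ENNReal.ofReal (8 * C * (e N)⁻¹) := by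
            apply ENNReal.ofReal_le_ofReal
            have hv : Var[S N; μ] ≤ 2 * C * e N := var_bound hA hW hdis hmono hC N
            rw [div_le_iff₀ (by positivity)]
            calc Var[S N; μ] ≤ 2 * C * e N := hv
              _ = 8 * C * (e N)⁻¹ * (e N / 2) ^ 2 := by
                  field_simp
                  ring
    have hlim : Tendsto (fun N => ENNReal.ofReal (8 * C * (e N)⁻¹)) atTop (𝓝 0) := by
      have h1 : Tendsto (fun N => 8 * C * (e N)⁻¹) atTop (𝓝 (8 * C * 0)) :=
        (hdiv.inv_tendsto_atTop).const_mul _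
      rw [mul_zero] at h1
      simpa using ENNReal.tendsto_ofReal h1
    exact le_antisymm (ge_of_tendsto hlim hbound) zero_le
  have : μ (⋃ K : ℕ, {ω | ∀ m, K ≤ m → ω ∉ A m}) = 0 := measure_iUnion_null hbad
  rw [measure_eq_zero_iff_ae_notMem] at this
  filter_upwards [this] with ω hω
  rw [frequently_atTop]
  intro K
  by_contra hcon
  apply hω
  rw [Set.mem_iUnion]
  refine ⟨K, ?_⟩
  intro m hm hmA
  exact hcon ⟨m, hm, hmA⟩

end Pool.Agent.LibCramer
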