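import Pool.Agent.LibCramer.Core
import Pool.Agent.LibCramer.SecondMoment

/-!
Cramer constant of a random set with independent (not identically distributed) points.
-/

namespace Pool.Agent.LibCramer

open Filter Topology MeasureTheory ProbabilityTheory
open scoped ENNReal NNReal

variable {Ω : Type*} [MeasurableSpace Ω] {μ : Measure Ω}

/-- Product of `1 - q j` over the window `m < j ≤ m + ⌊c log² m⌋`: the probability that this
window is missed. -/
noncomputable def avoidProb (q : ℕ → ℝ) (c : ℝ) (m : ℕ) : ℝ :=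
  ∏ j ∈ Finset.Ioc m (m + len c m), (1 - q j)

/-- The event that the window is missed. -/
def AV (E : ℕ → Set Ω) (c : ℝ) (m : ℕ) : Set Ω :=
  ⋂ j ∈ Finset.Ioc m (m + len c m), (E j)ᶜ

omit [MeasurableSpace Ω] in
lemma mem_AV {E : ℕ → Set Ω} {c : ℝ} {m : ℕ} {ω : Ω} :
    ω ∈ AV E c m ↔ ∀ j, m < j → j ≤ m + len c m → ω ∉ E j := by
  simp only [AV, Set.mem_iInter, Finset.mem_Ioc, Set.mem_compl_iff]
  constructor
  · intro h j h1 h2
    exact h j ⟨h1, h2⟩
  · intro h j hj
    exact h j hj.1 hj.2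

lemma measurableSet_AV {E : ℕ → Set Ω} (hE : ∀ n, MeasurableSet (E n)) (c : ℝ) (m : ℕ) :
    MeasurableSet (AV E c m) :=
  Finset.measurableSet_biInter _ fun j _ => (hE j).compl

lemma prob_compl_inter {E : ℕ → Set Ω} (hE : ∀ n, MeasurableSet (E n)) (hind : iIndepSet E μ)
    {q : ℕ → ℝ} (hq : ∀ n, μ (E n) = ENNReal.ofReal (q n)) (hq0 : ∀ n, 0 ≤ q n)
    (hq1 : ∀ n, q n ≤ 1) (S : Finset ℕ) :
    μ.real (⋂ j ∈ S, (E j)ᶜ) = ∏ j ∈ S, (1 - q j) := by
  have := hind.isProbabilityMeasure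
  have h := (iIndepSet_iff E μ).1 hind S (f := fun j => (E j)ᶜ)
    (fun i _ => (MeasurableSpace.measurableSet_generateFrom (Set.mem_singleton _)).compl)
  rw [Measure.real, h, ENNReal.toReal_prod]
  apply Finset.prod_congr rfl
  intro j _
  rw [prob_compl_eq_one_sub (hE j), hq, ENNReal.toReal_sub_of_le _ ENNReal.one_ne_top]
  · rw [ENNReal.toReal_ofReal (hq0 j), ENNReal.toReal_one]
  · exact ENNReal.ofReal_le_one.2 (hq1 j)

lemma prob_AV {E : ℕ → Set Ω} (hE : ∀ n, MeasurableSet (E n)) (hind : iIndepSet E μ)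
    {q : ℕ → ℝ} (hq : ∀ n, μ (E n) = ENNReal.ofReal (q n)) (hq0 : ∀ n, 0 ≤ q n)
    (hq1 : ∀ n, q n ≤ 1) (c : ℝ) (m : ℕ) : μ.real (AV E c m) = avoidProb q c m :=
  prob_compl_inter hE hind hq hq0 hq1 _

lemma prob_AV_inter {E : ℕ → Set Ω} (hE : ∀ n, MeasurableSet (E n)) (hind : iIndepSet E μ)
    {q : ℕ → ℝ} (hq : ∀ n, μ (E n) = ENNReal.ofReal (q n)) (hq0 : ∀ n, 0 ≤ q n)
    (hq1 : ∀ n, q n ≤ 1) (c : ℝ) (m n : ℕ) (hmn : m + len c m ≤ n) :
    μ.real (AV E c m ∩ AV E c n) = avoidProb q c m * avoidProb q c n := by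
  have hdisj : Disjoint (Finset.Ioc m (m + len c m)) (Finset.Ioc n (n + len c n)) := by
    rw [Finset.disjoint_left]
    intro j h1 h2
    rw [Finset.mem_Ioc] at h1 h2
    omega
  have h : AV E c m ∩ AV E c n =
      ⋂ j ∈ (Finset.Ioc m (m + len c m)) ∪ (Finset.Ioc n (n + len c n)), (E j)ᶜ := by
    ext ω
    simp only [AV, Set.mem_inter_iff, Set.mem_iInter, Finset.mem_union]
    constructor
    · rintro ⟨h1, h2⟩ j (hj | hj)
      · exact h1 j hj
      · exact h2 j hj
    · intro h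
      exact ⟨fun j hj => h j (Or.inl hj), fun j hj => h j (Or.inr hj)⟩
  rw [h, prob_compl_inter hE hind hq hq0 hq1, Finset.prod_union hdisj]
  rfl

lemma avoidProb_nonneg {q : ℕ → ℝ} (hq1 : ∀ n, q n ≤ 1) (c : ℝ) (m : ℕ) : 0 ≤ avoidProb q c m :=
  Finset.prod_nonneg fun j _ => by linarith [hq1 j]

lemma avoidProb_le_one {q : ℕ → ℝ} (hq0 : ∀ n, 0 ≤ q n) (hq1 : ∀ n, q n ≤ 1) (c : ℝ) (m : ℕ) :
    avoidProb q c m ≤ 1 :=
  Finset.prod_le_one (fun j _ => by linarith [hq1 j]) fun j _ => by linarith [hq0 j]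

lemma avoidProb_anti {q : ℕ → ℝ} (hq0 : ∀ n, 0 ≤ q n) (hq1 : ∀ n, q n ≤ 1) {c d : ℝ}
    (hcd : c ≤ d) (m : ℕ) : avoidProb q d m ≤ avoidProb q c m := by
  unfold avoidProb
  have hsub : Finset.Ioc m (m + len c m) ⊆ Finset.Ioc m (m + len d m) :=
    Finset.Ioc_subset_Ioc le_rfl (by have := len_mono hcd m; omega)
  rw [← Finset.prod_sdiff hsub]
  apply mul_le_of_le_one_left
  · exact Finset.prod_nonneg fun j _ => by linarith [hq1 j]
  · exact Finset.prod_le_one (fun j _ => by linarith [hq1 j]) fun j _ => by linarith [hq0 j]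

/-- the weight -/
noncomputable def wt (m : ℕ) : ℝ := (Real.log (m : ℝ) ^ 2)⁻¹

lemma wt_nonneg (m : ℕ) : 0 ≤ wt m := inv_nonneg.2 (sq_nonneg _)

lemma wt_anti {m n : ℕ} (hm : 2 ≤ m) (hmn : m ≤ n) : wt n ≤ wt m := by
  unfold wt
  have h2 : (2 : ℝ) ≤ m := by exact_mod_cast hm
  have hl : 0 < Real.log (m : ℝ) := Real.log_pos (by linarith)
  apply inv_anti₀ (by positivity)
  apply pow_le_pow_left₀ hl.le
  exact Real.log_le_log (by linarith) (by exact_mod_cast hmn)

lemma len_zero_of_lt {c : ℝ} {m : ℕ} (hm : m < 2) : len c m = 0 := by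
  unfold len
  interval_cases m <;> simp

lemma len_mul_wt {c : ℝ} (hc : 0 ≤ c) (m : ℕ) : len c m * wt m ≤ c := by
  rcases lt_or_ge m 2 with hm | hm
  · rw [len_zero_of_lt hm]
    simpa using hc
  · have h2 : (2 : ℝ) ≤ m := by exact_mod_cast hm
    have hl : 0 < Real.log (m : ℝ) := Real.log_pos (by linarith)
    unfold wt
    rw [← div_eq_mul_inv, div_le_iff₀ (by positivity)]
    exact len_le hc m

/-- Lower bound: if the weighted sum of avoidance probabilities diverges then almost surely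
infinitely many windows are missed. -/
theorem ae_frequently_avoid {E : ℕ → Set Ω} (hE : ∀ n, MeasurableSet (E n))
    (hind : iIndepSet E μ)
    {q : ℕ → ℝ} (hq : ∀ n, μ (E n) = ENNReal.ofReal (q n)) (hq0 : ∀ n, 0 ≤ q n)
    (hq1 : ∀ n, q n ≤ 1) {c : ℝ} (hc : 0 ≤ c)
    (hsum : ¬ Summable fun m : ℕ => avoidProb q c m / Real.log (m : ℝ) ^ 2) :
    ∀ᵐ ω ∂μ, ∃ᶠ m in atTop, ∀ j, m < j → j ≤ m + len c m → ω ∉ E j := by
  have := hind.isProbabilityMeasure
  have h := frequently_of_second_moment (μ := μ) (W := wt) (A := AV E c) (ℓ := len c) (C := c)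
    (measurableSet_AV hE c) wt_nonneg
    (by
      intro m n _ hmn
      rw [prob_AV_inter hE hind hq hq0 hq1 c m n hmn, prob_AV hE hind hq hq0 hq1,
        prob_AV hE hind hq hq0 hq1])
    (by
      intro m n hmn hn
      rcases lt_or_ge m 2 with hm | hm
      · rw [len_zero_of_lt hm] at hn
        omega
      · exact wt_anti hm hmn)
    (len_mul_wt hc)
    (by
      have hnn : ∀ m : ℕ, 0 ≤ avoidProb q c m / Real.log (m : ℝ) ^ 2 := fun m =>
        div_nonneg (avoidProb_nonneg hq1 c m) (sq_nonneg _)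
      rw [not_summable_iff_tendsto_nat_atTop_of_nonneg hnn] at hsum
      refine hsum.congr fun N => ?_
      apply Finset.sum_congr rfl
      intro m _
      rw [prob_AV hE hind hq hq0 hq1, wt]
      ring)
  filter_upwards [h] with ω hω
  refine hω.mono fun m hm => ?_
  exact mem_AV.1 hm

/-- points `m'` slightly to the right of `m` have almost the same logarithm -/
lemma log_window {d ε : ℝ} (hd : 0 ≤ d) (hε : 0 < ε) :
    ∀ᶠ m : ℕ in atTop, ∀ n : ℕ, m ≤ n → n ≤ m + len d m →
      Real.log (n : ℝ) ^ 2 ≤ (1 + ε) * Real.log (m : ℝ) ^ 2 := by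
  have h1 : Tendsto (fun m : ℕ => (1 + d * (Real.log (m : ℝ) / m)) ^ 2) atTop
      (𝓝 ((1 + d * 0) ^ 2)) := by
    have h0 : Tendsto (fun x : ℝ => Real.log x / x) atTop (𝓝 0) := by
      have := Real.isLittleO_log_id_atTop.tendsto_div_nhds_zero
      simpa using this
    exact (((h0.comp tendsto_natCast_atTop_atTop).const_mul d).const_add 1).pow 2
  have h2 : (1 + d * 0) ^ 2 < 1 + ε := by simp [hε]
  filter_upwards [h1.eventually_lt_const h2, eventually_ge_atTop 2] with m hm hm2 n hmn hn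
  have hm2' : (2 : ℝ) ≤ m := by exact_mod_cast hm2
  have hl : 0 < Real.log (m : ℝ) := Real.log_pos (by linarith)
  have hmn' : (m : ℝ) ≤ n := by exact_mod_cast hmn
  have hn' : (n : ℝ) ≤ m + d * Real.log (m : ℝ) ^ 2 := by
    have : (n : ℝ) ≤ (m : ℝ) + len d m := by exact_mod_cast hn
    linarith [len_le hd m]
  have hlogn : Real.log (n : ℝ) ≤ Real.log m + d * Real.log (m : ℝ) ^ 2 / m := by
    have h3 : Real.log (n : ℝ) = Real.log m + Real.log (n / m) := by
      rw [Real.log_div (by linarith) (by linarith)]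
      ring
    rw [h3]
    have h4 : Real.log ((n : ℝ) / m) ≤ n / m - 1 := Real.log_le_sub_one_of_pos (by
      apply div_pos <;> linarith)
    have h5 : (n : ℝ) / m - 1 ≤ d * Real.log (m : ℝ) ^ 2 / m := by
      rw [div_sub_one (by linarith)]
      apply div_le_div_of_nonneg_right _ (by linarith)
      linarith
    linarith
  have hlogn0 : 0 ≤ Real.log (n : ℝ) := Real.log_nonneg (by linarith)
  calc Real.log (n : ℝ) ^ 2 ≤ (Real.log m + d * Real.log (m : ℝ) ^ 2 / m) ^ 2 :=
        pow_le_pow_left₀ hlogn0 hlogn 2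
    _ = (1 + d * (Real.log (m : ℝ) / m)) ^ 2 * Real.log (m : ℝ) ^ 2 := by
        field_simp
    _ ≤ (1 + ε) * Real.log (m : ℝ) ^ 2 :=
        mul_le_mul_of_nonneg_right hm.le (sq_nonneg _)

/-- Upper bound: if the weighted sum of avoidance probabilities for `c` converges then almost
surely all far windows of the longer type `d > c` are hit. -/
theorem ae_eventually_hit {E : ℕ → Set Ω} (hE : ∀ n, MeasurableSet (E n))
    (hind : iIndepSet E μ)
    {q : ℕ → ℝ} (hq : ∀ n, μ (E n) = ENNReal.ofReal (q n)) (hq0 : ∀ n, 0 ≤ q n)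
    (hq1 : ∀ n, q n ≤ 1) {c d : ℝ} (hc : 0 ≤ c) (hcd : c < d)
    (hsum : Summable fun m : ℕ => avoidProb q c m / Real.log (m : ℝ) ^ 2) :
    ∀ᵐ ω ∂μ, ∀ᶠ m : ℕ in atTop, ∃ j ∈ {n | ω ∈ E n}, m < j ∧ j ≤ m + len d m := by
  have := hind.isProbabilityMeasure
  -- almost surely the weighted number of missed windows of type `c` is finite
  have hfin : ∀ᵐ ω ∂μ, (∑' m : ℕ, (AV E c m).indicator (fun _ => ENNReal.ofReal (wt m)) ω) < ∞ := by
    apply ae_lt_top
    · exact Measurable.tsum fun m => measurable_const.indicator (measurableSet_AV hE c m)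
    · rw [lintegral_tsum fun m =>
        (measurable_const.indicator (measurableSet_AV hE c m)).aemeasurable]
      have : ∀ m : ℕ, ∫⁻ ω, (AV E c m).indicator (fun _ => ENNReal.ofReal (wt m)) ω ∂μ =
          ENNReal.ofReal (avoidProb q c m / Real.log (m : ℝ) ^ 2) := by
        intro m
        rw [lintegral_indicator_const (measurableSet_AV hE c m)]
        have h1 : μ (AV E c m) = ENNReal.ofReal (avoidProb q c m) := by
          rw [← prob_AV hE hind hq hq0 hq1, Measure.real, ENNReal.ofReal_toReal]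
          exact measure_ne_top _ _
        rw [h1, ← ENNReal.ofReal_mul (wt_nonneg m), wt, mul_comm, div_eq_mul_inv]
      simp_rw [this]
      exact hsum.tsum_ofReal_ne_top
  filter_upwards [hfin] with ω hω
  -- real summability
  set f : ℕ → ℝ := fun m => (AV E c m).indicator (fun _ => wt m) ω with hf
  have hf0 : ∀ m, 0 ≤ f m := fun m => Set.indicator_nonneg (fun _ _ => wt_nonneg m) ω
  have hfs : Summable f := by
    have h1 : ∑' m : ℕ, ENNReal.ofReal (f m) ≠ ∞ := by
      refine ne_of_lt (lt_of_le_of_lt (le_of_eq ?_) hω)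
      apply tsum_congr
      intro m
      simp only [hf]
      by_cases h : ω ∈ AV E c m
      · rw [Set.indicator_of_mem h, Set.indicator_of_mem h]
      · rw [Set.indicator_of_notMem h, Set.indicator_of_notMem h, ENNReal.ofReal_zero]
    have := ENNReal.summable_toReal h1
    refine this.congr fun m => ?_
    rw [ENNReal.toReal_ofReal (hf0 m)]
  -- vanishing tails
  set e : ℝ := (d - c) / 4 with he
  have he0 : 0 < e := by rw [he]; linarith
  obtain ⟨N, hN⟩ : ∃ N : ℕ, ∀ t : Finset ℕ, Disjoint t (Finset.range N) → ∑ m ∈ t, f m < e / 8 := by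
    obtain ⟨s, hs⟩ := summable_iff_vanishing_norm.1 hfs (e / 8) (by positivity)
    obtain ⟨N, hN⟩ := s.exists_nat_subset_range
    refine ⟨N, fun t ht => ?_⟩
    have := hs t (Finset.disjoint_of_subset_right hN ht)
    exact lt_of_le_of_lt (le_abs_self _) this
  have hlogT : Tendsto (fun m : ℕ => Real.log (m : ℝ) ^ 2) atTop atTop :=
    (tendsto_pow_atTop two_ne_zero).comp (Real.tendsto_log_atTop.comp tendsto_natCast_atTop_atTop)
  have hε : 0 < e / (c + 1) := by positivity
  filter_upwards [log_window he0.le hε, log_window he0.le one_pos, eventually_ge_atTop N,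
    eventually_ge_atTop 2, hlogT.eventually_ge_atTop (2 / e)]
    with m hm1 hm1' hmN hm2 hmlog
  by_contra hcon
  -- the long window is missed
  have hmiss : ∀ j, m < j → j ≤ m + len d m → ω ∉ E j := by
    intro j h1 h2 h3
    exact hcon ⟨j, h3, h1, h2⟩
  have hm2' : (2 : ℝ) ≤ m := by exact_mod_cast hm2
  have hl : 0 < Real.log (m : ℝ) := Real.log_pos (by linarith)
  have hl2 : 0 < Real.log (m : ℝ) ^ 2 := by positivity
  have helog : 2 ≤ e * Real.log (m : ℝ) ^ 2 := by
    rw [div_le_iff₀ he0] at hmlog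
    linarith
  have hlow : ∀ n ∈ Finset.Ico m (m + len e m), (Real.log (m : ℝ) ^ 2)⁻¹ / 2 ≤ f n := by
    intro n hn
    rw [Finset.mem_Ico] at hn
    have hn1 := hm1 n hn.1 (by omega)
    have hn1' := hm1' n hn.1 (by omega)
    have hmem : ω ∈ AV E c n := by
      rw [mem_AV]
      intro j h1 h2
      apply hmiss j (by omega)
      have hlenn : (len c n : ℝ) ≤ c * Real.log (n : ℝ) ^ 2 := len_le hc n
      have h3 : c * Real.log (n : ℝ) ^ 2 ≤ c * ((1 + e / (c + 1)) * Real.log (m : ℝ) ^ 2) :=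
        mul_le_mul_of_nonneg_left hn1 hc
      have h4 : c * (e / (c + 1)) ≤ e := by
        rw [mul_div_assoc', div_le_iff₀ (by positivity)]
        nlinarith
      have h5 : (n : ℝ) ≤ m + e * Real.log (m : ℝ) ^ 2 := by
        have : (n : ℝ) ≤ (m : ℝ) + len e m := by exact_mod_cast hn.2.le
        linarith [len_le he0.le m]
      have h6 : (j : ℝ) ≤ n + len c n := by exact_mod_cast h2
      have h7 : (j : ℝ) ≤ m + d * Real.log (m : ℝ) ^ 2 := by
        have h8 : c * ((1 + e / (c + 1)) * Real.log (m : ℝ) ^ 2) ≤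
            (c + e) * Real.log (m : ℝ) ^ 2 := by
          have : c * ((1 + e / (c + 1)) * Real.log (m : ℝ) ^ 2) =
            (c + c * (e / (c + 1))) * Real.log (m : ℝ) ^ 2 := by ring
          rw [this]
          apply mul_le_mul_of_nonneg_right _ hl2.le
          linarith
        have h9 : d = c + 4 * e := by rw [he]; ring
        rw [h9]
        nlinarith
      have h8 : (j : ℝ) < (m : ℝ) + len d m + 1 := by
        have := lt_len d m
        linarith
      have h9 : j < m + len d m + 1 := by exact_mod_cast h8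
      omega
    simp only [hf, Set.indicator_of_mem hmem]
    unfold wt
    have hln : 0 < Real.log (n : ℝ) ^ 2 := by
      have : (2 : ℝ) ≤ n := by
        have : (m : ℝ) ≤ n := by exact_mod_cast hn.1
        linarith
      have := Real.log_pos (show (1 : ℝ) < n by linarith)
      positivity
    have h2 : (2 * Real.log (m : ℝ) ^ 2)⁻¹ ≤ (Real.log (n : ℝ) ^ 2)⁻¹ :=
      inv_anti₀ hln (by linarith)
    calc (Real.log (m : ℝ) ^ 2)⁻¹ / 2 = (2 * Real.log (m : ℝ) ^ 2)⁻¹ := by
          field_simp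
      _ ≤ _ := h2
  have hsumlow : (len e m : ℝ) * ((Real.log (m : ℝ) ^ 2)⁻¹ / 2) ≤
      ∑ n ∈ Finset.Ico m (m + len e m), f n := by
    have := Finset.card_nsmul_le_sum _ _ _ hlow
    rw [Nat.card_Ico, nsmul_eq_mul] at this
    have h1 : m + len e m - m = len e m := by omega
    rwa [h1] at this
  have hsumup := hN (Finset.Ico m (m + len e m)) (by
    rw [Finset.disjoint_left]
    intro n h1 h2
    rw [Finset.mem_Ico] at h1
    rw [Finset.mem_range] at h2
    omega)
  have hlen : e * Real.log (m : ℝ) ^ 2 / 2 ≤ len e m := by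
    have := lt_len e m
    linarith
  have : e / 4 ≤ (len e m : ℝ) * ((Real.log (m : ℝ) ^ 2)⁻¹ / 2) := by
    calc e / 4 = (e * Real.log (m : ℝ) ^ 2 / 2) * ((Real.log (m : ℝ) ^ 2)⁻¹ / 2) := by
          field_simp
          ring
      _ ≤ _ := mul_le_mul_of_nonneg_right hlen (by positivity)
  linarith

/-- infinitude from divergence -/
theorem ae_infinite {E : ℕ → Set Ω} (hE : ∀ n, MeasurableSet (E n)) (hind : iIndepSet E μ)
    {q : ℕ → ℝ} (hq : ∀ n, μ (E n) = ENNReal.ofReal (q n)) (hq0 : ∀ n, 0 ≤ q n)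
    (hqsum : ¬ Summable q) : ∀ᵐ ω ∂μ, {n | ω ∈ E n}.Infinite := by
  have := hind.isProbabilityMeasure
  have h1 : ∑' n, μ (E n) = ∞ := by
    by_contra hne
    apply hqsum
    simp_rw [hq] at hne
    have := ENNReal.summable_toReal hne
    refine this.congr fun n => ?_
    rw [ENNReal.toReal_ofReal (hq0 n)]
  have h2 := measure_limsup_eq_one hE hind h1
  have h3 : ∀ᵐ ω ∂μ, ω ∈ limsup E atTop := by
    rw [← mem_ae_iff_prob_eq_one] at h2
    · exact h2
    · exact MeasurableSet.measurableSet_limsup hE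
  filter_upwards [h3] with ω hω
  rw [mem_limsup_iff_frequently_mem] at hω
  exact Nat.frequently_atTop_iff_infinite.1 hω

/-- The critical value: infimum of the `c` for which the weighted avoidance sum converges. -/
noncomputable def crit (q : ℕ → ℝ) : ℝ≥0∞ :=
  ⨅ (c : ℝ≥0) (_ : Summable fun m : ℕ => avoidProb q c m / Real.log (m : ℝ) ^ 2), (c : ℝ≥0∞)

lemma summable_mono {q : ℕ → ℝ} (hq0 : ∀ n, 0 ≤ q n) (hq1 : ∀ n, q n ≤ 1) {c d : ℝ}
    (hcd : c ≤ d) (h : Summable fun m : ℕ => avoidProb q c m / Real.log (m : ℝ) ^ 2) :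
    Summable fun m : ℕ => avoidProb q d m / Real.log (m : ℝ) ^ 2 :=
  h.of_nonneg_of_le (fun m => div_nonneg (avoidProb_nonneg hq1 d m) (sq_nonneg _))
    fun m => div_le_div_of_nonneg_right (avoidProb_anti hq0 hq1 hcd m) (sq_nonneg _)

/-- **Exact formula.** -/
theorem cramer_eq_crit {E : ℕ → Set Ω} (hE : ∀ n, MeasurableSet (E n)) (hind : iIndepSet E μ)
    {q : ℕ → ℝ} (hq : ∀ n, μ (E n) = ENNReal.ofReal (q n)) (hq0 : ∀ n, 0 ≤ q n)
    (hq1 : ∀ n, q n ≤ 1) (hqsum : ¬ Summable q) :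
    ∀ᵐ ω ∂μ, {n | ω ∈ E n}.Infinite ∧ cramer {n | ω ∈ E n} = crit q := by
  have hinf := ae_infinite hE hind hq hq0 hqsum
  -- countably many events
  have hup : ∀ᵐ ω ∂μ, ∀ c d : ℚ, 0 ≤ c → c < d →
      (Summable fun m : ℕ => avoidProb q (c : ℝ) m / Real.log (m : ℝ) ^ 2) →
      ∀ᶠ m : ℕ in atTop, ∃ j ∈ {n | ω ∈ E n}, m < j ∧ j ≤ m + len d m := by
    rw [ae_all_iff]; intro c
    rw [ae_all_iff]; intro d
    by_cases h1 : 0 ≤ c
    · by_cases h2 : c < d
      · by_cases h3 : Summable fun m : ℕ => avoidProb q (c : ℝ) m / Real.log (m : ℝ) ^ 2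
        · filter_upwards [ae_eventually_hit hE hind hq hq0 hq1 (c := c) (d := d)
            (by exact_mod_cast h1) (by exact_mod_cast h2) h3] with ω hω _ _ _
          exact hω
        · exact Eventually.of_forall fun ω _ _ h => absurd h h3
      · exact Eventually.of_forall fun ω _ h => absurd h h2
    · exact Eventually.of_forall fun ω h => absurd h h1
  have hlo : ∀ᵐ ω ∂μ, ∀ c : ℚ, 0 ≤ c →
      (¬ Summable fun m : ℕ => avoidProb q (c : ℝ) m / Real.log (m : ℝ) ^ 2) →
      ∃ᶠ m in atTop, ∀ j, m < j → j ≤ m + len c m → ω ∉ E j := by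
    rw [ae_all_iff]; intro c
    by_cases h1 : 0 ≤ c
    · by_cases h3 : Summable fun m : ℕ => avoidProb q (c : ℝ) m / Real.log (m : ℝ) ^ 2
      · exact Eventually.of_forall fun ω _ h => absurd h3 h
      · filter_upwards [ae_frequently_avoid hE hind hq hq0 hq1 (c := c)
          (by exact_mod_cast h1) h3] with ω hω _ _
        exact hω
    · exact Eventually.of_forall fun ω h => absurd h h1
  filter_upwards [hinf, hup, hlo] with ω hω1 hω2 hω3
  refine ⟨hω1, le_antisymm ?_ ?_⟩
  · -- upper bound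
    unfold crit
    refine le_iInf fun c => le_iInf fun hc => ?_
    apply le_of_forall_gt
    intro x hx
    obtain ⟨y, hcy, hyx⟩ := exists_between hx
    have hytop : y ≠ ∞ := ne_top_of_lt hyx
    have hcy' : (c : ℝ) < y.toReal := by
      have := (ENNReal.toReal_lt_toReal ENNReal.coe_ne_top hytop).2 hcy
      simpa using this
    obtain ⟨r, hr1, hr2⟩ := exists_rat_btwn hcy'
    obtain ⟨s, hs1, hs2⟩ := exists_rat_btwn hr2
    have hr0 : (0 : ℝ) ≤ r := c.2.trans hr1.le
    have h1 := hω2 r s (by exact_mod_cast hr0) (by exact_mod_cast hs1)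
      (summable_mono hq0 hq1 hr1.le hc)
    have h2 := cramer_le hω1 (hr0.trans hs1.le) h1
    refine lt_of_le_of_lt h2 (lt_of_le_of_lt ?_ hyx)
    rw [← ENNReal.ofReal_toReal hytop]
    exact ENNReal.ofReal_le_ofReal hs2.le
  · -- lower bound
    apply le_of_forall_lt
    intro x hx
    obtain ⟨y, hxy, hy⟩ := exists_between hx
    have hytop : y ≠ ∞ := ne_top_of_lt hy
    have hxtop : x ≠ ∞ := ne_top_of_lt hxy
    have hxy' : x.toReal < y.toReal := (ENNReal.toReal_lt_toReal hxtop hytop).2 hxy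
    obtain ⟨r, hr1, hr2⟩ := exists_rat_btwn hxy'
    have hr0 : (0 : ℝ) ≤ r := ENNReal.toReal_nonneg.trans hr1.le
    have hns : ¬ Summable fun m : ℕ => avoidProb q (r : ℝ) m / Real.log (m : ℝ) ^ 2 := by
      intro hs
      have : crit q ≤ ENNReal.ofReal r := by
        unfold crit
        refine iInf_le_of_le (Real.toNNReal r) (iInf_le_of_le ?_ ?_)
        · rw [Real.coe_toNNReal _ hr0]
          exact hs
        · exact le_rfl
      have h2 : ENNReal.ofReal r < y := by
        rw [← ENNReal.ofReal_toReal hytop]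
        exact (ENNReal.ofReal_lt_ofReal_iff (hr0.trans_lt hr2)).2 hr2
      exact absurd (lt_of_le_of_lt this h2) (not_lt.2 hy.le)
    have h1 := hω3 r (by exact_mod_cast hr0) hns
    have h2 := le_cramer (B := {n | ω ∈ E n}) hω1 hr0 h1
    refine lt_of_lt_of_le ?_ h2
    rw [← ENNReal.ofReal_toReal hxtop]
    exact (ENNReal.ofReal_lt_ofReal_iff (ENNReal.toReal_nonneg.trans_lt hr1)).2 hr1

end Pool.Agent.LibCramer
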