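import Pool.Agent.LibCramer.Runs

/-!
Windows with few elements: definitions and deterministic facts.
-/

namespace Pool.Agent.LibCramer

open Filter Topology
open scoped ENNReal

/-- The `m ≥ 1` for which the window `(m, m + l log² m]` contains at most `c log m` elements
of `B`. -/
def fewWin (B : Set ℕ) (c l : ℝ) : Set ℕ :=
  {m : ℕ | 1 ≤ m ∧
    ((B ∩ Set.Ioc m (m + ⌊l * Real.log (m : ℝ) ^ 2⌋₊)).ncard : ℝ) ≤ c * Real.log (m : ℝ)}

/-- The number of these `m` up to `X`. -/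
noncomputable def fewCount (B : Set ℕ) (c l : ℝ) (X : ℕ) : ℕ := (fewWin B c l ∩ Set.Iic X).ncard

lemma mem_fewWin {B : Set ℕ} {c l : ℝ} {m : ℕ} :
    m ∈ fewWin B c l ↔ 1 ≤ m ∧ (cnt B m (len l m) : ℝ) ≤ c * Real.log (m : ℝ) := Iff.rfl

lemma finite_fewWin_inter (B : Set ℕ) (c l : ℝ) (X : ℕ) : (fewWin B c l ∩ Set.Iic X).Finite :=
  (Set.finite_Iic X).subset Set.inter_subset_right

lemma fewWin_mono (B : Set ℕ) {c c' l l' : ℝ} (hc : c ≤ c') (hl : l' ≤ l) :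
    fewWin B c l ⊆ fewWin B c' l' := by
  intro m hm
  rw [mem_fewWin] at hm ⊢
  refine ⟨hm.1, ?_⟩
  have h1 : (cnt B m (len l' m) : ℝ) ≤ cnt B m (len l m) := by
    exact_mod_cast cnt_mono B m (len_mono hl m)
  have h2 : c * Real.log (m : ℝ) ≤ c' * Real.log (m : ℝ) :=
    mul_le_mul_of_nonneg_right hc (Real.log_natCast_nonneg m)
  linarith [hm.2]

lemma fewCount_mono (B : Set ℕ) {c c' l l' : ℝ} (hc : c ≤ c') (hl : l' ≤ l) {X Y : ℕ}
    (h : X ≤ Y) : fewCount B c l X ≤ fewCount B c' l' Y := by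
  unfold fewCount
  apply Set.ncard_le_ncard _ (finite_fewWin_inter _ _ _ _)
  intro m hm
  exact ⟨fewWin_mono B hc hl hm.1, le_trans hm.2 h⟩

lemma fewCount_le (B : Set ℕ) (c l : ℝ) (X : ℕ) : fewCount B c l X ≤ X := by
  unfold fewCount
  have h : fewWin B c l ∩ Set.Iic X ⊆ (Finset.Icc 1 X : Set ℕ) := by
    intro m hm
    rw [Finset.coe_Icc]
    exact ⟨hm.1.1, hm.2⟩
  have h2 := Set.ncard_le_ncard h (Finset.finite_toSet _)
  rw [Set.ncard_coe_finset, Nat.card_Icc] at h2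
  omega

/-- few elements, through the floor -/
lemma mem_fewWin_iff {B : Set ℕ} {c l : ℝ} (hc : 0 ≤ c) {m : ℕ} :
    m ∈ fewWin B c l ↔ 1 ≤ m ∧ cnt B m (len l m) ≤ ⌊c * Real.log (m : ℝ)⌋₊ := by
  rw [mem_fewWin, Nat.le_floor_iff (mul_nonneg hc (Real.log_natCast_nonneg m))]

end Pool.Agent.LibCramer
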