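import Pool.Agent.LibMaier.RunPrimes
import Pool.Agent.LibCramer.ExpoDefs

/-!
Windows with few primes: a lower bound for their number from Maier's matrix method.
-/

namespace Pool.Agent.LibMaier

open Filter Topology MeasureTheory
open Pool.Agent.LibCramer
open scoped ENNReal NNReal

/-- Many rows of the matrix have few primes. -/
lemma card_good_rows {ε A k1R : ℝ} (hε0 : 0 < ε) (hε1 : ε < 1) (hA : 0 < A) (hk1 : 0 < k1R)
    (S : Finset ℕ) (w r : ℕ → ℝ) (hw0 : ∀ k ∈ S, 0 ≤ w k) (hw1 : ∀ k ∈ S, w k ≤ 1 / k1R)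
    (hr0 : ∀ k ∈ S, 0 ≤ r k) (hW : 1 - ε ≤ ∑ k ∈ S, w k) (havg : ∑ k ∈ S, w k * r k ≤ A) :
    ε * (1 - ε) * k1R ≤ ((S.filter fun k => r k ≤ A / (1 - ε) ^ 2).card : ℝ) := by
  classical
  obtain ⟨T, hT⟩ : ∃ T, T = A / (1 - ε) ^ 2 := ⟨_, rfl⟩
  have h1ε : 0 < 1 - ε := by linarith
  have hT0 : 0 < T := by rw [hT]; positivity
  rw [← hT]
  -- the bad rows
  have hbad : (∑ k ∈ S.filter fun k => ¬ r k ≤ T, w k) * T ≤ A := by
    rw [Finset.sum_mul]
    refine le_trans (Finset.sum_le_sum (g := fun k => w k * r k) ?_) (le_trans ?_ havg)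
    · intro k hk
      rw [Finset.mem_filter, not_le] at hk
      exact mul_le_mul_of_nonneg_left hk.2.le (hw0 k hk.1)
    · apply Finset.sum_le_sum_of_subset_of_nonneg (Finset.filter_subset _ _)
      intro k hk _
      exact mul_nonneg (hw0 k hk) (hr0 k hk)
  have hbad2 : ∑ k ∈ S.filter fun k => ¬ r k ≤ T, w k ≤ (1 - ε) ^ 2 := by
    have h2 : (∑ k ∈ S.filter fun k => ¬ r k ≤ T, w k) ≤ A / T := by
      rw [le_div_iff₀ hT0]; exact hbad
    refine h2.trans (le_of_eq ?_)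
    rw [hT]
    field_simp
  have hsplit := Finset.sum_filter_add_sum_filter_not S (fun k => r k ≤ T) w
  have hgood : ∑ k ∈ S.filter (fun k => r k ≤ T), w k ≤
      ((S.filter fun k => r k ≤ T).card : ℝ) * (1 / k1R) := by
    rw [← nsmul_eq_mul]
    apply Finset.sum_le_card_nsmul
    intro k hk
    exact hw1 k (Finset.mem_filter.1 hk).1
  have h3 : ε * (1 - ε) ≤ ((S.filter fun k => r k ≤ T).card : ℝ) * (1 / k1R) := by
    refine le_trans ?_ hgood
    nlinarith
  rwa [mul_one_div, le_div_iff₀ hk1] at h3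

/-- **Windows with few primes.** For `l e^γ / 2 < c` there are arbitrarily large `X` such that
for at least `X^(1-δ)` of the `m ≤ X` the window `(m, m + l log² m]` contains at most `c log m`
primes. -/
theorem frequently_fewCount {c d δ : ℝ} (hd : 0 < d) (hcd : d * (eg / 2) < c) (hδ : 0 < δ) :
    ∃ᶠ X : ℕ in atTop, (X : ℝ) ^ (1 - δ) ≤ fewCount {p : ℕ | p.Prime} c d X := by
  have heg : 0 < eg := eg_pos
  have hc : 0 < c := lt_trans (by positivity) hcd
  obtain ⟨ε, hε0, hε14, hεδ, hε⟩ : ∃ ε : ℝ, 0 < ε ∧ ε < 1 / 4 ∧ 4 * ε < δ ∧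
      (1 + ε) ^ 4 / (1 - ε) ^ 4 * (eg / 2) * (d * (1 + ε) ^ 2) < c := by
    have hcont : ContinuousAt (fun ε : ℝ => (1 + ε) ^ 4 / (1 - ε) ^ 4 * (eg / 2) *
        (d * (1 + ε) ^ 2)) 0 := by
      have h0 : ContinuousAt (fun ε : ℝ => (1 + ε) ^ 4 / (1 - ε) ^ 4) 0 := by
        apply ContinuousAt.div
        · fun_prop
        · fun_prop
        · norm_num
      fun_prop
    have h1 : ∀ᶠ ε in 𝓝 (0 : ℝ), (1 + ε) ^ 4 / (1 - ε) ^ 4 * (eg / 2) *
        (d * (1 + ε) ^ 2) < c := by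
      apply hcont.eventually_lt_const
      refine lt_of_le_of_lt (le_of_eq ?_) hcd
      simp
      ring
    have h2 := h1.filter_mono (nhdsWithin_le_nhds (s := Set.Ioi 0))
    have h3 : ∀ᶠ ε in 𝓝[>] (0 : ℝ), ε < min (1 / 4) (δ / 4) :=
      (eventually_lt_nhds (by positivity)).filter_mono nhdsWithin_le_nhds
    obtain ⟨ε, h4, h5, h6⟩ := (h2.and (h3.and self_mem_nhdsWithin)).exists
    refine ⟨ε, h6, h5.trans_le (min_le_left _ _), ?_, h4⟩
    have := h5.trans_le (min_le_right _ _)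
    linarith
  obtain ⟨v0, hv00, hv0⟩ : ∃ v0 : ℝ, 0 ≤ v0 ∧ 1 - ε ≤ ∫ v in (-v0)..v0, gw v := by
    have h1 := intervalIntegral_tendsto_integral (μ := volume) (f := gw) (l := atTop)
      (a := fun v : ℝ => -v) (b := fun v : ℝ => v) integrable_gw tendsto_neg_atTop_atBot tendsto_id
    rw [integral_gw] at h1
    obtain ⟨v0, h2, h3⟩ := ((h1.eventually_const_lt (show 1 - ε < 1 by linarith)).and
      (eventually_ge_atTop 0)).exists
    exact ⟨v0, h3, h2.le⟩
  rw [frequently_atTop]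
  intro M
  obtain ⟨c₂, hc₂⟩ : ∃ c₂, c₂ = d * (1 + ε) ^ 2 := ⟨_, rfl⟩
  have hc₂0 : 0 < c₂ := by rw [hc₂]; positivity
  have h1ε : 0 < 1 - ε := by linarith
  obtain ⟨q, k1, k2, x, hxX, hkN, hk12, hq1, hk1, hkbig, hVx, hl1, hl2, hl3, hl4, havg⟩ :=
    matrix_avg hε0 hε14 hc₂0 hv00 M (max 1 (Real.log (1 / (ε * (1 - ε))) / ε))
  have hx1 : 1 ≤ x := (le_max_left _ _).trans hxX
  have hx0 : 0 < x := by linarith
  have hxlog : Real.log (1 / (ε * (1 - ε))) ≤ ε * x := by
    have := (le_max_right _ _).trans hxX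
    rw [div_le_iff₀ hε0] at this
    linarith
  have hWlow : 1 - ε ≤ ∑ k ∈ Finset.Ico k1 k2, Wt q x k :=
    hv0.trans (le_sum_Wt hk12 hv00 (by linarith) (by linarith))
  have hqR : (1 : ℝ) ≤ q := by exact_mod_cast hq1
  have hk1R : (1 : ℝ) ≤ k1 := by exact_mod_cast hk1
  have hA0 : 0 < (1 + ε) ^ 4 / (1 - ε) * (eg / 2) * c₂ * x := by positivity
  have hgood := card_good_rows (k1R := (k1 : ℝ)) hε0 (by linarith) hA0 (by linarith)
    (Finset.Ico k1 k2) (Wt q x) (fun k => (rowc q k ⌊c₂ * x ^ 2⌋₊ : ℝ))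
    (fun k hk => Wt_nonneg hq1 (by rw [Finset.mem_Ico] at hk; omega) x)
    (fun k hk => by
      rw [Finset.mem_Ico] at hk
      refine (Wt_le_inv hq1 (by omega) x).trans ?_
      apply one_div_le_one_div_of_le (by linarith)
      exact_mod_cast hk.1)
    (fun k _ => Nat.cast_nonneg _) hWlow havg
  refine ⟨k2 * q, ?_, ?_⟩
  · calc M ≤ k1 := hkN
      _ ≤ k2 := hk12
      _ ≤ k2 * q := Nat.le_mul_of_pos_right _ hq1
  -- the good rows are windows with few primes
  have hinj : ((Finset.Ico k1 k2).filter fun k => (rowc q k ⌊c₂ * x ^ 2⌋₊ : ℝ) ≤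
      (1 + ε) ^ 4 / (1 - ε) * (eg / 2) * c₂ * x / (1 - ε) ^ 2).card ≤
      fewCount {p : ℕ | p.Prime} c d (k2 * q) := by
    unfold fewCount
    rw [← Set.ncard_coe_finset]
    apply Set.ncard_le_ncard_of_injOn (fun k => k * q) _ _ (finite_fewWin_inter _ _ _ _)
    · intro k hk
      rw [Finset.mem_coe, Finset.mem_filter, Finset.mem_Ico] at hk
      obtain ⟨⟨hk1', hk2'⟩, hrow⟩ := hk
      have hkR : (k1 : ℝ) ≤ k := by exact_mod_cast hk1'
      have hkR2 : (k : ℝ) ≤ k2 := by exact_mod_cast hk2'.le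
      have hlog0 : (1 - ε) * x ≤ Real.log ((k * q : ℕ) : ℝ) := by
        push_cast
        refine le_trans (by linarith) (hl1.trans (Real.log_le_log (by positivity) (by gcongr)))
      have hlogV : Real.log ((k * q : ℕ) : ℝ) ≤ (1 + ε) * x := by
        have hkq : (0 : ℝ) < (k : ℝ) * q := by
          apply mul_pos <;> linarith
        push_cast
        refine le_trans (Real.log_le_log hkq (by gcongr)) (hl4.trans (by linarith))
      have hlogpos : 0 ≤ Real.log ((k * q : ℕ) : ℝ) :=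
        le_trans (mul_nonneg (by linarith) hx0.le) hlog0
      have hlen : len d (k * q) ≤ ⌊c₂ * x ^ 2⌋₊ := by
        unfold len
        apply Nat.floor_mono
        calc d * Real.log ((k * q : ℕ) : ℝ) ^ 2 ≤ d * ((1 + ε) * x) ^ 2 := by gcongr
          _ = c₂ * x ^ 2 := by rw [hc₂]; ring
      refine ⟨mem_fewWin.2 ⟨?_, ?_⟩, ?_⟩
      · exact Nat.mul_pos (by omega) (by omega)
      · have h1 : (cnt {p : ℕ | p.Prime} (k * q) (len d (k * q)) : ℝ) ≤
            (rowc q k ⌊c₂ * x ^ 2⌋₊ : ℝ) := by exact_mod_cast cnt_primes_le q k _ _ hlen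
        refine h1.trans (hrow.trans ?_)
        calc (1 + ε) ^ 4 / (1 - ε) * (eg / 2) * c₂ * x / (1 - ε) ^ 2
            = ((1 + ε) ^ 4 / (1 - ε) ^ 4 * (eg / 2) * c₂) * ((1 - ε) * x) := by
              field_simp
          _ ≤ c * Real.log ((k * q : ℕ) : ℝ) := by
              rw [← hc₂] at hε
              apply mul_le_mul hε.le hlog0 (by positivity) hc.le
      · rw [Set.mem_Iic]
        exact Nat.mul_le_mul_right q hk2'.le
    · intro a _ b _ hab
      exact Nat.eq_of_mul_eq_mul_right (by omega) hab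
  have hinjR : (((Finset.Ico k1 k2).filter fun k => (rowc q k ⌊c₂ * x ^ 2⌋₊ : ℝ) ≤
      (1 + ε) ^ 4 / (1 - ε) * (eg / 2) * c₂ * x / (1 - ε) ^ 2).card : ℝ) ≤
      fewCount {p : ℕ | p.Prime} c d (k2 * q) := by exact_mod_cast hinj
  refine le_trans ?_ (hgood.trans hinjR)
  -- size
  have hk2q : (0 : ℝ) < (k2 : ℝ) * q := by
    have : (k1 : ℝ) ≤ k2 := by exact_mod_cast hk12
    apply mul_pos <;> linarith
  have hXlog : Real.log ((k2 : ℝ) * q) ≤ (1 + ε) * x := by linarith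
  push_cast
  rcases le_or_gt δ 1 with hδ1 | hδ1
  · have h1 : ((k2 : ℝ) * q) ^ (1 - δ) ≤ Real.exp ((1 - δ) * ((1 + ε) * x)) := by
      rw [Real.rpow_def_of_pos hk2q]
      apply Real.exp_le_exp.2
      rw [mul_comm]
      exact mul_le_mul_of_nonneg_left hXlog (by linarith)
    have h2 : Real.exp (-(ε * x)) ≤ ε * (1 - ε) := by
      have h3 : 0 < ε * (1 - ε) := by positivity
      rw [one_div, Real.log_inv] at hxlog
      rw [← Real.le_log_iff_exp_le h3]
      linarith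
    refine h1.trans ?_
    calc Real.exp ((1 - δ) * ((1 + ε) * x)) ≤ Real.exp (-(ε * x)) * Real.exp ((1 - 2 * ε) * x) := by
          rw [← Real.exp_add]
          apply Real.exp_le_exp.2
          have h3 : (1 - δ) * (1 + ε) ≤ 1 - 3 * ε := by nlinarith
          nlinarith
      _ ≤ ε * (1 - ε) * k1 := by
          apply mul_le_mul h2 hkbig (Real.exp_pos _).le (by positivity)
  · have hX1 : (1 : ℝ) ≤ (k2 : ℝ) * q := by
      have : (k1 : ℝ) ≤ k2 := by exact_mod_cast hk12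
      nlinarith
    have h1 : ((k2 : ℝ) * q) ^ (1 - δ) ≤ 1 := Real.rpow_le_one_of_one_le_of_nonpos hX1 (by linarith)
    have h2 : Real.exp (-(ε * x)) ≤ ε * (1 - ε) := by
      have h3 : 0 < ε * (1 - ε) := by positivity
      rw [one_div, Real.log_inv] at hxlog
      rw [← Real.le_log_iff_exp_le h3]
      linarith
    refine h1.trans ?_
    calc (1 : ℝ) ≤ Real.exp (-(ε * x)) * Real.exp ((1 - 2 * ε) * x) := by
          rw [← Real.exp_add]
          apply Real.one_le_exp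
          nlinarith
      _ ≤ ε * (1 - ε) * k1 := by
          apply mul_le_mul h2 hkbig (Real.exp_pos _).le (by positivity)

end Pool.Agent.LibMaier
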