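import Pool.Agent.LibCramer.ExpoModel
import Pool.Agent.LibCramer.ExpoPrimes
import Pool.Agent.LibMaier.Numeric

/-!
The number of windows with few elements: Cramer's model and the primes.
-/

namespace Pool.Agent.LibCramer

open Filter Topology MeasureTheory ProbabilityTheory
open scoped ENNReal NNReal

variable {Ω : Type*} [MeasurableSpace Ω] {μ : Measure Ω}

/-- rational points just above -/
lemma exists_rat_above_gen {c d t : ℝ} (hc : 0 ≤ c) (hcd : c < d) (h : t < rate c d) :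
    ∃ c' d' : ℚ, c < c' ∧ (c' : ℝ) < d' ∧ (d' : ℝ) ≤ d ∧ t < rate c' d' := by
  have hd : 0 < d := lt_of_le_of_lt hc hcd
  have hev : ∀ᶠ p : ℝ × ℝ in 𝓝 (c, d), t < p.2 - p.1 - p.1 * Real.log p.2 + p.1 * Real.log p.1 := by
    have := (continuousOn_rate (c, d) (Set.mem_ofPred_eq ▸ hd)).continuousAt
      ((isOpen_lt continuous_const continuous_snd).mem_nhds hd)
    apply this.eventually_const_lt
    rwa [rate_eq hc hd] at h
  have hev2 : ∀ᶠ p : ℝ × ℝ in 𝓝 (c, d), p.1 < p.2 :=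
    (isOpen_lt continuous_fst continuous_snd).mem_nhds hcd
  rw [nhds_prod_eq] at hev hev2
  obtain ⟨pa, hpa, pb, hpb, hp⟩ := eventually_prod_iff.1 (hev.and hev2)
  have h1 : ∀ᶠ x in 𝓝[>] c, pa x := hpa.filter_mono nhdsWithin_le_nhds
  have h2 : ∀ᶠ x in 𝓝[<] d, pb x ∧ 0 < x := by
    refine (hpb.filter_mono nhdsWithin_le_nhds).and ?_
    exact (eventually_gt_nhds hd).filter_mono nhdsWithin_le_nhds
  obtain ⟨u, hu, hu'⟩ := (mem_nhdsGT_iff_exists_Ioo_subset).1 h1
  obtain ⟨v, hv, hv'⟩ := (mem_nhdsLT_iff_exists_Ioo_subset).1 h2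
  obtain ⟨c', hc1, hc2⟩ := exists_rat_btwn (Set.mem_Ioi.1 hu)
  obtain ⟨d', hd1, hd2⟩ := exists_rat_btwn (Set.mem_Iio.1 hv)
  have h3 := hu' ⟨hc1, hc2⟩
  have h4 := hv' ⟨hd1, hd2⟩
  have h5 := hp h3 h4.1
  refine ⟨c', d', hc1, h5.2, hd2.le, ?_⟩
  rw [rate_eq (hc.trans hc1.le) h4.2]
  exact h5.1

/-- rational points just below -/
lemma exists_rat_below_gen {c d t : ℝ} (hc : 0 ≤ c) (hcd : c < d) (h : rate c d < t) :
    ∃ c' d' : ℚ, 0 ≤ (c' : ℝ) ∧ ((c' : ℝ) < c ∨ (c' : ℝ) = 0) ∧ (c' : ℝ) < d' ∧ d ≤ (d' : ℝ) ∧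
      rate c' d' < t := by
  have hd : 0 < d := lt_of_le_of_lt hc hcd
  rcases hc.eq_or_lt with h0 | h0
  · rw [← h0, rate_zero] at h
    obtain ⟨d', hd1, hd2⟩ := exists_rat_btwn h
    refine ⟨0, d', by simp, Or.inr (by simp), ?_, hd1.le, ?_⟩
    · rw [Rat.cast_zero]; exact hd.trans hd1
    · rw [Rat.cast_zero, rate_zero]; exact hd2
  have hev : ∀ᶠ p : ℝ × ℝ in 𝓝 (c, d), p.2 - p.1 - p.1 * Real.log p.2 + p.1 * Real.log p.1 < t := by
    have := (continuousOn_rate (c, d) (Set.mem_ofPred_eq ▸ hd)).continuousAt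
      ((isOpen_lt continuous_const continuous_snd).mem_nhds hd)
    apply this.eventually_lt_const
    rwa [rate_eq hc hd] at h
  have hev2 : ∀ᶠ p : ℝ × ℝ in 𝓝 (c, d), p.1 < p.2 :=
    (isOpen_lt continuous_fst continuous_snd).mem_nhds hcd
  rw [nhds_prod_eq] at hev hev2
  obtain ⟨pa, hpa, pb, hpb, hp⟩ := eventually_prod_iff.1 (hev.and hev2)
  have h1 : ∀ᶠ x in 𝓝[<] c, pa x ∧ 0 < x := by
    refine (hpa.filter_mono nhdsWithin_le_nhds).and ?_
    exact (eventually_gt_nhds h0).filter_mono nhdsWithin_le_nhds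
  have h2 : ∀ᶠ x in 𝓝[>] d, pb x := hpb.filter_mono nhdsWithin_le_nhds
  obtain ⟨u, hu, hu'⟩ := (mem_nhdsLT_iff_exists_Ioo_subset).1 h1
  obtain ⟨v, hv, hv'⟩ := (mem_nhdsGT_iff_exists_Ioo_subset).1 h2
  obtain ⟨c', hc1, hc2⟩ := exists_rat_btwn (Set.mem_Iio.1 hu)
  obtain ⟨d', hd1, hd2⟩ := exists_rat_btwn (Set.mem_Ioi.1 hv)
  have h3 := hu' ⟨hc1, hc2⟩
  have h4 := hv' ⟨hd1, hd2⟩
  have h5 := hp h3.1 h4
  refine ⟨c', d', h3.2.le, Or.inl hc2, h5.2, hd1.le, ?_⟩
  rw [rate_eq h3.2.le (hd.trans hd1)]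
  exact h5.1


lemma rate_pos {c d : ℝ} (hc : 0 ≤ c) (hcd : c < d) : 0 < rate c d := by
  have hd : 0 < d := lt_of_le_of_lt hc hcd
  rcases hc.eq_or_lt with h0 | h0
  · rw [← h0, rate_zero]; exact hd
  · have h1 : Real.log (d / c) < d / c - 1 :=
      Real.log_lt_sub_one_of_pos (by positivity) (by
        intro h
        rw [div_eq_one_iff_eq h0.ne'] at h
        linarith)
    have h2 : c * Real.log (d / c) < c * (d / c - 1) := mul_lt_mul_of_pos_left h1 h0
    have h3 : c * (d / c - 1) = d - c := by field_simp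
    unfold rate
    linarith

/-- **The exponent in Cramér's model.** -/
theorem fewCount_model {E : ℕ → Set Ω}
    (hE : ∀ n, MeasurableSet (E n)) (hind : iIndepSet E μ)
    (hlim : Tendsto (fun n : ℕ => μ.real (E n) * Real.log (n : ℝ)) atTop (𝓝 1)) :
    ∀ᵐ ω ∂μ, ∀ c l : ℝ, 0 ≤ c → c < l →
      Tendsto (fun X : ℕ => Real.log (fewCount {n | ω ∈ E n} c l X) / Real.log X) atTop
        (𝓝 (max 0 (1 - rate c l))) ∧
      (1 < rate c l → (fewWin {n | ω ∈ E n} c l).Finite) := by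
  have hprob := hind.isProbabilityMeasure
  have hup : ∀ᵐ ω ∂μ, ∀ c d κ : ℚ, (0 : ℝ) ≤ c → (c : ℝ) < d → (0 : ℝ) < κ →
      1 - rate c d < κ → ∀ᶠ X : ℕ in atTop,
        (fewCount {n | ω ∈ E n} c d X : ℝ) ≤ (X : ℝ) ^ (κ : ℝ) := by
    rw [ae_all_iff]; intro c
    rw [ae_all_iff]; intro d
    rw [ae_all_iff]; intro κ
    by_cases h : (0 : ℝ) ≤ c ∧ (c : ℝ) < d ∧ (0 : ℝ) < κ ∧ 1 - rate c d < κ
    · filter_upwards [ae_fewCount_le hE hind hlim h.1 h.2.1 h.2.2.1 h.2.2.2]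
        with ω hω _ _ _ _ using hω
    · filter_upwards with ω h1 h2 h3 h4
      exact absurd ⟨h1, h2, h3, h4⟩ h
  have hlo : ∀ᵐ ω ∂μ, ∀ c d κ : ℚ, (0 : ℝ) ≤ c → (c : ℝ) < d → (0 : ℝ) < κ →
      (κ : ℝ) < 1 - rate c d → ∀ᶠ X : ℕ in atTop,
        (X : ℝ) ^ (κ : ℝ) ≤ (fewCount {n | ω ∈ E n} c d X : ℝ) := by
    rw [ae_all_iff]; intro c
    rw [ae_all_iff]; intro d
    rw [ae_all_iff]; intro κ
    by_cases h : (0 : ℝ) ≤ c ∧ (c : ℝ) < d ∧ (0 : ℝ) < κ ∧ (κ : ℝ) < 1 - rate c d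
    · filter_upwards [ae_le_fewCount hE hind hlim h.1 h.2.1 (rate_pos h.1 h.2.1).le h.2.2.1
        h.2.2.2] with ω hω _ _ _ _ using hω
    · filter_upwards with ω h1 h2 h3 h4
      exact absurd ⟨h1, h2, h3, h4⟩ h
  have hfin : ∀ᵐ ω ∂μ, ∀ c d : ℚ, (0 : ℝ) ≤ c → (c : ℝ) < d → 1 < rate c d →
      ∀ᶠ m : ℕ in atTop, ⌊(c : ℝ) * Real.log (m : ℝ)⌋₊ < cnt {n | ω ∈ E n} m (len d m) := by
    rw [ae_all_iff]; intro c
    rw [ae_all_iff]; intro d
    by_cases h : (0 : ℝ) ≤ c ∧ (c : ℝ) < d ∧ 1 < rate c d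
    · obtain ⟨s, hs0, hs1, hs⟩ := exists_chernoff_gen h.1 h.2.1 h.2.2
      filter_upwards [ae_eventually_cnt hE hind hlim h.1 (lt_of_le_of_lt h.1 h.2.1) hs0 hs1 hs]
        with ω hω _ _ _ using hω
    · filter_upwards with ω h1 h2 h3
      exact absurd ⟨h1, h2, h3⟩ h
  filter_upwards [hup, hlo, hfin] with ω hω1 hω2 hω3
  intro c l hc hcl
  refine ⟨tendsto_order.2 ⟨?_, ?_⟩, ?_⟩
  · -- lower bound
    intro a ha
    rcases lt_or_ge a 0 with ha0 | ha0
    · filter_upwards with X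
      exact lt_of_lt_of_le ha0 (div_nonneg (Real.log_natCast_nonneg _) (Real.log_natCast_nonneg _))
    · have h1 : a < 1 - rate c l := by
        rcases lt_max_iff.1 ha with h | h
        · linarith
        · exact h
      obtain ⟨κ, h2, h3⟩ := exists_rat_btwn h1
      obtain ⟨c', d', h4, h5, h6, h7, h8⟩ := exists_rat_below_gen (t := 1 - κ) hc hcl (by linarith)
      have hc' : (c' : ℝ) ≤ c := by
        rcases h5 with h | h
        · exact h.le
        · rw [h]; exact hc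
      have hκ0 : (0 : ℝ) < κ := lt_of_le_of_lt ha0 h2
      filter_upwards [hω2 c' d' κ h4 h6 hκ0 (by linarith), eventually_ge_atTop 2] with X hX hX2
      have hX2' : (2 : ℝ) ≤ X := by exact_mod_cast hX2
      have hX0 : (0 : ℝ) < X := by linarith
      have hl : 0 < Real.log (X : ℝ) := Real.log_pos (by linarith)
      have h9 : (fewCount {n | ω ∈ E n} c' d' X : ℝ) ≤ fewCount {n | ω ∈ E n} c l X := by
        exact_mod_cast fewCount_mono _ hc' h7 le_rfl
      have h10 := Real.log_le_log (Real.rpow_pos_of_pos hX0 _) (hX.trans h9)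
      rw [Real.log_rpow hX0] at h10
      rw [lt_div_iff₀ hl]
      exact lt_of_lt_of_le (mul_lt_mul_of_pos_right h2 hl) h10
  · -- upper bound
    intro a ha
    obtain ⟨κ, h2, h3⟩ := exists_rat_btwn ha
    have hκ0 : (0 : ℝ) < κ := lt_of_le_of_lt (le_max_left _ _) h2
    have hκ1 : 1 - rate c l < κ := lt_of_le_of_lt (le_max_right _ _) h2
    obtain ⟨c', d', h4, h5, h6, h7⟩ := exists_rat_above_gen (t := 1 - κ) hc hcl (by linarith)
    filter_upwards [hω1 c' d' κ (hc.trans h4.le) h5 hκ0 (by linarith),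
      eventually_ge_atTop 2] with X hX hX2
    have hX2' : (2 : ℝ) ≤ X := by exact_mod_cast hX2
    have hX0 : (0 : ℝ) < X := by linarith
    have hl : 0 < Real.log (X : ℝ) := Real.log_pos (by linarith)
    have h9 : (fewCount {n | ω ∈ E n} c l X : ℝ) ≤ fewCount {n | ω ∈ E n} c' d' X := by
      exact_mod_cast fewCount_mono _ h4.le h6 le_rfl
    have h10 : Real.log (fewCount {n | ω ∈ E n} c l X : ℝ) ≤ κ * Real.log X := by
      rcases Nat.eq_zero_or_pos (fewCount {n | ω ∈ E n} c l X) with h0 | h0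
      · rw [h0, Nat.cast_zero, Real.log_zero]
        positivity
      · rw [← Real.log_rpow hX0]
        exact Real.log_le_log (by exact_mod_cast h0) (h9.trans hX)
    rw [div_lt_iff₀ hl]
    exact lt_of_le_of_lt h10 (mul_lt_mul_of_pos_right h3 hl)
  · -- finiteness
    intro h1
    obtain ⟨c', d', h4, h5, h6, h7⟩ := exists_rat_above_gen (t := 1) hc hcl h1
    obtain ⟨M, hM⟩ := eventually_atTop.1 (hω3 c' d' (hc.trans h4.le) h5 h7)
    refine (Set.finite_Iio M).subset fun m hm => ?_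
    by_contra hmM
    rw [Set.mem_Iio, not_lt] at hmM
    have h8 := (mem_fewWin_iff (hc.trans h4.le)).1 (fewWin_mono _ h4.le h6 hm)
    have h9 := hM m hmM
    omega

open Pool.Agent.LibMaier in
/-- **The exponent of the primes.** -/
theorem limsup_fewCount_primes {c l : ℝ} (hl : 0 < l)
    (hlc : l < 2 * Real.exp (-Real.eulerMascheroniConstant) * c) :
    limsup (fun X : ℕ => ((Real.log (fewCount {p : ℕ | p.Prime} c l X) / Real.log X : ℝ) : EReal))
      atTop = 1 := by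
  have heg : 0 < eg := eg_pos
  have heg2 : Real.exp (-Real.eulerMascheroniConstant) = 1 / eg := by
    unfold eg
    rw [Real.exp_neg, one_div]
  have hlc' : l * (eg / 2) < c := by
    rw [heg2] at hlc
    have h1 := mul_lt_mul_of_pos_right hlc (show 0 < eg / 2 by positivity)
    refine lt_of_lt_of_eq h1 ?_
    field_simp
  apply le_antisymm
  · refine limsup_le_of_le (by isBoundedDefault) ?_
    filter_upwards [eventually_ge_atTop 2] with X hX2
    have hX2' : (2 : ℝ) ≤ X := by exact_mod_cast hX2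
    have hl : 0 < Real.log (X : ℝ) := Real.log_pos (by linarith)
    have h1 : Real.log (fewCount {p : ℕ | p.Prime} c l X : ℝ) ≤ Real.log X := by
      rcases Nat.eq_zero_or_pos (fewCount {p : ℕ | p.Prime} c l X) with h0 | h0
      · rw [h0, Nat.cast_zero, Real.log_zero]
        exact hl.le
      · apply Real.log_le_log (by exact_mod_cast h0)
        exact_mod_cast fewCount_le _ c l X
    have h2 : Real.log (fewCount {p : ℕ | p.Prime} c l X : ℝ) / Real.log X ≤ 1 := by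
      rw [div_le_one hl]; exact h1
    exact_mod_cast h2
  · apply le_of_forall_lt
    intro a ha
    obtain ⟨r, hr1, hr2⟩ := EReal.exists_between_coe_real ha
    have hr1' : r < 1 := by exact_mod_cast hr2
    refine lt_of_lt_of_le hr1 ?_
    apply le_limsup_of_frequently_le _ (by isBoundedDefault)
    refine ((frequently_fewCount hl hlc' (show 0 < 1 - r by linarith)).and_eventually
      (eventually_ge_atTop 2)).mono fun X hX => ?_
    obtain ⟨hX1, hX2⟩ := hX
    have hX2' : (2 : ℝ) ≤ X := by exact_mod_cast hX2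
    have hX0 : (0 : ℝ) < X := by linarith
    have hl : 0 < Real.log (X : ℝ) := Real.log_pos (by linarith)
    have h1 := Real.log_le_log (Real.rpow_pos_of_pos hX0 _) hX1
    rw [Real.log_rpow hX0] at h1
    have h2 : r ≤ Real.log (fewCount {p : ℕ | p.Prime} c l X : ℝ) / Real.log X := by
      rw [le_div_iff₀ hl]
      linarith
    exact_mod_cast h2

open Pool.Agent.LibMaier in
lemma one_lt_const : 1 < 2 * Real.exp (-Real.eulerMascheroniConstant) := by
  have heg : 0 < eg := eg_pos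
  have heg2 : Real.exp (-Real.eulerMascheroniConstant) = 1 / eg := by
    unfold eg
    rw [Real.exp_neg, one_div]
  have h1 := eg_lt
  rw [heg2, mul_one_div, lt_div_iff₀ heg]
  norm_num at h1 ⊢
  linarith

end Pool.Agent.LibCramer
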