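import Pool.Agent.LibCramer.ExpoProb
import Pool.Agent.LibCramer.ExpoDefs
import Pool.Agent.LibCramer.SecondMoment

/-!
The number of windows with few points in Cramer's model.
-/

namespace Pool.Agent.LibCramer

open Filter Topology MeasureTheory ProbabilityTheory
open scoped ENNReal NNReal

variable {Ω : Type*} [MeasurableSpace Ω] {μ : Measure Ω}

omit [MeasurableSpace Ω] in
lemma mem_fewWin_iff_FW {E : ℕ → Set Ω} {c d : ℝ} (hc : 0 ≤ c) {m : ℕ} {ω : Ω} :
    m ∈ fewWin {n | ω ∈ E n} c d ↔ 1 ≤ m ∧ ω ∈ FW E c d m := mem_fewWin_iff hc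

omit [MeasurableSpace Ω] in
open Classical in
lemma fewCount_eq_card {E : ℕ → Set Ω} {c d : ℝ} (hc : 0 ≤ c) (X : ℕ) (ω : Ω) :
    fewCount {n | ω ∈ E n} c d X =
      ((Finset.Icc 1 X).filter fun m => ω ∈ FW E c d m).card := by
  unfold fewCount
  rw [← Set.ncard_coe_finset]
  congr 1
  ext m
  rw [Set.mem_inter_iff, mem_fewWin_iff_FW hc, Finset.coe_filter]
  simp only [Set.mem_Iic, Finset.mem_Icc, Set.mem_ofPred_eq]
  tauto

/-- Upper bound for the number of windows with few points. -/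
theorem ae_fewCount_le [IsProbabilityMeasure μ] {E : ℕ → Set Ω}
    (hE : ∀ n, MeasurableSet (E n)) (hind : iIndepSet E μ)
    (hlim : Tendsto (fun n : ℕ => μ.real (E n) * Real.log (n : ℝ)) atTop (𝓝 1))
    {c d κ : ℝ} (hc : 0 ≤ c) (hcd : c < d) (hκ0 : 0 < κ) (hκ : 1 - rate c d < κ) :
    ∀ᵐ ω ∂μ, ∀ᶠ X : ℕ in atTop, (fewCount {n | ω ∈ E n} c d X : ℝ) ≤ (X : ℝ) ^ κ := by
  classical
  obtain ⟨κ', h1, h2⟩ := exists_between (show max 0 (1 - rate c d) < κ from max_lt hκ0 hκ)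
  have hκ'0 : 0 < κ' := lt_of_le_of_lt (le_max_left _ _) h1
  have h3 : 1 - κ' < rate c d := by
    have := lt_of_le_of_lt (le_max_right _ _) h1
    linarith
  obtain ⟨a, ha1, ha2⟩ := exists_between h3
  have hbound := prob_FW_le_rpow hE hind hlim hc hcd ha2
  have hsum : Summable fun m : ℕ => (m : ℝ) ^ (-κ') * μ.real (FW E c d m) := by
    have h4 : Summable fun m : ℕ => (m : ℝ) ^ (-(κ' + a)) := Real.summable_nat_rpow.2 (by linarith)
    refine summable_of_isBigO_nat h4 ?_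
    apply Asymptotics.IsBigO.of_bound 1
    filter_upwards [hbound, eventually_ge_atTop 1] with m hm hm1
    have hm0 : (0 : ℝ) < m := by exact_mod_cast hm1
    rw [Real.norm_eq_abs, abs_of_nonneg (mul_nonneg (Real.rpow_nonneg hm0.le _) measureReal_nonneg),
      one_mul, Real.norm_eq_abs, abs_of_nonneg (Real.rpow_nonneg hm0.le _),
      show -(κ' + a) = -κ' + -a by ring, Real.rpow_add hm0]
    exact mul_le_mul_of_nonneg_left hm (Real.rpow_nonneg hm0.le _)
  have hfin : ∀ᵐ ω ∂μ, (∑' m : ℕ, (FW E c d m).indicator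
      (fun _ => ENNReal.ofReal ((m : ℝ) ^ (-κ'))) ω) < ∞ := by
    apply ae_lt_top
    · exact Measurable.tsum fun m => measurable_const.indicator (measurableSet_FW hE c d m)
    · rw [lintegral_tsum fun m =>
        (measurable_const.indicator (measurableSet_FW hE c d m)).aemeasurable]
      have : ∀ m : ℕ, ∫⁻ ω, (FW E c d m).indicator
          (fun _ => ENNReal.ofReal ((m : ℝ) ^ (-κ'))) ω ∂μ =
          ENNReal.ofReal ((m : ℝ) ^ (-κ') * μ.real (FW E c d m)) := by
        intro m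
        rw [lintegral_indicator_const (measurableSet_FW hE c d m),
          ENNReal.ofReal_mul (Real.rpow_nonneg (Nat.cast_nonneg m) _), Measure.real,
          ENNReal.ofReal_toReal (measure_ne_top _ _)]
      simp_rw [this]
      exact hsum.tsum_ofReal_ne_top
  filter_upwards [hfin] with ω hω
  obtain ⟨f, hf⟩ : ∃ f : ℕ → ℝ, f = fun m => (FW E c d m).indicator (fun _ => (m : ℝ) ^ (-κ')) ω :=
    ⟨_, rfl⟩
  have hf0 : ∀ m, 0 ≤ f m := fun m => by
    rw [hf]
    exact Set.indicator_nonneg (fun _ _ => Real.rpow_nonneg (Nat.cast_nonneg m) _) ω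
  have hfs : Summable f := by
    have h1 : ∑' m : ℕ, ENNReal.ofReal (f m) ≠ ∞ := by
      refine ne_of_lt (lt_of_le_of_lt (le_of_eq ?_) hω)
      apply tsum_congr
      intro m
      simp only [hf]
      by_cases h : ω ∈ FW E c d m
      · rw [Set.indicator_of_mem h, Set.indicator_of_mem h]
      · rw [Set.indicator_of_notMem h, Set.indicator_of_notMem h, ENNReal.ofReal_zero]
    have := ENNReal.summable_toReal h1
    refine this.congr fun m => ?_
    rw [ENNReal.toReal_ofReal (hf0 m)]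
  have hS0 : 0 ≤ ∑' m, f m := tsum_nonneg hf0
  -- growth
  have hgrow : ∀ᶠ X : ℕ in atTop, ∑' m, f m ≤ (X : ℝ) ^ (κ - κ') :=
    ((tendsto_rpow_atTop (show 0 < κ - κ' by linarith)).comp
      tendsto_natCast_atTop_atTop).eventually_ge_atTop _
  filter_upwards [hgrow, eventually_ge_atTop 1] with X hX hX1
  have hX0 : (0 : ℝ) < X := by exact_mod_cast hX1
  rw [fewCount_eq_card hc]
  have hcard : (((Finset.Icc 1 X).filter fun m => ω ∈ FW E c d m).card : ℝ) ≤
      (X : ℝ) ^ κ' * ∑ m ∈ (Finset.Icc 1 X).filter (fun m => ω ∈ FW E c d m), f m := by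
    rw [Finset.mul_sum, ← nsmul_one, ← Finset.sum_const]
    apply Finset.sum_le_sum
    intro m hm
    rw [Finset.mem_filter, Finset.mem_Icc] at hm
    have hm0 : (0 : ℝ) < m := by exact_mod_cast hm.1.1
    have hmX : (m : ℝ) ≤ X := by exact_mod_cast hm.1.2
    simp only [hf, Set.indicator_of_mem hm.2]
    rw [Real.rpow_neg hm0.le, ← div_eq_mul_inv, one_le_div (Real.rpow_pos_of_pos hm0 _)]
    exact Real.rpow_le_rpow hm0.le hmX hκ'0.le
  calc (((Finset.Icc 1 X).filter fun m => ω ∈ FW E c d m).card : ℝ)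
      ≤ (X : ℝ) ^ κ' * ∑ m ∈ (Finset.Icc 1 X).filter (fun m => ω ∈ FW E c d m), f m := hcard
    _ ≤ (X : ℝ) ^ κ' * ∑' m, f m := by
        apply mul_le_mul_of_nonneg_left _ (Real.rpow_nonneg hX0.le _)
        exact hfs.sum_le_tsum _ (fun m _ => hf0 m)
    _ ≤ (X : ℝ) ^ κ' * (X : ℝ) ^ (κ - κ') :=
        mul_le_mul_of_nonneg_left hX (Real.rpow_nonneg hX0.le _)
    _ = (X : ℝ) ^ κ := by
        rw [← Real.rpow_add hX0]
        congr 1
        ring

lemma wt_le_three (m : ℕ) : wt m ≤ 3 := by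
  rcases lt_or_ge m 2 with h | h
  · interval_cases m <;> simp [wt]
  · have h1 : wt m ≤ wt 2 := wt_anti le_rfl h
    refine h1.trans ?_
    unfold wt
    have h2 := Real.log_two_gt_d9
    have h3 : (1 / 3 : ℝ) ≤ Real.log ((2 : ℕ) : ℝ) ^ 2 := by
      push_cast
      nlinarith
    rw [inv_le_comm₀ (by positivity) (by norm_num)]
    linarith

/-- the expected weighted number of windows with few points is a power -/
lemma rpow_le_expect [IsProbabilityMeasure μ] {E : ℕ → Set Ω}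
    {c d b κ₁ κ₂ : ℝ} (hb : b = 1 - κ₂) (hb0 : 0 ≤ b) (h12 : κ₁ < κ₂)
    (hlow : ∀ᶠ m : ℕ in atTop, (m : ℝ) ^ (-b) ≤ μ.real (FW E c d m)) :
    ∀ᶠ N : ℕ in atTop, (N : ℝ) ^ κ₁ ≤ ∑ m ∈ Finset.range N, wt m * μ.real (FW E c d m) := by
  obtain ⟨δ, hδ⟩ : ∃ δ, δ = (κ₂ - κ₁) / 2 := ⟨_, rfl⟩
  have hδ0 : 0 < δ := by rw [hδ]; linarith
  have hlog : ∀ᶠ m : ℕ in atTop, Real.log (m : ℝ) ^ 2 ≤ (m : ℝ) ^ δ := by
    have h1 := (isLittleO_log_rpow_atTop (show 0 < δ / 2 by positivity))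
    have h2 := (h1.bound one_pos)
    filter_upwards [(tendsto_natCast_atTop_atTop (R := ℝ)).eventually h2,
      eventually_ge_atTop 1] with m hm hm1
    have hm0 : (0 : ℝ) < m := by exact_mod_cast hm1
    rw [Real.norm_eq_abs, Real.norm_eq_abs, one_mul,
      abs_of_nonneg (Real.log_natCast_nonneg m),
      abs_of_nonneg (Real.rpow_nonneg hm0.le _)] at hm
    calc Real.log (m : ℝ) ^ 2 ≤ ((m : ℝ) ^ (δ / 2)) ^ 2 :=
          pow_le_pow_left₀ (Real.log_natCast_nonneg m) hm 2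
      _ = (m : ℝ) ^ δ := by
          rw [← Real.rpow_natCast, ← Real.rpow_mul hm0.le]
          congr 1
          push_cast
          ring
  obtain ⟨M, hM⟩ := eventually_atTop.1 (hlow.and (hlog.and (eventually_ge_atTop 2)))
  have hgrow : ∀ᶠ N : ℕ in atTop, 2 ≤ (N : ℝ) ^ δ :=
    ((tendsto_rpow_atTop hδ0).comp tendsto_natCast_atTop_atTop).eventually_ge_atTop _
  filter_upwards [hgrow, eventually_ge_atTop (2 * M), eventually_ge_atTop 1] with N hN hNM hN1
  have hN0 : (0 : ℝ) < N := by exact_mod_cast hN1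
  have hterm : ∀ m ∈ Finset.Ico M N, (N : ℝ) ^ (-(b + δ)) ≤ wt m * μ.real (FW E c d m) := by
    intro m hm
    rw [Finset.mem_Ico] at hm
    obtain ⟨h1, h2, h3⟩ := hM m hm.1
    have h3' : (2 : ℝ) ≤ m := by exact_mod_cast h3
    have hm0 : (0 : ℝ) < m := by linarith
    have hl : 0 < Real.log (m : ℝ) := Real.log_pos (by linarith)
    calc (N : ℝ) ^ (-(b + δ)) ≤ (m : ℝ) ^ (-(b + δ)) :=
          Real.rpow_le_rpow_of_nonpos hm0 (by exact_mod_cast hm.2.le) (by linarith)
      _ = ((m : ℝ) ^ δ)⁻¹ * (m : ℝ) ^ (-b) := by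
          rw [← Real.rpow_neg hm0.le, ← Real.rpow_add hm0]
          congr 1
          ring
      _ ≤ wt m * μ.real (FW E c d m) := by
          unfold wt
          apply mul_le_mul _ h1 (by positivity) (by positivity)
          exact inv_anti₀ (by positivity) h2
  have hsum := Finset.card_nsmul_le_sum _ _ _ hterm
  rw [Nat.card_Ico, nsmul_eq_mul] at hsum
  have hsub : ∑ m ∈ Finset.Ico M N, wt m * μ.real (FW E c d m) ≤
      ∑ m ∈ Finset.range N, wt m * μ.real (FW E c d m) := by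
    apply Finset.sum_le_sum_of_subset_of_nonneg
    · intro m hm
      rw [Finset.mem_Ico] at hm
      exact Finset.mem_range.2 hm.2
    · intro m _ _
      exact mul_nonneg (wt_nonneg m) measureReal_nonneg
  have hhalf : (N : ℝ) / 2 ≤ ((N - M : ℕ) : ℝ) := by
    rw [Nat.cast_sub (by omega)]
    have : (2 : ℝ) * M ≤ N := by exact_mod_cast hNM
    linarith
  have hp : 0 < (N : ℝ) ^ (-(b + δ)) := Real.rpow_pos_of_pos hN0 _
  calc (N : ℝ) ^ κ₁ ≤ (N : ℝ) ^ κ₁ * ((N : ℝ) ^ δ / 2) := by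
        have : 1 ≤ (N : ℝ) ^ δ / 2 := by linarith
        nlinarith [Real.rpow_pos_of_pos hN0 κ₁]
    _ = (N : ℝ) / 2 * (N : ℝ) ^ (-(b + δ)) := by
        have h1 : (N : ℝ) ^ κ₁ * (N : ℝ) ^ δ = (N : ℝ) * (N : ℝ) ^ (-(b + δ)) := by
          nth_rewrite 3 [← Real.rpow_one (N : ℝ)]
          rw [← Real.rpow_add hN0, ← Real.rpow_add hN0]
          congr 1
          rw [hb, hδ]
          ring
        calc (N : ℝ) ^ κ₁ * ((N : ℝ) ^ δ / 2) = ((N : ℝ) ^ κ₁ * (N : ℝ) ^ δ) / 2 := by ring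
          _ = _ := by rw [h1]; ring
    _ ≤ ((N - M : ℕ) : ℝ) * (N : ℝ) ^ (-(b + δ)) := mul_le_mul_of_nonneg_right hhalf hp.le
    _ ≤ _ := hsum
    _ ≤ _ := hsub

/-- Chebyshev's inequality for the weighted number of windows with few points. -/
lemma prob_small_sum [IsProbabilityMeasure μ] {E : ℕ → Set Ω}
    (hE : ∀ n, MeasurableSet (E n)) (hind : iIndepSet E μ) {c d : ℝ} (hd : 0 ≤ d) (N : ℕ)
    (he : 0 < ∑ m ∈ Finset.range N, wt m * μ.real (FW E c d m)) :
    μ {ω | ∑ m ∈ Finset.range N, wind wt (FW E c d) m ω ≤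
      (∑ m ∈ Finset.range N, wt m * μ.real (FW E c d m)) / 2} ≤
      ENNReal.ofReal (8 * d * (∑ m ∈ Finset.range N, wt m * μ.real (FW E c d m))⁻¹) := by
  obtain ⟨e, hee⟩ : ∃ e, e = ∑ m ∈ Finset.range N, wt m * μ.real (FW E c d m) := ⟨_, rfl⟩
  rw [← hee] at he ⊢
  have hA := measurableSet_FW hE c d
  obtain ⟨S, hS⟩ : ∃ S : Ω → ℝ, S = fun ω => ∑ m ∈ Finset.range N, wind wt (FW E c d) m ω :=
    ⟨_, rfl⟩
  have hSLp : MemLp S 2 μ := by
    rw [hS]
    exact memLp_finsetSum _ fun i _ => wind_memLp wt hA i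
  have hSint : ∫ ω, S ω ∂μ = e := by
    rw [hS, hee, integral_finsetSum _ fun i _ => (wind_memLp wt hA i).integrable (by norm_num)]
    exact Finset.sum_congr rfl fun i _ => wind_integral wt hA i
  have hv : Var[S; μ] ≤ 2 * d * e := by
    rw [hS, hee]
    exact var_bound hA wt_nonneg (fun m n _ hmn => (indep_FW hE hind c d hmn).le)
      (by
        intro m n hmn hn
        rcases lt_or_ge m 2 with hm | hm
        · rw [len_zero_of_lt hm] at hn
          omega
        · exact wt_anti hm hmn)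
      (len_mul_wt hd) N
  calc μ {ω | ∑ m ∈ Finset.range N, wind wt (FW E c d) m ω ≤ e / 2}
      ≤ μ {ω | e / 2 ≤ |S ω - μ[S]|} := by
        apply measure_mono
        intro ω hω
        have h1 : S ω ≤ e / 2 := by rw [hS]; exact hω
        simp only [Set.mem_ofPred_eq]
        rw [hSint, abs_sub_comm]
        refine le_trans ?_ (le_abs_self _)
        linarith
    _ ≤ ENNReal.ofReal (Var[S; μ] / (e / 2) ^ 2) :=
        meas_ge_le_variance_div_sq hSLp (by positivity)
    _ ≤ ENNReal.ofReal (8 * d * e⁻¹) := by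
        apply ENNReal.ofReal_le_ofReal
        rw [div_le_iff₀ (by positivity)]
        calc Var[S; μ] ≤ 2 * d * e := hv
          _ = 8 * d * e⁻¹ * (e / 2) ^ 2 := by
              field_simp
              ring

/-- Lower bound for the number of windows with few points. -/
theorem ae_le_fewCount [IsProbabilityMeasure μ] {E : ℕ → Set Ω}
    (hE : ∀ n, MeasurableSet (E n)) (hind : iIndepSet E μ)
    (hlim : Tendsto (fun n : ℕ => μ.real (E n) * Real.log (n : ℝ)) atTop (𝓝 1))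
    {c d κ : ℝ} (hc : 0 ≤ c) (hcd : c < d) (hr : 0 ≤ rate c d) (hκ0 : 0 < κ)
    (hκ : κ < 1 - rate c d) :
    ∀ᵐ ω ∂μ, ∀ᶠ X : ℕ in atTop, (X : ℝ) ^ κ ≤ (fewCount {n | ω ∈ E n} c d X : ℝ) := by
  classical
  have hd : 0 < d := lt_of_le_of_lt hc hcd
  obtain ⟨κ₁, h1, h2⟩ := exists_between hκ
  obtain ⟨κ₂, h3, h4⟩ := exists_between h2
  have hlow := rpow_le_prob_FW hE hind hlim hc hcd (b := 1 - κ₂) (by linarith)
  have hexp := rpow_le_expect (E := E) rfl (by linarith) h3 hlow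
  -- along powers of two
  have hpow : Tendsto (fun j : ℕ => 2 ^ j) atTop (atTop : Filter ℕ) :=
    tendsto_pow_atTop_atTop_of_one_lt (by norm_num)
  have hexp2 := hpow.eventually hexp
  obtain ⟨B, hB⟩ : ∃ B : ℕ → Set Ω, B = fun j => {ω | ∑ m ∈ Finset.range (2 ^ j),
      wind wt (FW E c d) m ω ≤ (∑ m ∈ Finset.range (2 ^ j), wt m * μ.real (FW E c d m)) / 2} :=
    ⟨_, rfl⟩
  have hBm : ∀ᶠ j : ℕ in atTop, μ.real (B j) ≤ 8 * d * ((2 : ℝ) ^ (-κ₁)) ^ j := by
    filter_upwards [hexp2] with j hj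
    push_cast at hj
    have hpos : (0 : ℝ) < ((2 : ℝ) ^ j) ^ κ₁ := by positivity
    have he0 : 0 < ∑ m ∈ Finset.range (2 ^ j), wt m * μ.real (FW E c d m) := lt_of_lt_of_le hpos hj
    have h5 := prob_small_sum hE hind (c := c) hd.le (2 ^ j) he0
    have h6 : μ.real (B j) ≤ 8 * d * (∑ m ∈ Finset.range (2 ^ j),
        wt m * μ.real (FW E c d m))⁻¹ := by
      rw [hB]
      exact ENNReal.toReal_le_of_le_ofReal (by positivity) h5
    refine h6.trans ?_
    apply mul_le_mul_of_nonneg_left _ (by positivity)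
    have h7 : ((2 : ℝ) ^ (-κ₁)) ^ j = (((2 : ℝ) ^ j) ^ κ₁)⁻¹ := by
      rw [← Real.rpow_natCast ((2 : ℝ) ^ (-κ₁)) j, ← Real.rpow_mul (by norm_num),
        ← Real.rpow_natCast (2 : ℝ) j, ← Real.rpow_mul (by norm_num), ← Real.rpow_neg (by norm_num)]
      congr 1
      ring
    rw [h7]
    exact inv_anti₀ hpos hj
  have hsum : Summable fun j : ℕ => μ.real (B j) := by
    have h5 : (2 : ℝ) ^ (-κ₁) < 1 := Real.rpow_lt_one_of_one_lt_of_neg (by norm_num) (by linarith)
    have h6 : Summable fun j : ℕ => 8 * d * ((2 : ℝ) ^ (-κ₁)) ^ j :=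
      (summable_geometric_of_lt_one (by positivity) h5).mul_left _
    refine summable_of_isBigO_nat h6 ?_
    apply Asymptotics.IsBigO.of_bound 1
    filter_upwards [hBm] with j hj
    rw [Real.norm_eq_abs, abs_of_nonneg measureReal_nonneg, one_mul]
    exact hj.trans (le_abs_self _)
  have hsum2 : ∑' j : ℕ, μ (B j) ≠ ∞ := by
    have := hsum.tsum_ofReal_ne_top
    refine ne_of_eq_of_ne ?_ this
    apply tsum_congr
    intro m
    rw [Measure.real, ENNReal.ofReal_toReal (measure_ne_top _ _)]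
  filter_upwards [ae_eventually_notMem hsum2] with ω hω
  -- counts along powers of two
  have hcount : ∀ᶠ j : ℕ in atTop, ((2 : ℝ) ^ j) ^ κ₁ / 6 ≤
      (fewCount {n | ω ∈ E n} c d (2 ^ j) : ℝ) := by
    filter_upwards [hω, hexp2] with j hj1 hj2
    push_cast at hj2
    have hj3 : (∑ m ∈ Finset.range (2 ^ j), wt m * μ.real (FW E c d m)) / 2 <
        ∑ m ∈ Finset.range (2 ^ j), wind wt (FW E c d) m ω := by
      rw [hB] at hj1
      simpa using hj1
    have hj4 : ∑ m ∈ Finset.range (2 ^ j), wind wt (FW E c d) m ω ≤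
        3 * (fewCount {n | ω ∈ E n} c d (2 ^ j) : ℝ) := by
      rw [fewCount_eq_card hc, ← nsmul_one, ← Finset.sum_const, Finset.mul_sum, mul_one,
        Finset.sum_filter]
      have hsub : Finset.range (2 ^ j) ⊆ insert 0 (Finset.Icc 1 (2 ^ j)) := by
        intro m hm
        rw [Finset.mem_range] at hm
        rw [Finset.mem_insert, Finset.mem_Icc]
        omega
      calc ∑ m ∈ Finset.range (2 ^ j), wind wt (FW E c d) m ω
          ≤ ∑ m ∈ insert 0 (Finset.Icc 1 (2 ^ j)), wind wt (FW E c d) m ω := by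
            apply Finset.sum_le_sum_of_subset_of_nonneg hsub
            intro m _ _
            exact Set.indicator_nonneg (fun _ _ => wt_nonneg m) ω
        _ = wind wt (FW E c d) 0 ω + ∑ m ∈ Finset.Icc 1 (2 ^ j), wind wt (FW E c d) m ω :=
            Finset.sum_insert (by simp)
        _ = ∑ m ∈ Finset.Icc 1 (2 ^ j), wind wt (FW E c d) m ω := by
            have : wind wt (FW E c d) 0 ω = 0 := by
              simp [wind, wt]
            rw [this, zero_add]
        _ ≤ ∑ m ∈ Finset.Icc 1 (2 ^ j), (if ω ∈ FW E c d m then (3 : ℝ) else 0) := by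
            apply Finset.sum_le_sum
            intro m _
            by_cases h : ω ∈ FW E c d m
            · simp only [wind, Set.indicator_of_mem h, if_pos h]
              exact wt_le_three m
            · simp only [wind, Set.indicator_of_notMem h, if_neg h]
              exact le_rfl
    linarith
  -- all `X`
  have hlog : Tendsto (fun X : ℕ => Nat.log 2 X) atTop atTop := by
    rw [tendsto_atTop]
    intro b
    filter_upwards [eventually_ge_atTop (2 ^ b)] with X hX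
    exact Nat.le_log_of_pow_le (by norm_num) hX
  have hgrow : ∀ᶠ X : ℕ in atTop, (6 : ℝ) * 2 ^ κ₁ ≤ (X : ℝ) ^ (κ₁ - κ) :=
    ((tendsto_rpow_atTop (show 0 < κ₁ - κ by linarith)).comp
      tendsto_natCast_atTop_atTop).eventually_ge_atTop _
  filter_upwards [hlog.eventually hcount, hgrow, eventually_ge_atTop 1] with X hX1 hX2 hX3
  have hX0 : (0 : ℝ) < X := by exact_mod_cast hX3
  have h5 : 2 ^ Nat.log 2 X ≤ X := Nat.pow_log_le_self 2 (by omega)
  have h6 : X < 2 ^ (Nat.log 2 X + 1) := Nat.lt_pow_succ_log_self (by norm_num) X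
  have h7 : (fewCount {n | ω ∈ E n} c d (2 ^ Nat.log 2 X) : ℝ) ≤ fewCount {n | ω ∈ E n} c d X := by
    exact_mod_cast fewCount_mono _ le_rfl le_rfl h5
  have h8 : (X : ℝ) / 2 ≤ (2 : ℝ) ^ Nat.log 2 X := by
    have : (X : ℝ) < 2 ^ (Nat.log 2 X + 1) := by exact_mod_cast h6
    rw [pow_succ] at this
    linarith
  refine le_trans ?_ (hX1.trans h7)
  have h9 : ((X : ℝ) / 2) ^ κ₁ ≤ ((2 : ℝ) ^ Nat.log 2 X) ^ κ₁ :=
    Real.rpow_le_rpow (by positivity) h8 (by linarith)
  have h10 : (X : ℝ) ^ κ ≤ ((X : ℝ) / 2) ^ κ₁ / 6 := by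
    rw [Real.div_rpow hX0.le (by norm_num), div_div, le_div_iff₀ (by positivity)]
    calc (X : ℝ) ^ κ * (2 ^ κ₁ * 6) ≤ (X : ℝ) ^ κ * (X : ℝ) ^ (κ₁ - κ) := by
          apply mul_le_mul_of_nonneg_left _ (Real.rpow_nonneg hX0.le _)
          linarith
      _ = (X : ℝ) ^ κ₁ := by
          rw [← Real.rpow_add hX0]
          congr 1
          ring
  linarith

end Pool.Agent.LibCramer
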