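import Pool.Agent.LibCramer.Bernoulli
import Pool.Agent.LibCramer.Runs

/-!
Windows with few points in Cramer's model: independence, Chernoff bound, Borel-Cantelli.
-/

namespace Pool.Agent.LibCramer

open Filter Topology MeasureTheory ProbabilityTheory
open scoped ENNReal NNReal

variable {Ω : Type*} [MeasurableSpace Ω] {μ : Measure Ω}

/-- the indicator of `E j` -/
noncomputable def ind (E : ℕ → Set Ω) (j : ℕ) : Ω → ℝ := (E j).indicator (fun _ => 1)

lemma measurable_ind {E : ℕ → Set Ω} (hE : ∀ n, MeasurableSet (E n)) (j : ℕ) :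
    Measurable (ind E j) := measurable_const.indicator (hE j)

omit [MeasurableSpace Ω] in
lemma cnt_eq_sum (E : ℕ → Set Ω) (m l : ℕ) (ω : Ω) :
    (cnt {n | ω ∈ E n} m l : ℝ) = ∑ j ∈ Finset.Ioc m (m + l), ind E j ω := by
  classical
  have h1 : ({n | ω ∈ E n} ∩ Set.Ioc m (m + l)) =
      ((Finset.Ioc m (m + l)).filter (fun j => ω ∈ E j) : Set ℕ) := by
    ext j
    simp only [Set.mem_inter_iff, Set.mem_ofPred_eq, Finset.coe_filter, Finset.mem_Ioc, Set.mem_Ioc]
    tauto
  unfold cnt
  rw [h1, Set.ncard_coe_finset, Finset.card_filter]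
  push_cast
  apply Finset.sum_congr rfl
  intro j _
  unfold ind
  by_cases h : ω ∈ E j
  · simp [h]
  · simp [h]

/-- the event that the window at `m` has at most `c log m` elements -/
def FW (E : ℕ → Set Ω) (c d : ℝ) (m : ℕ) : Set Ω :=
  {ω | cnt {n | ω ∈ E n} m (len d m) ≤ ⌊c * Real.log (m : ℝ)⌋₊}

omit [MeasurableSpace Ω] in
lemma FW_eq (E : ℕ → Set Ω) (c d : ℝ) (m : ℕ) :
    FW E c d m = {ω | (fun p : Finset.Ioc m (m + len d m) => ind E p ω) ∈
      {f : Finset.Ioc m (m + len d m) → ℝ | ∑ j, f j ≤ (⌊c * Real.log (m : ℝ)⌋₊ : ℝ)}} := by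
  ext ω
  simp only [FW, Set.mem_ofPred_eq]
  rw [← Nat.cast_le (α := ℝ), cnt_eq_sum, Finset.univ_eq_attach,
    Finset.sum_attach (Finset.Ioc m (m + len d m)) (fun j => ind E j ω)]

lemma measurableSet_FW {E : ℕ → Set Ω} (hE : ∀ n, MeasurableSet (E n)) (c d : ℝ) (m : ℕ) :
    MeasurableSet (FW E c d m) := by
  have : FW E c d m = {ω | ∑ j ∈ Finset.Ioc m (m + len d m), ind E j ω ≤
      (⌊c * Real.log (m : ℝ)⌋₊ : ℝ)} := by
    ext ω
    simp only [FW, Set.mem_ofPred_eq]
    rw [← Nat.cast_le (α := ℝ), cnt_eq_sum]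
  rw [this]
  exact measurableSet_le (Finset.measurable_sum _ fun j _ => measurable_ind hE j) measurable_const

lemma measurableSet_sum_le {ι : Type*} [Fintype ι] (a : ℝ) :
    MeasurableSet {f : ι → ℝ | ∑ j, f j ≤ a} :=
  measurableSet_le (Finset.measurable_sum _ fun j _ => measurable_pi_apply j) measurable_const

lemma indep_FW {E : ℕ → Set Ω} (hE : ∀ n, MeasurableSet (E n)) (hind : iIndepSet E μ)
    (c d : ℝ) {m n : ℕ} (h : m + len d m ≤ n) :
    μ.real (FW E c d m ∩ FW E c d n) = μ.real (FW E c d m) * μ.real (FW E c d n) := by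
  have hdisj : Disjoint (Finset.Ioc m (m + len d m)) (Finset.Ioc n (n + len d n)) := by
    rw [Finset.disjoint_left]
    intro j h1 h2
    rw [Finset.mem_Ioc] at h1 h2
    omega
  have hf : iIndepFun (ind E) μ := hind.iIndepFun_indicator
  have h1 := hf.indepFun_finset _ _ hdisj (measurable_ind hE)
  have h2 := h1.measure_inter_preimage_eq_mul
    {f : Finset.Ioc m (m + len d m) → ℝ | ∑ j, f j ≤ (⌊c * Real.log (m : ℝ)⌋₊ : ℝ)}
    {f : Finset.Ioc n (n + len d n) → ℝ | ∑ j, f j ≤ (⌊c * Real.log (n : ℝ)⌋₊ : ℝ)}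
    (measurableSet_sum_le _) (measurableSet_sum_le _)
  rw [FW_eq E c d m, FW_eq E c d n]
  simp only [Measure.real]
  rw [← ENNReal.toReal_mul]
  congr 1

lemma mgf_ind [IsProbabilityMeasure μ] {E : ℕ → Set Ω} (hE : ∀ n, MeasurableSet (E n)) (j : ℕ)
    (t : ℝ) : mgf (ind E j) μ t = 1 + (Real.exp t - 1) * μ.real (E j) := by
  unfold mgf
  have h : (fun ω => Real.exp (t * ind E j ω)) =
      fun ω => 1 + (E j).indicator (fun _ => Real.exp t - 1) ω := by
    funext ω
    unfold ind
    by_cases h : ω ∈ E j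
    · simp [h]
    · simp [h]
  rw [h, integral_add (integrable_const 1) ((integrable_const _).indicator (hE j)),
    integral_indicator_const _ (hE j)]
  simp [mul_comm]

/-- Chernoff's bound for a window -/
lemma prob_FW_le [IsProbabilityMeasure μ] {E : ℕ → Set Ω} (hE : ∀ n, MeasurableSet (E n))
    (hind : iIndepSet E μ) {c d s : ℝ} (hs0 : 0 < s) (hs1 : s < 1) (m : ℕ) :
    μ.real (FW E c d m) ≤ Real.exp (-Real.log s * (⌊c * Real.log (m : ℝ)⌋₊ : ℝ) -
      (1 - s) * ∑ j ∈ Finset.Ioc m (m + len d m), μ.real (E j)) := by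
  have hlog : Real.log s ≤ 0 := Real.log_nonpos hs0.le hs1.le
  set S : Finset ℕ := Finset.Ioc m (m + len d m) with hS
  have hf : iIndepFun (ind E) μ := hind.iIndepFun_indicator
  have hbd : ∀ ω, ∀ j, ind E j ω = 0 ∨ ind E j ω = 1 := by
    intro ω j
    unfold ind
    by_cases h : ω ∈ E j
    · simp [h]
    · simp [h]
  have hint : Integrable (fun ω => Real.exp (Real.log s * (∑ j ∈ S, ind E j) ω)) μ := by
    apply Integrable.of_bound (C := 1)
    · apply Measurable.aestronglyMeasurable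
      apply Real.measurable_exp.comp
      apply Measurable.const_mul
      have : (∑ j ∈ S, ind E j) = fun ω => ∑ j ∈ S, ind E j ω := by
        funext ω
        rw [Finset.sum_apply]
      rw [this]
      exact Finset.measurable_sum _ fun j _ => measurable_ind hE j
    · filter_upwards with ω
      rw [Real.norm_eq_abs, abs_of_pos (Real.exp_pos _), Real.exp_le_one_iff]
      apply mul_nonpos_of_nonpos_of_nonneg hlog
      rw [Finset.sum_apply]
      apply Finset.sum_nonneg
      intro j _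
      rcases hbd ω j with h | h <;> simp [h]
  have h1 := measure_le_le_exp_mul_mgf (μ := μ) (X := ∑ j ∈ S, ind E j)
    (⌊c * Real.log (m : ℝ)⌋₊ : ℝ) hlog hint
  rw [hf.mgf_sum (measurable_ind hE)] at h1
  have h2 : FW E c d m = {ω | (∑ j ∈ S, ind E j) ω ≤ (⌊c * Real.log (m : ℝ)⌋₊ : ℝ)} := by
    ext ω
    simp only [FW, Set.mem_ofPred_eq]
    rw [← Nat.cast_le (α := ℝ), cnt_eq_sum, Finset.sum_apply]
  rw [h2]
  refine h1.trans ?_
  rw [sub_eq_add_neg, Real.exp_add]
  apply mul_le_mul_of_nonneg_left _ (Real.exp_pos _).le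
  rw [← neg_mul, Finset.mul_sum, Real.exp_sum]
  apply Finset.prod_le_prod
  · intro j _
    exact mgf_nonneg
  · intro j _
    rw [mgf_ind hE, Real.exp_log hs0]
    have := Real.add_one_le_exp (-(1 - s) * μ.real (E j))
    linarith

/-- the expected number of points of a window -/
lemma window_sum_ge {E : ℕ → Set Ω}
    (hlim : Tendsto (fun n : ℕ => μ.real (E n) * Real.log (n : ℝ)) atTop (𝓝 1))
    {d η : ℝ} (hd : 0 < d) (hη0 : 0 < η) :
    ∀ᶠ m : ℕ in atTop, (1 - η) * (d * Real.log (m : ℝ)) ≤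
      ∑ j ∈ Finset.Ioc m (m + len d m), μ.real (E j) := by
  rcases le_or_gt 1 η with h1η | hη1
  · filter_upwards with m
    have h1 : 0 ≤ Real.log (m : ℝ) := Real.log_natCast_nonneg m
    have h2 : (1 - η) * (d * Real.log (m : ℝ)) ≤ 0 :=
      mul_nonpos_of_nonpos_of_nonneg (by linarith) (by positivity)
    exact h2.trans (Finset.sum_nonneg fun _ _ => measureReal_nonneg)
  set ε : ℝ := η / 4 with hε
  have hε0 : 0 < ε := by positivity
  have hev := hlim.eventually_const_le (show 1 - ε < 1 by linarith)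
  obtain ⟨N, hN⟩ := eventually_atTop.1 hev
  have hlogT : Tendsto (fun m : ℕ => Real.log (m : ℝ)) atTop atTop :=
    Real.tendsto_log_atTop.comp tendsto_natCast_atTop_atTop
  have hlogT2 : Tendsto (fun m : ℕ => Real.log (m : ℝ) ^ 2) atTop atTop :=
    (tendsto_pow_atTop two_ne_zero).comp hlogT
  filter_upwards [log_window hd.le hε0, eventually_ge_atTop N, eventually_ge_atTop 2,
    hlogT2.eventually_ge_atTop (1 / (ε * d))] with m hm1 hmN hm2 hm3
  have hm2' : (2 : ℝ) ≤ m := by exact_mod_cast hm2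
  have hl : 0 < Real.log (m : ℝ) := Real.log_pos (by linarith)
  have hterm : ∀ j ∈ Finset.Ioc m (m + len d m),
      (1 - ε) / ((1 + ε) * Real.log (m : ℝ)) ≤ μ.real (E j) := by
    intro j hj
    rw [Finset.mem_Ioc] at hj
    have h1 := hm1 j hj.1.le hj.2
    have h2 := hN j (by omega)
    have hj2 : (2 : ℝ) ≤ j := by
      have : (m : ℝ) ≤ j := by exact_mod_cast hj.1.le
      linarith
    have hlj : 0 < Real.log (j : ℝ) := Real.log_pos (by linarith)
    have h3 : Real.log (j : ℝ) ≤ (1 + ε) * Real.log (m : ℝ) := by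
      apply le_of_sq_le_sq _ (by positivity)
      refine h1.trans ?_
      rw [mul_pow]
      apply mul_le_mul_of_nonneg_right _ (by positivity)
      nlinarith
    rw [div_le_iff₀ (by positivity)]
    refine h2.trans ?_
    exact mul_le_mul_of_nonneg_left h3 measureReal_nonneg
  have hsum := Finset.card_nsmul_le_sum _ _ _ hterm
  rw [Nat.card_Ioc, nsmul_eq_mul] at hsum
  have h1 : m + len d m - m = len d m := by omega
  rw [h1] at hsum
  refine le_trans ?_ hsum
  have hlen := lt_len d m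
  have hlen2 : (1 - ε) * (d * Real.log (m : ℝ) ^ 2) ≤ len d m := by
    have : 1 ≤ ε * d * Real.log (m : ℝ) ^ 2 := by
      rw [div_le_iff₀ (by positivity)] at hm3
      linarith
    nlinarith
  have h4 : 0 < (1 - ε) / ((1 + ε) * Real.log (m : ℝ)) := by
    apply div_pos
    · linarith
    · positivity
  calc (1 - η) * (d * Real.log (m : ℝ))
      ≤ (1 - ε) * (1 - ε) / (1 + ε) * (d * Real.log (m : ℝ)) := by
        apply mul_le_mul_of_nonneg_right _ (by positivity)
        rw [le_div_iff₀ (by positivity)]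
        have : η = 4 * ε := by rw [hε]; ring
        nlinarith
    _ = (1 - ε) * (d * Real.log (m : ℝ) ^ 2) * ((1 - ε) / ((1 + ε) * Real.log (m : ℝ))) := by
        field_simp
    _ ≤ _ := mul_le_mul_of_nonneg_right hlen2 h4.le

/-- Upper bound (Chernoff and Borel-Cantelli): all far windows have more than `c log m` points. -/
theorem ae_eventually_cnt [IsProbabilityMeasure μ] {E : ℕ → Set Ω}
    (hE : ∀ n, MeasurableSet (E n)) (hind : iIndepSet E μ)
    (hlim : Tendsto (fun n : ℕ => μ.real (E n) * Real.log (n : ℝ)) atTop (𝓝 1))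
    {c d s : ℝ} (hc : 0 ≤ c) (hd : 0 < d) (hs0 : 0 < s) (hs1 : s < 1)
    (h : 1 < (1 - s) * d + c * Real.log s) :
    ∀ᵐ ω ∂μ, ∀ᶠ m : ℕ in atTop, ⌊c * Real.log (m : ℝ)⌋₊ < cnt {n | ω ∈ E n} m (len d m) := by
  obtain ⟨η, hη0, hη⟩ : ∃ η : ℝ, 0 < η ∧ 1 < (1 - s) * ((1 - η) * d) + c * Real.log s := by
    have hcont : ContinuousAt (fun η : ℝ => (1 - s) * ((1 - η) * d) + c * Real.log s) 0 := by
      fun_prop
    have h1 : ∀ᶠ η in 𝓝 (0 : ℝ), 1 < (1 - s) * ((1 - η) * d) + c * Real.log s := by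
      apply hcont.eventually_const_lt
      simpa using h
    have h2 := h1.filter_mono (nhdsWithin_le_nhds (s := Set.Ioi 0))
    obtain ⟨η, h4, h5⟩ := (h2.and self_mem_nhdsWithin).exists
    exact ⟨η, h5, h4⟩
  set a : ℝ := (1 - s) * ((1 - η) * d) + c * Real.log s with ha
  have hlogs : Real.log s ≤ 0 := Real.log_nonpos hs0.le hs1.le
  have hbound : ∀ᶠ m : ℕ in atTop, μ.real (FW E c d m) ≤ (m : ℝ) ^ (-a) := by
    filter_upwards [window_sum_ge hlim hd hη0, eventually_ge_atTop 1] with m hm hm1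
    have hm0 : (0 : ℝ) < m := by exact_mod_cast hm1
    refine (prob_FW_le hE hind hs0 hs1 m).trans ?_
    rw [Real.rpow_def_of_pos hm0]
    apply Real.exp_le_exp.2
    have hl : 0 ≤ Real.log (m : ℝ) := Real.log_natCast_nonneg m
    have h1 : (⌊c * Real.log (m : ℝ)⌋₊ : ℝ) ≤ c * Real.log (m : ℝ) :=
      Nat.floor_le (by positivity)
    have h2 : -Real.log s * (⌊c * Real.log (m : ℝ)⌋₊ : ℝ) ≤ -Real.log s * (c * Real.log (m : ℝ)) :=
      mul_le_mul_of_nonneg_left h1 (by linarith)
    have h3 : (1 - s) * ((1 - η) * (d * Real.log (m : ℝ))) ≤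
        (1 - s) * ∑ j ∈ Finset.Ioc m (m + len d m), μ.real (E j) :=
      mul_le_mul_of_nonneg_left hm (by linarith)
    rw [ha]
    nlinarith
  have hsum : Summable fun m : ℕ => μ.real (FW E c d m) := by
    have h1 : Summable fun m : ℕ => (m : ℝ) ^ (-a) := Real.summable_nat_rpow.2 (by linarith)
    refine summable_of_isBigO_nat h1 ?_
    apply Asymptotics.IsBigO.of_bound 1
    filter_upwards [hbound] with m hm
    rw [Real.norm_eq_abs, abs_of_nonneg measureReal_nonneg, one_mul]
    exact hm.trans (le_abs_self _)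
  have hsum2 : ∑' m : ℕ, μ (FW E c d m) ≠ ∞ := by
    have := hsum.tsum_ofReal_ne_top
    refine ne_of_eq_of_ne ?_ this
    apply tsum_congr
    intro m
    rw [Measure.real, ENNReal.ofReal_toReal (measure_ne_top _ _)]
  filter_upwards [ae_eventually_notMem hsum2] with ω hω
  filter_upwards [hω] with m hm
  unfold FW at hm
  simpa using hm

/-- Lower bound (second moment): infinitely many windows have at most `c log m` points as soon as
the probability of this event is at least `m^(-(1-δ))`. -/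
theorem ae_frequently_cnt [IsProbabilityMeasure μ] {E : ℕ → Set Ω}
    (hE : ∀ n, MeasurableSet (E n)) (hind : iIndepSet E μ) {c d δ : ℝ} (hd : 0 ≤ d) (hδ : 0 < δ)
    (hlow : ∀ᶠ m : ℕ in atTop, (m : ℝ) ^ (-(1 - δ)) ≤ μ.real (FW E c d m)) :
    ∀ᵐ ω ∂μ, ∃ᶠ m : ℕ in atTop,
      cnt {n | ω ∈ E n} m (len d m) ≤ ⌊c * Real.log (m : ℝ)⌋₊ := by
  have h := frequently_of_second_moment (μ := μ) (W := wt) (A := FW E c d) (ℓ := len d) (C := d)
    (measurableSet_FW hE c d) wt_nonneg
    (fun m n _ hmn => (indep_FW hE hind c d hmn).le)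
    (by
      intro m n hmn hn
      rcases lt_or_ge m 2 with hm | hm
      · rw [len_zero_of_lt hm] at hn
        omega
      · exact wt_anti hm hmn)
    (len_mul_wt hd)
    (by
      have hnn : ∀ m : ℕ, 0 ≤ wt m * μ.real (FW E c d m) := fun m =>
        mul_nonneg (wt_nonneg m) measureReal_nonneg
      rw [← not_summable_iff_tendsto_nat_atTop_of_nonneg hnn]
      intro hs
      -- compare with the harmonic series
      have hlog : ∀ᶠ m : ℕ in atTop, Real.log (m : ℝ) ^ 2 ≤ (m : ℝ) ^ δ := by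
        have h1 := (isLittleO_log_rpow_atTop (show 0 < δ / 2 by positivity))
        have h2 := (h1.bound one_pos)
        filter_upwards [(tendsto_natCast_atTop_atTop (R := ℝ)).eventually h2,
          eventually_ge_atTop 1] with m hm hm1
        have hm0 : (0 : ℝ) < m := by exact_mod_cast hm1
        rw [Real.norm_eq_abs, Real.norm_eq_abs, one_mul,
          abs_of_nonneg (Real.log_natCast_nonneg m),
          abs_of_nonneg (Real.rpow_nonneg hm0.le _)] at hm
        calc Real.log (m : ℝ) ^ 2 ≤ ((m : ℝ) ^ (δ / 2)) ^ 2 :=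
              pow_le_pow_left₀ (Real.log_natCast_nonneg m) hm 2
          _ = (m : ℝ) ^ δ := by
              rw [← Real.rpow_natCast, ← Real.rpow_mul hm0.le]
              congr 1
              push_cast
              ring
      apply Real.not_summable_natCast_inv
      refine summable_of_isBigO_nat hs ?_
      apply Asymptotics.IsBigO.of_bound 1
      filter_upwards [hlow, hlog, eventually_ge_atTop 2] with m hm1 hm2 hm3
      have hm3' : (2 : ℝ) ≤ m := by exact_mod_cast hm3
      have hm0 : (0 : ℝ) < m := by linarith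
      have hl : 0 < Real.log (m : ℝ) := Real.log_pos (by linarith)
      rw [Real.norm_eq_abs, Real.norm_eq_abs, one_mul, abs_of_nonneg (by positivity),
        abs_of_nonneg (hnn m)]
      unfold wt
      calc ((m : ℝ))⁻¹ = ((m : ℝ) ^ δ)⁻¹ * (m : ℝ) ^ (-(1 - δ)) := by
            rw [← Real.rpow_neg hm0.le, ← Real.rpow_add hm0, ← Real.rpow_neg_one]
            congr 1
            ring
        _ ≤ (Real.log (m : ℝ) ^ 2)⁻¹ * μ.real (FW E c d m) := by
            apply mul_le_mul _ hm1 (by positivity) (by positivity)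
            exact inv_anti₀ (by positivity) hm2)
  filter_upwards [h] with ω hω
  exact hω

end Pool.Agent.LibCramer
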