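import Mathlib

/-!
The rate function `d - c - c log (d/c)` and its root.
-/

namespace Pool.Agent.LibCramer

open Filter Topology

/-- the rate function -/
noncomputable def rate (c d : ℝ) : ℝ := d - c - c * Real.log (d / c)

lemma rate_eq {c d : ℝ} (hc : 0 ≤ c) (hd : 0 < d) :
    rate c d = d - c - c * Real.log d + c * Real.log c := by
  unfold rate
  rcases hc.eq_or_lt with h | h
  · rw [← h]; simp
  · rw [Real.log_div hd.ne' h.ne']; ring

lemma rate_zero (d : ℝ) : rate 0 d = d := by simp [rate]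

lemma rate_strictMono {c d d' : ℝ} (hc : 0 ≤ c) (hcd : c < d) (h : d < d') :
    rate c d < rate c d' := by
  have hd : 0 < d := lt_of_le_of_lt hc hcd
  have hd' : 0 < d' := hd.trans h
  rw [rate_eq hc hd, rate_eq hc hd']
  have h1 : Real.log d' - Real.log d ≤ d' / d - 1 := by
    rw [← Real.log_div hd'.ne' hd.ne']
    exact Real.log_le_sub_one_of_pos (by positivity)
  have h2 : c * (Real.log d' - Real.log d) ≤ c * (d' / d - 1) := mul_le_mul_of_nonneg_left h1 hc
  have h3 : c * (d' / d - 1) < d' - d := by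
    rw [div_sub_one hd.ne', mul_div_assoc', div_lt_iff₀ hd]
    nlinarith
  linarith

lemma continuousOn_rate : ContinuousOn (fun p : ℝ × ℝ => p.2 - p.1 - p.1 * Real.log p.2 +
    p.1 * Real.log p.1) {p | 0 < p.2} := by
  have h1 : ContinuousOn (fun p : ℝ × ℝ => Real.log p.2) {p | 0 < p.2} := by
    apply ContinuousOn.log continuousOn_snd
    intro p hp
    exact (ne_of_gt hp)
  have h2 : Continuous (fun p : ℝ × ℝ => p.1 * Real.log p.1) :=
    Real.continuous_mul_log.comp continuous_fst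
  exact ((continuousOn_snd.sub continuousOn_fst).sub (continuousOn_fst.mul h1)).add h2.continuousOn

/-- rational points just above -/
lemma exists_rat_above {c d : ℝ} (hc : 0 ≤ c) (hcd : c < d) (h : 1 < rate c d) :
    ∃ c' d' : ℚ, c < c' ∧ (c' : ℝ) < d' ∧ (d' : ℝ) ≤ d ∧ 1 < rate c' d' := by
  have hd : 0 < d := lt_of_le_of_lt hc hcd
  have hev : ∀ᶠ p : ℝ × ℝ in 𝓝 (c, d), 1 < p.2 - p.1 - p.1 * Real.log p.2 + p.1 * Real.log p.1 := by
    have := (continuousOn_rate (c, d) (Set.mem_ofPred_eq ▸ hd)).continuousAt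
      ((isOpen_lt continuous_const continuous_snd).mem_nhds hd)
    apply this.eventually_const_lt
    rwa [rate_eq hc hd] at h
  have hev2 : ∀ᶠ p : ℝ × ℝ in 𝓝 (c, d), p.1 < p.2 :=
    (isOpen_lt continuous_fst continuous_snd).mem_nhds hcd
  rw [nhds_prod_eq] at hev hev2
  obtain ⟨pa, hpa, pb, hpb, hp⟩ := eventually_prod_iff.1 (hev.and hev2)
  have h1 : ∀ᶠ x in 𝓝[>] c, pa x := hpa.filter_mono nhdsWithin_le_nhds
  have h2 : ∀ᶠ x in 𝓝[<] d, pb x ∧ 0 < x := by
    refine (hpb.filter_mono nhdsWithin_le_nhds).and ?_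
    exact (eventually_gt_nhds hd).filter_mono nhdsWithin_le_nhds
  obtain ⟨u, hu, hu'⟩ := (mem_nhdsGT_iff_exists_Ioo_subset).1 h1
  obtain ⟨v, hv, hv'⟩ := (mem_nhdsLT_iff_exists_Ioo_subset).1 h2
  obtain ⟨c', hc1, hc2⟩ := exists_rat_btwn (Set.mem_Ioi.1 hu)
  obtain ⟨d', hd1, hd2⟩ := exists_rat_btwn (Set.mem_Iio.1 hv)
  have h3 := hu' ⟨hc1, hc2⟩
  have h4 := hv' ⟨hd1, hd2⟩
  have h5 := hp h3 h4.1
  refine ⟨c', d', hc1, h5.2, hd2.le, ?_⟩
  rw [rate_eq (hc.trans hc1.le) h4.2]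
  exact h5.1

/-- rational points just below -/
lemma exists_rat_below {c d : ℝ} (hc : 0 ≤ c) (hcd : c < d) (h : rate c d < 1) :
    ∃ c' d' : ℚ, 0 ≤ (c' : ℝ) ∧ ((c' : ℝ) < c ∨ (c' : ℝ) = 0) ∧ (c' : ℝ) < d' ∧ d ≤ (d' : ℝ) ∧
      rate c' d' < 1 := by
  have hd : 0 < d := lt_of_le_of_lt hc hcd
  rcases hc.eq_or_lt with h0 | h0
  · rw [← h0, rate_zero] at h
    obtain ⟨d', hd1, hd2⟩ := exists_rat_btwn h
    refine ⟨0, d', by simp, Or.inr (by simp), ?_, hd1.le, ?_⟩
    · rw [Rat.cast_zero]; exact hd.trans hd1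
    · rw [Rat.cast_zero, rate_zero]; exact hd2
  have hev : ∀ᶠ p : ℝ × ℝ in 𝓝 (c, d), p.2 - p.1 - p.1 * Real.log p.2 + p.1 * Real.log p.1 < 1 := by
    have := (continuousOn_rate (c, d) (Set.mem_ofPred_eq ▸ hd)).continuousAt
      ((isOpen_lt continuous_const continuous_snd).mem_nhds hd)
    apply this.eventually_lt_const
    rwa [rate_eq hc hd] at h
  have hev2 : ∀ᶠ p : ℝ × ℝ in 𝓝 (c, d), p.1 < p.2 :=
    (isOpen_lt continuous_fst continuous_snd).mem_nhds hcd
  rw [nhds_prod_eq] at hev hev2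
  obtain ⟨pa, hpa, pb, hpb, hp⟩ := eventually_prod_iff.1 (hev.and hev2)
  have h1 : ∀ᶠ x in 𝓝[<] c, pa x ∧ 0 < x := by
    refine (hpa.filter_mono nhdsWithin_le_nhds).and ?_
    exact (eventually_gt_nhds h0).filter_mono nhdsWithin_le_nhds
  have h2 : ∀ᶠ x in 𝓝[>] d, pb x := hpb.filter_mono nhdsWithin_le_nhds
  obtain ⟨u, hu, hu'⟩ := (mem_nhdsLT_iff_exists_Ioo_subset).1 h1
  obtain ⟨v, hv, hv'⟩ := (mem_nhdsGT_iff_exists_Ioo_subset).1 h2
  obtain ⟨c', hc1, hc2⟩ := exists_rat_btwn (Set.mem_Iio.1 hu)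
  obtain ⟨d', hd1, hd2⟩ := exists_rat_btwn (Set.mem_Ioi.1 hv)
  have h3 := hu' ⟨hc1, hc2⟩
  have h4 := hv' ⟨hd1, hd2⟩
  have h5 := hp h3.1 h4
  refine ⟨c', d', h3.2.le, Or.inl hc2, h5.2, hd1.le, ?_⟩
  rw [rate_eq h3.2.le (hd.trans hd1)]
  exact h5.1

/-- the root -/
lemma exists_root {c : ℝ} (hc : 0 ≤ c) : ∃ l : ℝ, c < l ∧ rate c l = 1 := by
  rcases hc.eq_or_lt with h0 | h0
  · exact ⟨1, by rw [← h0]; exact one_pos, by rw [← h0, rate_zero]⟩
  -- the value at `2c + 8` is large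
  have hcont : ContinuousOn (fun d => rate c d) (Set.Icc c (4 * c + 4)) := by
    have h1 : ContinuousOn (fun d : ℝ => d - c - c * Real.log d + c * Real.log c)
        (Set.Icc c (4 * c + 4)) := by
      have : ContinuousOn (fun d : ℝ => Real.log d) (Set.Icc c (4 * c + 4)) := by
        apply ContinuousOn.log continuousOn_id
        intro x hx
        have := hx.1
        exact (ne_of_gt (by simp only [id]; linarith))
      fun_prop
    refine h1.congr fun d hd => ?_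
    exact rate_eq hc (lt_of_lt_of_le h0 hd.1)
  have h1 : rate c c = 0 := by
    unfold rate
    rw [div_self h0.ne', Real.log_one]; ring
  have h2 : 1 ≤ rate c (4 * c + 4) := by
    unfold rate
    have h3 : Real.log ((4 * c + 4) / c) ≤ 2 * Real.log 2 + 1 / c := by
      have : (4 * c + 4) / c = 2 ^ 2 * (1 + 1 / c) := by field_simp; ring
      rw [this, Real.log_mul (by norm_num) (by positivity), Real.log_pow]
      have := Real.log_le_sub_one_of_pos (show 0 < 1 + 1 / c by positivity)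
      push_cast
      linarith
    have h4 : c * Real.log ((4 * c + 4) / c) ≤ c * (2 * Real.log 2 + 1 / c) :=
      mul_le_mul_of_nonneg_left h3 hc
    have h5 : c * (2 * Real.log 2 + 1 / c) = c * (2 * Real.log 2) + 1 := by
      field_simp
    have h6 := Real.log_two_lt_d9
    nlinarith
  have h3 := intermediate_value_Icc (show c ≤ 4 * c + 4 by linarith) hcont
  rw [h1] at h3
  obtain ⟨l, hl, hl2⟩ := h3 ⟨by norm_num, h2⟩
  have hl3 : rate c l = 1 := hl2
  refine ⟨l, lt_of_le_of_ne hl.1 ?_, hl3⟩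
  rintro rfl
  rw [h1] at hl3
  norm_num at hl3

lemma existsUnique_root {c : ℝ} (hc : 0 ≤ c) : ∃! l : ℝ, c < l ∧ rate c l = 1 := by
  obtain ⟨l, hl1, hl2⟩ := exists_root hc
  refine ⟨l, ⟨hl1, hl2⟩, ?_⟩
  rintro l' ⟨h1, h2⟩
  rcases lt_trichotomy l l' with h | h | h
  · have := rate_strictMono hc hl1 h
    linarith
  · exact h.symm
  · have := rate_strictMono hc h1 h
    linarith

end Pool.Agent.LibCramer
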