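import Pool.Agent.LibCramer.LowerTail
import Pool.Agent.LibCramer.RunModel
import Pool.Agent.LibCramer.RunRate

/-!
The probability that a window has few points in Cramer's model: `m ^ (- rate + o(1))`.
-/

namespace Pool.Agent.LibCramer.LowerTail

open Filter Topology MeasureTheory ProbabilityTheory
open Pool.Agent.LibCramer
open scoped ENNReal NNReal

/-- Binomial lower tail at logarithmic scale, any exponent. -/
theorem choose_lower_gen {c l b : ℝ} (hc : 0 < c) (hcl : c < l)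
    (hI : l - c - c * Real.log (l / c) < b) :
    ∃ ε : ℝ, 0 < ε ∧ ε < 1 ∧ ∀ᶠ m : ℕ in atTop, (m : ℝ) ^ (-b) ≤
      ((len l m).choose ⌊c * Real.log (m : ℝ)⌋₊ : ℝ) *
        ((1 - ε) / Real.log ((m : ℝ) + len l m)) ^ ⌊c * Real.log (m : ℝ)⌋₊ *
        (1 - (1 + ε) / Real.log (m : ℝ)) ^ len l m := by
  have hl : 0 < l := hc.trans hcl
  -- choice of `ε`
  obtain ⟨ε, hε0, hε1, hε⟩ : ∃ ε : ℝ, 0 < ε ∧ ε < 1 ∧
      -b < c * (Real.log (l / c * (1 - ε)) + 1) + l * (-(1 + ε)) := by
    have hcont : Tendsto (fun ε : ℝ => c * (Real.log (l / c * (1 - ε)) + 1) + l * (-(1 + ε)))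
        (𝓝[>] 0) (𝓝 (c * (Real.log (l / c * (1 - 0)) + 1) + l * (-(1 + 0)))) := by
      have : ContinuousAt (fun ε : ℝ => c * (Real.log (l / c * (1 - ε)) + 1) + l * (-(1 + ε))) 0 := by
        have h1 : ContinuousAt (fun ε : ℝ => Real.log (l / c * (1 - ε))) 0 := by
          apply ContinuousAt.log (by fun_prop)
          have : 0 < l / c * (1 - 0) := by rw [sub_zero, mul_one]; positivity
          exact this.ne'
        fun_prop
      exact this.tendsto.mono_left nhdsWithin_le_nhds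
    have hval : -b < c * (Real.log (l / c * (1 - 0)) + 1) + l * (-(1 + 0)) := by
      rw [sub_zero, mul_one]; linarith
    have h1 : ∀ᶠ ε : ℝ in 𝓝[>] 0, ε ∈ Set.Ioo 0 1 := Ioo_mem_nhdsGT one_pos
    obtain ⟨ε, h2, h3⟩ := (h1.and (hcont.eventually_const_lt hval)).exists
    exact ⟨ε, h2.1, h2.2, h3⟩
  set G := c * (Real.log (l / c * (1 - ε)) + 1) + l * (-(1 + ε)) with hG
  refine ⟨ε, hε0, hε1, ?_⟩
  -- the normalised logarithm
  set F : ℕ → ℝ := fun m =>
    ((⌊c * Real.log (m : ℝ)⌋₊ : ℝ) / Real.log (m : ℝ)) *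
      (Real.log ((((len l m : ℝ) / Real.log (m : ℝ) ^ 2) + 1 / Real.log (m : ℝ) ^ 2 -
          ((⌊c * Real.log (m : ℝ)⌋₊ : ℝ) / Real.log (m : ℝ)) * (1 / Real.log (m : ℝ))) /
        (((⌊c * Real.log (m : ℝ)⌋₊ : ℝ) / Real.log (m : ℝ)) *
          (Real.log ((m : ℝ) + len l m) / Real.log (m : ℝ))) * (1 - ε)) + 1)
      - (Real.log (⌊c * Real.log (m : ℝ)⌋₊ : ℝ) / Real.log (m : ℝ) + 1 / Real.log (m : ℝ))
      + ((len l m : ℝ) / Real.log (m : ℝ) ^ 2) *
        (Real.log (m : ℝ) * Real.log (1 + (-(1 + ε)) / Real.log (m : ℝ))) with hF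
  have hinv := tendsto_inv_logn
  have hinv2 : Tendsto (fun m : ℕ => 1 / Real.log (m : ℝ) ^ 2) atTop (𝓝 0) := by
    simp only [one_div]
    exact ((tendsto_pow_atTop two_ne_zero).comp tendsto_logn).inv_tendsto_atTop
  have hk := tendsto_floor_div hc.le
  have hlen := tendsto_len_div hl.le
  have hlogk : Tendsto (fun m : ℕ => Real.log (⌊c * Real.log (m : ℝ)⌋₊ : ℝ) / Real.log (m : ℝ))
      atTop (𝓝 0) := by
    -- `log k / log m = (log k / k) * (k / log m)`
    have h1 : Tendsto (fun m : ℕ => ⌊c * Real.log (m : ℝ)⌋₊) atTop atTop :=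
      tendsto_nat_floor_atTop.comp (tendsto_logn.const_mul_atTop hc)
    have h2 : Tendsto (fun x : ℝ => Real.log x / x) atTop (𝓝 0) :=
      Real.isLittleO_log_id_atTop.tendsto_div_nhds_zero
    have h3 := (h2.comp (tendsto_natCast_atTop_atTop.comp h1)).mul hk
    rw [zero_mul] at h3
    refine h3.congr' ?_
    filter_upwards [h1.eventually_ge_atTop 1] with m hm
    have : (0 : ℝ) < (⌊c * Real.log (m : ℝ)⌋₊ : ℝ) := by exact_mod_cast hm
    simp only [Function.comp_apply]
    field_simp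
  have hlim : Tendsto F atTop (𝓝 (c * (Real.log ((l + 0 - c * 0) / (c * 1) * (1 - ε)) + 1) - (0 + 0)
      + l * (-(1 + ε)))) := by
    refine ((hk.mul (((Tendsto.log ?_ ?_)).add_const 1)).sub (hlogk.add hinv)).add
      (hlen.mul ?_)
    · exact (((hlen.add hinv2).sub (hk.mul hinv)).div
        (hk.mul (tendsto_log_add_len_div hl.le)) (by simpa using hc.ne')).mul_const _
    · have : 0 < (l + 0 - c * 0) / (c * 1) * (1 - ε) := by
        simp only [mul_zero, add_zero, sub_zero, mul_one]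
        have : 0 < 1 - ε := by linarith
        positivity
      exact this.ne'
    · exact (Real.tendsto_mul_log_one_add_div_atTop (-(1 + ε))).comp tendsto_logn
  have hval : c * (Real.log ((l + 0 - c * 0) / (c * 1) * (1 - ε)) + 1) - (0 + 0)
      + l * (-(1 + ε)) = G := by
    simp only [mul_zero, add_zero, sub_zero, mul_one, hG]
  rw [hval] at hlim
  have hev := hlim.eventually_const_le (u := -b) hε
  have h1 : Tendsto (fun m : ℕ => ⌊c * Real.log (m : ℝ)⌋₊) atTop atTop :=
    tendsto_nat_floor_atTop.comp (tendsto_logn.const_mul_atTop hc)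
  -- eventually `k ≤ len`
  have hkl : ∀ᶠ m : ℕ in atTop, ⌊c * Real.log (m : ℝ)⌋₊ ≤ len l m := by
    filter_upwards [tendsto_logn.eventually_ge_atTop 1] with m hm
    apply Nat.floor_mono
    have : Real.log (m : ℝ) ≤ Real.log (m : ℝ) ^ 2 := by nlinarith
    calc c * Real.log (m : ℝ) ≤ l * Real.log (m : ℝ) := by gcongr
      _ ≤ l * Real.log (m : ℝ) ^ 2 := by gcongr
  filter_upwards [hev, h1.eventually_ge_atTop 1, hkl, tendsto_logn.eventually_ge_atTop 4,
    eventually_ge_atTop 3] with m hFm hk1 hkl hlog hm3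
  set L := Real.log (m : ℝ) with hL
  set k := ⌊c * L⌋₊ with hkdef
  have hm' : (3 : ℝ) ≤ m := by exact_mod_cast hm3
  have hmp : (0 : ℝ) < m := by linarith
  have hLpos : 0 < L := by linarith
  have hkpos : (0 : ℝ) < k := by exact_mod_cast hk1
  have hML : L ≤ Real.log ((m : ℝ) + len l m) := by
    rw [hL]
    apply Real.log_le_log hmp
    have : (0 : ℝ) ≤ len l m := by positivity
    linarith
  set M := Real.log ((m : ℝ) + len l m) with hM
  have hMpos : 0 < M := by linarith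
  have hkln : (k : ℝ) ≤ len l m := by exact_mod_cast hkl
  have hchpos : (0 : ℝ) < ((len l m).choose k : ℝ) := by exact_mod_cast Nat.choose_pos hkl
  have he1 : 0 < 1 - ε := by linarith
  have hone : 0 < 1 - (1 + ε) / L := by
    have : (1 + ε) / L ≤ 2 / 4 := by gcongr; linarith
    linarith
  -- take logarithms
  rw [← Real.log_le_log_iff (by positivity) (by positivity)]
  rw [Real.log_rpow hmp, Real.log_mul (by positivity) (by positivity),
    Real.log_mul hchpos.ne' (by positivity), Real.log_pow, Real.log_pow]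
  have hch := log_choose_ge (len l m) k hk1 hkl
  have hlog1 : Real.log ((1 - ε) / M) = Real.log (1 - ε) - Real.log M :=
    Real.log_div he1.ne' hMpos.ne'
  rw [hlog1, ← hL]
  have hge : (-b) * L ≤ F m * L := by gcongr
  refine hge.trans ?_
  -- `F m * L` in terms of `k, len, M`
  have hFL : F m * L = k * Real.log ((len l m : ℝ) + 1 - k) - (k * Real.log k - k + Real.log k + 1)
      + k * (Real.log (1 - ε) - Real.log M) + len l m * Real.log (1 - (1 + ε) / L) := by
    have hposn : (0 : ℝ) < (len l m : ℝ) + 1 - k := by linarith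
    have e1 : (((len l m : ℝ) / L ^ 2) + 1 / L ^ 2 - ((k : ℝ) / L) * (1 / L)) /
        (((k : ℝ) / L) * (M / L)) = ((len l m : ℝ) + 1 - k) / (k * M) := by
      field_simp
    have e2 : Real.log (((len l m : ℝ) + 1 - k) / (k * M) * (1 - ε)) =
        Real.log ((len l m : ℝ) + 1 - k) - Real.log k - Real.log M + Real.log (1 - ε) := by
      rw [Real.log_mul (by positivity) he1.ne', Real.log_div hposn.ne' (by positivity),
        Real.log_mul hkpos.ne' hMpos.ne']
      ring
    have e3 : 1 + (-(1 + ε)) / L = 1 - (1 + ε) / L := by ring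
    simp only [hF]
    rw [← hL, ← hkdef, ← hM, e1, e2, e3]
    field_simp
    ring
  rw [hFL]
  linarith

/-- The empty window, any exponent. -/
theorem empty_lower_gen {l b : ℝ} (hl : 0 < l) (hI : l < b) :
    ∃ ε : ℝ, 0 < ε ∧ ε < 1 ∧ ∀ᶠ m : ℕ in atTop, (m : ℝ) ^ (-b) ≤
        (1 - (1 + ε) / Real.log (m : ℝ)) ^ len l m := by
  obtain ⟨ε, hε0, hε1, hε⟩ : ∃ ε : ℝ, 0 < ε ∧ ε < 1 ∧ -b < l * (-(1 + ε)) := by
    have h1 : ContinuousAt (fun ε : ℝ => l * (-(1 + ε))) 0 := by fun_prop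
    have h2 : ∀ᶠ ε in 𝓝 (0 : ℝ), -b < l * (-(1 + ε)) := by
      apply h1.eventually_const_lt
      show -b < l * (-(1 + 0))
      linarith
    have h3 : ∀ᶠ ε : ℝ in 𝓝[>] 0, ε ∈ Set.Ioo 0 1 := Ioo_mem_nhdsGT one_pos
    obtain ⟨ε, h4, h5⟩ := (h3.and (h2.filter_mono nhdsWithin_le_nhds)).exists
    exact ⟨ε, h4.1, h4.2, h5⟩
  set G := l * (-(1 + ε)) with hG
  refine ⟨ε, hε0, hε1, ?_⟩
  have hlim : Tendsto (fun m : ℕ => ((len l m : ℝ) / Real.log (m : ℝ) ^ 2) *
        (Real.log (m : ℝ) * Real.log (1 + (-(1 + ε)) / Real.log (m : ℝ)))) atTop (𝓝 G) :=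
    (tendsto_len_div hl.le).mul
      ((Real.tendsto_mul_log_one_add_div_atTop (-(1 + ε))).comp tendsto_logn)
  have hev := hlim.eventually_const_le (u := -b) hε
  filter_upwards [hev, tendsto_logn.eventually_ge_atTop 4, eventually_ge_atTop 3] with m hFm hlog hm3
  set L := Real.log (m : ℝ) with hL
  have hm' : (3 : ℝ) ≤ m := by exact_mod_cast hm3
  have hmp : (0 : ℝ) < m := by linarith
  have hLpos : 0 < L := by linarith
  have hone : 0 < 1 - (1 + ε) / L := by
    have : (1 + ε) / L ≤ 2 / 4 := by gcongr; linarith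
    linarith
  rw [← Real.log_le_log_iff (by positivity) (by positivity), Real.log_rpow hmp, Real.log_pow, ← hL]
  have e3 : 1 + (-(1 + ε)) / L = 1 - (1 + ε) / L := by ring
  rw [e3] at hFm
  calc (-b) * L ≤ (((len l m : ℝ) / L ^ 2) * (L * Real.log (1 - (1 + ε) / L))) * L := by
        gcongr
    _ = len l m * Real.log (1 - (1 + ε) / L) := by field_simp

open Classical in
theorem lower_tail_gen {Ω : Type*} [MeasurableSpace Ω] {μ : Measure Ω} [IsProbabilityMeasure μ]
    {E : ℕ → Set Ω} (hE : ∀ n, MeasurableSet (E n)) (hind : iIndepSet E μ) {q : ℕ → ℝ}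
    (hq : ∀ n, μ.real (E n) = q n) (hlim : Tendsto (fun n => q n * Real.log n) atTop (𝓝 1))
    {c d b : ℝ} (hc : 0 ≤ c) (hcd : c < d) (h : d - c - c * Real.log (d / c) < b) :
    ∀ᶠ m : ℕ in atTop, (m : ℝ) ^ (-b) ≤
      μ.real {ω | cnt {n | ω ∈ E n} m (len d m) ≤ ⌊c * Real.log (m : ℝ)⌋₊} := by
  have hq' : ∀ n, μ (E n) = ENNReal.ofReal (q n) := fun n => by
    rw [← hq n, Measure.real, ENNReal.ofReal_toReal (measure_ne_top _ _)]
  have hq0 : ∀ n, 0 ≤ q n := fun n => by rw [← hq n]; exact measureReal_nonneg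
  have hq1 : ∀ n, q n ≤ 1 := fun n => by rw [← hq n]; exact measureReal_le_one
  have hcnt : ∀ (ω : Ω) (m l : ℕ), cnt {n | ω ∈ E n} m l =
      ((Finset.Ioc m (m + l)).filter fun j => ω ∈ E j).card := by
    intro ω m l
    rw [cnt, ← Set.ncard_coe_finset]
    congr 1
    ext j
    simp [and_comm]
  simp only [hcnt]
  have hd : 0 < d := hc.trans_lt hcd
  -- bounds of `q`
  have hqb : ∀ ε : ℝ, 0 < ε → ε < 1 → ∀ᶠ m : ℕ in atTop, ∀ j ∈ Finset.Ioc m (m + len d m),
      (1 - ε) / Real.log ((m : ℝ) + len d m) ≤ q j ∧ q j ≤ (1 + ε) / Real.log (m : ℝ) := by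
    intro ε hε0 hε1
    have h1 : ∀ᶠ n : ℕ in atTop, 1 - ε < q n * Real.log n := hlim.eventually_const_lt (by linarith)
    have h2 : ∀ᶠ n : ℕ in atTop, q n * Real.log n < 1 + ε := hlim.eventually_lt_const (by linarith)
    obtain ⟨N, hN⟩ := eventually_atTop.1 (h1.and h2)
    filter_upwards [eventually_ge_atTop N, eventually_ge_atTop 3] with m hmN hm3 j hj
    rw [Finset.mem_Ioc] at hj
    have hm' : (3 : ℝ) ≤ m := by exact_mod_cast hm3
    have hj1 : (m : ℝ) < j := by exact_mod_cast hj.1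
    have hj2 : (j : ℝ) ≤ (m : ℝ) + len d m := by exact_mod_cast hj.2
    obtain ⟨h3, h4⟩ := hN j (by omega)
    have hlj : 0 < Real.log (j : ℝ) := Real.log_pos (by linarith)
    have hlm : 0 < Real.log (m : ℝ) := Real.log_pos (by linarith)
    constructor
    · calc (1 - ε) / Real.log ((m : ℝ) + len d m) ≤ (1 - ε) / Real.log (j : ℝ) := by
            apply div_le_div_of_nonneg_left (by linarith) hlj
            exact Real.log_le_log (by linarith) hj2
        _ ≤ q j := by rw [div_le_iff₀ hlj]; exact h3.le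
    · calc q j ≤ (1 + ε) / Real.log (j : ℝ) := by rw [le_div_iff₀ hlj]; exact h4.le
        _ ≤ (1 + ε) / Real.log (m : ℝ) := by
          apply div_le_div_of_nonneg_left (by linarith) hlm
          exact Real.log_le_log (by linarith) hj1.le
  have hcard : ∀ m : ℕ, (Finset.Ioc m (m + len d m)).card = len d m := fun m => by
    rw [Nat.card_Ioc]; omega
  rcases hc.eq_or_lt with hc0 | hcpos
  · subst hc0
    obtain ⟨ε, hε0, hε1, hev⟩ := empty_lower_gen hd (by simpa using h)
    filter_upwards [hev, hqb ε hε0 hε1, eventually_ge_atTop 3,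
      tendsto_logn.eventually_ge_atTop 2] with m hm hqm hm3 hlog
    refine hm.trans ?_
    have hm' : (3 : ℝ) ≤ m := by exact_mod_cast hm3
    have hlen0 : (0 : ℝ) ≤ len d m := by positivity
    have hM : Real.log (m : ℝ) ≤ Real.log ((m : ℝ) + len d m) :=
      Real.log_le_log (by linarith) (by linarith)
    have key := prob_card_ge hE hind hq' hq0 hq1 (Finset.Ioc m (m + len d m))
      ⌊0 * Real.log (m : ℝ)⌋₊ (a := (1 - ε) / Real.log ((m : ℝ) + len d m))
      (b := (1 + ε) / Real.log (m : ℝ)) (div_nonneg (by linarith) (by linarith))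
      (fun j hj => (hqm j hj).1) (fun j hj => (hqm j hj).2)
      (by rw [div_le_one (by linarith)]; linarith)
      (div_nonneg (by linarith) (by linarith))
    rw [hcard] at key
    have e0 : ⌊0 * Real.log (m : ℝ)⌋₊ = 0 := by simp
    rw [e0] at key ⊢
    simpa using key
  · obtain ⟨ε, hε0, hε1, hev⟩ := choose_lower_gen hcpos hcd h
    filter_upwards [hev, hqb ε hε0 hε1, eventually_ge_atTop 3,
      tendsto_logn.eventually_ge_atTop 2] with m hm hqm hm3 hlog
    refine hm.trans ?_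
    have hm' : (3 : ℝ) ≤ m := by exact_mod_cast hm3
    have hlen0 : (0 : ℝ) ≤ len d m := by positivity
    have hM : Real.log (m : ℝ) ≤ Real.log ((m : ℝ) + len d m) :=
      Real.log_le_log (by linarith) (by linarith)
    have key := prob_card_ge hE hind hq' hq0 hq1 (Finset.Ioc m (m + len d m))
      ⌊c * Real.log (m : ℝ)⌋₊ (a := (1 - ε) / Real.log ((m : ℝ) + len d m))
      (b := (1 + ε) / Real.log (m : ℝ)) (div_nonneg (by linarith) (by linarith))
      (fun j hj => (hqm j hj).1) (fun j hj => (hqm j hj).2)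
      (by rw [div_le_one (by linarith)]; linarith)
      (div_nonneg (by linarith) (by linarith))
    rw [hcard] at key
    exact key

end Pool.Agent.LibCramer.LowerTail

namespace Pool.Agent.LibCramer

open Filter Topology MeasureTheory ProbabilityTheory
open scoped ENNReal NNReal

variable {Ω : Type*} [MeasurableSpace Ω] {μ : Measure Ω}

lemma exists_chernoff_gen {a c d : ℝ} (hc : 0 ≤ c) (hcd : c < d) (h : a < rate c d) :
    ∃ s : ℝ, 0 < s ∧ s < 1 ∧ a < (1 - s) * d + c * Real.log s := by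
  have hd : 0 < d := lt_of_le_of_lt hc hcd
  rcases hc.eq_or_lt with h0 | h0
  · rw [← h0, rate_zero] at h
    have h1 : ContinuousAt (fun s : ℝ => (1 - s) * d) 0 := by fun_prop
    have h2 : ∀ᶠ s in 𝓝 (0 : ℝ), a < (1 - s) * d := by
      apply h1.eventually_const_lt
      simpa using h
    have h3 : ∀ᶠ s : ℝ in 𝓝[>] 0, s ∈ Set.Ioo 0 1 := Ioo_mem_nhdsGT one_pos
    obtain ⟨s, h4, h5⟩ := (h3.and (h2.filter_mono nhdsWithin_le_nhds)).exists
    refine ⟨s, h4.1, h4.2, ?_⟩
    rw [← h0]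
    simpa using h5
  · refine ⟨c / d, by positivity, (div_lt_one hd).2 hcd, ?_⟩
    unfold rate at h
    have h1 : Real.log (c / d) = -Real.log (d / c) := by
      rw [← Real.log_inv, inv_div]
    have h2 : (1 - c / d) * d = d - c := by field_simp
    rw [h1, h2]
    linarith

/-- Chernoff's bound, any exponent. -/
theorem prob_FW_le_rpow [IsProbabilityMeasure μ] {E : ℕ → Set Ω}
    (hE : ∀ n, MeasurableSet (E n)) (hind : iIndepSet E μ)
    (hlim : Tendsto (fun n : ℕ => μ.real (E n) * Real.log (n : ℝ)) atTop (𝓝 1))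
    {a c d : ℝ} (hc : 0 ≤ c) (hcd : c < d) (h : a < rate c d) :
    ∀ᶠ m : ℕ in atTop, μ.real (FW E c d m) ≤ (m : ℝ) ^ (-a) := by
  have hd : 0 < d := lt_of_le_of_lt hc hcd
  obtain ⟨s, hs0, hs1, hs⟩ := exists_chernoff_gen hc hcd h
  obtain ⟨η, hη0, hη⟩ : ∃ η : ℝ, 0 < η ∧ a < (1 - s) * ((1 - η) * d) + c * Real.log s := by
    have hcont : ContinuousAt (fun η : ℝ => (1 - s) * ((1 - η) * d) + c * Real.log s) 0 := by
      fun_prop
    have h1 : ∀ᶠ η in 𝓝 (0 : ℝ), a < (1 - s) * ((1 - η) * d) + c * Real.log s := by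
      apply hcont.eventually_const_lt
      simpa using hs
    have h2 := h1.filter_mono (nhdsWithin_le_nhds (s := Set.Ioi 0))
    obtain ⟨η, h4, h5⟩ := (h2.and self_mem_nhdsWithin).exists
    exact ⟨η, h5, h4⟩
  have hlogs : Real.log s ≤ 0 := Real.log_nonpos hs0.le hs1.le
  filter_upwards [window_sum_ge hlim hd hη0, eventually_ge_atTop 1] with m hm hm1
  have hm0 : (0 : ℝ) < m := by exact_mod_cast hm1
  refine (prob_FW_le hE hind hs0 hs1 m).trans ?_
  rw [Real.rpow_def_of_pos hm0]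
  apply Real.exp_le_exp.2
  have hl : 0 ≤ Real.log (m : ℝ) := Real.log_natCast_nonneg m
  have h1 : (⌊c * Real.log (m : ℝ)⌋₊ : ℝ) ≤ c * Real.log (m : ℝ) :=
    Nat.floor_le (by positivity)
  have h2 : -Real.log s * (⌊c * Real.log (m : ℝ)⌋₊ : ℝ) ≤ -Real.log s * (c * Real.log (m : ℝ)) :=
    mul_le_mul_of_nonneg_left h1 (by linarith)
  have h3 : (1 - s) * ((1 - η) * (d * Real.log (m : ℝ))) ≤
      (1 - s) * ∑ j ∈ Finset.Ioc m (m + len d m), μ.real (E j) :=
    mul_le_mul_of_nonneg_left hm (by linarith)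
  have h4 : a * Real.log (m : ℝ) ≤ ((1 - s) * ((1 - η) * d) + c * Real.log s) * Real.log (m : ℝ) :=
    mul_le_mul_of_nonneg_right hη.le hl
  nlinarith

/-- The lower bound, any exponent. -/
theorem rpow_le_prob_FW [IsProbabilityMeasure μ] {E : ℕ → Set Ω}
    (hE : ∀ n, MeasurableSet (E n)) (hind : iIndepSet E μ)
    (hlim : Tendsto (fun n : ℕ => μ.real (E n) * Real.log (n : ℝ)) atTop (𝓝 1))
    {b c d : ℝ} (hc : 0 ≤ c) (hcd : c < d) (h : rate c d < b) :
    ∀ᶠ m : ℕ in atTop, (m : ℝ) ^ (-b) ≤ μ.real (FW E c d m) :=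
  LowerTail.lower_tail_gen hE hind (q := fun n => μ.real (E n)) (fun _ => rfl) hlim hc hcd h

end Pool.Agent.LibCramer
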