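import Pool.Agent.LibCramer.Bernoulli
import Pool.Agent.LibPNT.PNT

/-!
Bounds for the critical value for randomly perturbed primes.
-/

namespace Pool.Agent.LibCramer

open Filter Topology MeasureTheory ProbabilityTheory
open scoped ENNReal NNReal

/-- Inclusion probabilities of the perturbed primes: a prime is deleted with probability `δ`, and
every natural number `n` is inserted with probability `r n`, all independently. -/
noncomputable def pertProb (δ : ℝ) (r : ℕ → ℝ) (n : ℕ) : ℝ :=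
  if n.Prime then 1 - δ * (1 - r n) else r n

lemma pertProb_nonneg {δ : ℝ} {r : ℕ → ℝ} (hδ0 : 0 ≤ δ) (hδ1 : δ ≤ 1) (hr0 : ∀ n, 0 ≤ r n)
    (n : ℕ) : 0 ≤ pertProb δ r n := by
  unfold pertProb
  split_ifs
  · nlinarith [hr0 n, mul_nonneg hδ0 (hr0 n)]
  · exact hr0 n

lemma pertProb_le_one {δ : ℝ} {r : ℕ → ℝ} (hδ0 : 0 ≤ δ) (hr1 : ∀ n, r n ≤ 1)
    (n : ℕ) : pertProb δ r n ≤ 1 := by
  unfold pertProb
  split_ifs
  · nlinarith [hr1 n, mul_nonneg hδ0 (sub_nonneg.2 (hr1 n))]
  · exact hr1 n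

lemma le_pertProb {δ : ℝ} {r : ℕ → ℝ} (hδ1 : δ ≤ 1) (hr1 : ∀ n, r n ≤ 1)
    (n : ℕ) : r n ≤ pertProb δ r n := by
  unfold pertProb
  split_ifs
  · nlinarith [hr1 n]
  · exact le_rfl

lemma one_sub_pertProb {δ : ℝ} {r : ℕ → ℝ} (n : ℕ) :
    1 - pertProb δ r n = (if n.Prime then δ else 1) * (1 - r n) := by
  unfold pertProb
  split_ifs <;> ring

lemma tendsto_log_nat : Tendsto (fun n : ℕ => Real.log (n : ℝ)) atTop atTop :=
  Real.tendsto_log_atTop.comp tendsto_natCast_atTop_atTop

lemma log_two_mul_le {ε : ℝ} (hε : 0 < ε) :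
    ∀ᶠ n : ℕ in atTop, Real.log (2 * (n : ℝ)) ≤ (1 + ε) * Real.log (n : ℝ) := by
  filter_upwards [tendsto_log_nat.eventually_ge_atTop (Real.log 2 / ε), eventually_ge_atTop 1]
    with n hn hn1
  have h1 : (0 : ℝ) < n := by exact_mod_cast hn1
  rw [Real.log_mul (by norm_num) h1.ne']
  rw [div_le_iff₀ hε] at hn
  linarith

lemma log_window_pos {d : ℝ} (hd : 0 ≤ d) :
    ∀ᶠ m : ℕ in atTop, m + len d m ≤ 2 * m := by
  have h0 : Tendsto (fun x : ℝ => Real.log x ^ 2 / x) atTop (𝓝 0) := by
    have := (Real.isLittleO_pow_log_id_atTop (n := 2)).tendsto_div_nhds_zero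
    simpa using this
  have h1 : Tendsto (fun m : ℕ => d * (Real.log (m : ℝ) ^ 2 / m)) atTop (𝓝 (d * 0)) :=
    (h0.comp tendsto_natCast_atTop_atTop).const_mul d
  rw [mul_zero] at h1
  filter_upwards [h1.eventually_lt_const one_pos, eventually_ge_atTop 1] with m hm hm1
  have hm0 : (0 : ℝ) < m := by exact_mod_cast hm1
  have h2 : d * Real.log (m : ℝ) ^ 2 < m := by
    rw [← mul_div_assoc, div_lt_one hm0] at hm
    exact hm
  have h3 : (len d m : ℝ) ≤ m := (len_le hd m).trans h2.le
  have h4 : len d m ≤ m := by exact_mod_cast h3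
  omega

/-- Upper bound for the critical value. -/
theorem summable_pert {δ : ℝ} {r : ℕ → ℝ} (hδ0 : 0 ≤ δ) (hδ1 : δ ≤ 1)
    (hr1 : ∀ n, r n ≤ 1) {η : ℝ} (hη : 0 < η)
    (hr : Tendsto (fun n : ℕ => r n * Real.log n) atTop (𝓝 η)) {c : ℝ} (hc : 1 < c * η) :
    Summable fun m : ℕ => avoidProb (pertProb δ r) c m / Real.log (m : ℝ) ^ 2 := by
  have hc0 : 0 < c := by
    by_contra hcon
    push Not at hcon
    nlinarith
  -- choose ε
  obtain ⟨ε, hε0, hε1, hε⟩ : ∃ ε : ℝ, 0 < ε ∧ ε < η ∧ 1 < (c - ε) * (η - ε) / (1 + ε) := by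
    have hcont : ContinuousAt (fun ε : ℝ => (c - ε) * (η - ε) / (1 + ε)) 0 := by
      apply ContinuousAt.div
      · fun_prop
      · fun_prop
      · norm_num
    have h1 : ∀ᶠ ε in 𝓝 (0 : ℝ), 1 < (c - ε) * (η - ε) / (1 + ε) :=
      hcont.eventually_const_lt (by simpa using hc)
    have h2 : ∀ᶠ ε in 𝓝[>] (0 : ℝ), 1 < (c - ε) * (η - ε) / (1 + ε) := h1.filter_mono nhdsWithin_le_nhds
    have h3 : ∀ᶠ ε in 𝓝[>] (0 : ℝ), ε < η := (eventually_lt_nhds hη).filter_mono nhdsWithin_le_nhds
    obtain ⟨ε, h4, h5, h6⟩ := (h2.and (h3.and self_mem_nhdsWithin)).exists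
    exact ⟨ε, h6, h5, h4⟩
  set s : ℝ := (c - ε) * (η - ε) / (1 + ε) with hs
  have hcε : 0 < c - ε := by
    by_contra hcon
    push Not at hcon
    have : s ≤ 0 := by
      rw [hs]
      apply div_nonpos_of_nonpos_of_nonneg _ (by linarith)
      exact mul_nonpos_of_nonpos_of_nonneg hcon (by linarith)
    linarith
  have hbound : ∀ᶠ m : ℕ in atTop, avoidProb (pertProb δ r) c m / Real.log (m : ℝ) ^ 2 ≤
      (m : ℝ) ^ (-s) := by
    obtain ⟨N, hN⟩ := eventually_atTop.1 (hr.eventually_const_lt (show η - ε < η by linarith))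
    filter_upwards [log_window_pos hc0.le, log_two_mul_le hε0, eventually_ge_atTop N,
      eventually_ge_atTop 3, tendsto_log_nat.eventually_ge_atTop (1 / ε + 1)] with m h1 h2 h3 h4 h5
    have hm3 : (3 : ℝ) ≤ m := by exact_mod_cast h4
    have hlogm : 1 ≤ Real.log (m : ℝ) := by
      have : 0 < 1 / ε := by positivity
      linarith
    have hlen : (c - ε) * Real.log (m : ℝ) ^ 2 ≤ len c m := by
      have h6 := lt_len c m
      have h7 : 1 ≤ ε * Real.log (m : ℝ) ^ 2 := by
        have h8 : 1 / ε ≤ Real.log (m : ℝ) := by linarith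
        rw [div_le_iff₀ hε0] at h8
        nlinarith
      nlinarith
    have hfac : ∀ j ∈ Finset.Ioc m (m + len c m), 1 - pertProb δ r j ≤
        Real.exp (-((η - ε) / ((1 + ε) * Real.log (m : ℝ)))) := by
      intro j hj
      rw [Finset.mem_Ioc] at hj
      have hj2 : (j : ℝ) ≤ 2 * m := by exact_mod_cast hj.2.trans h1
      have hjm : (m : ℝ) < j := by exact_mod_cast hj.1
      have hlogj0 : 0 < Real.log (j : ℝ) := Real.log_pos (by linarith)
      have hlogj : Real.log (j : ℝ) ≤ (1 + ε) * Real.log (m : ℝ) :=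
        (Real.log_le_log (by linarith) hj2).trans h2
      have hrj := hN j (by omega)
      have h6 : (η - ε) / ((1 + ε) * Real.log (m : ℝ)) ≤ r j := by
        calc (η - ε) / ((1 + ε) * Real.log (m : ℝ)) ≤ (η - ε) / Real.log (j : ℝ) :=
              div_le_div_of_nonneg_left (by linarith) hlogj0 hlogj
          _ ≤ r j := by
              rw [div_le_iff₀ hlogj0]
              exact hrj.le
      have h7 : 1 - pertProb δ r j ≤ 1 - r j := by
        have := le_pertProb (r := r) hδ1 hr1 j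
        linarith
      have h8 : 1 - (η - ε) / ((1 + ε) * Real.log (m : ℝ)) ≤
          Real.exp (-((η - ε) / ((1 + ε) * Real.log (m : ℝ)))) := by
        have := Real.add_one_le_exp (-((η - ε) / ((1 + ε) * Real.log (m : ℝ))))
        linarith
      linarith
    have hprod : avoidProb (pertProb δ r) c m ≤ (m : ℝ) ^ (-s) := by
      unfold avoidProb
      calc ∏ j ∈ Finset.Ioc m (m + len c m), (1 - pertProb δ r j)
          ≤ ∏ j ∈ Finset.Ioc m (m + len c m),
            Real.exp (-((η - ε) / ((1 + ε) * Real.log (m : ℝ)))) :=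
            Finset.prod_le_prod (fun j _ => by linarith [pertProb_le_one hδ0 hr1 j]) hfac
        _ = Real.exp (-((len c m : ℝ) * ((η - ε) / ((1 + ε) * Real.log (m : ℝ))))) := by
            rw [Finset.prod_const, Nat.card_Ioc, ← Real.exp_nat_mul]
            congr 1
            have : m + len c m - m = len c m := by omega
            rw [this]
            ring
        _ ≤ (m : ℝ) ^ (-s) := by
            rw [Real.rpow_def_of_pos (by linarith)]
            apply Real.exp_le_exp.2
            have h6 : Real.log (m : ℝ) * s ≤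
                (len c m : ℝ) * ((η - ε) / ((1 + ε) * Real.log (m : ℝ))) := by
              rw [hs]
              have h7 : Real.log (m : ℝ) * ((c - ε) * (η - ε) / (1 + ε)) =
                ((c - ε) * Real.log (m : ℝ) ^ 2) * ((η - ε) / ((1 + ε) * Real.log (m : ℝ))) := by
                field_simp
              rw [h7]
              apply mul_le_mul_of_nonneg_right hlen
              apply div_nonneg (by linarith)
              positivity
            linarith
    calc avoidProb (pertProb δ r) c m / Real.log (m : ℝ) ^ 2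
        ≤ avoidProb (pertProb δ r) c m / 1 := by
          apply div_le_div_of_nonneg_left _ one_pos
          · nlinarith
          · exact avoidProb_nonneg (pertProb_le_one hδ0 hr1) c m
      _ ≤ (m : ℝ) ^ (-s) := by rw [div_one]; exact hprod
  refine Summable.of_norm_bounded_eventually_nat (g := fun m : ℕ => (m : ℝ) ^ (-s))
    (Real.summable_nat_rpow.2 (by linarith)) ?_
  filter_upwards [hbound] with m hm
  rw [Real.norm_of_nonneg]
  · exact hm
  · exact div_nonneg (avoidProb_nonneg (pertProb_le_one hδ0 hr1) c m) (sq_nonneg _)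

/-- number of primes in a window -/
noncomputable def pc (c : ℝ) (m : ℕ) : ℕ :=
  ((Finset.Ioc m (m + len c m)).filter Nat.Prime).card

lemma card_primes_Ioc {a b : ℕ} (hab : a ≤ b) :
    (((Finset.Ioc a b).filter Nat.Prime).card : ℝ) =
      (Nat.primeCounting b : ℝ) - (Nat.primeCounting a : ℝ) := by
  have h1 : ∀ n, Nat.primeCounting n = ((Finset.range (n + 1)).filter Nat.Prime).card := by
    intro n
    rw [Nat.primeCounting, Nat.primeCounting', Nat.count_eq_card_filter_range]
  have h2 : ((Finset.range (b + 1)).filter Nat.Prime) =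
      ((Finset.range (a + 1)).filter Nat.Prime) ∪ ((Finset.Ioc a b).filter Nat.Prime) := by
    ext p
    simp only [Finset.mem_filter, Finset.mem_union, Finset.mem_range, Finset.mem_Ioc]
    constructor
    · rintro ⟨h3, h4⟩
      rcases lt_or_ge p (a + 1) with h5 | h5
      · exact Or.inl ⟨h5, h4⟩
      · exact Or.inr ⟨⟨by omega, by omega⟩, h4⟩
    · rintro (⟨h3, h4⟩ | ⟨h3, h4⟩)
      · exact ⟨by omega, h4⟩
      · exact ⟨by omega, h4⟩
  rw [h1 b, h1 a, h2, Finset.card_union_of_disjoint]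
  · push_cast
    ring
  · rw [Finset.disjoint_left]
    intro p h3 h4
    simp only [Finset.mem_filter, Finset.mem_range, Finset.mem_Ioc] at h3 h4
    omega

lemma tendsto_len_div {c : ℝ} (hc : 0 ≤ c) :
    Tendsto (fun X : ℕ => (len c (2 * X) : ℝ) / X) atTop (𝓝 0) := by
  have h0 : Tendsto (fun x : ℝ => Real.log x ^ 2 / x) atTop (𝓝 0) := by
    have := (Real.isLittleO_pow_log_id_atTop (n := 2)).tendsto_div_nhds_zero
    simpa using this
  have h1 : Tendsto (fun X : ℕ => (2 * c) * (Real.log ((2 * X : ℕ) : ℝ) ^ 2 / ((2 * X : ℕ) : ℝ)))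
      atTop (𝓝 ((2 * c) * 0)) := by
    apply Tendsto.const_mul
    have h2 : Tendsto (fun X : ℕ => ((2 * X : ℕ) : ℝ)) atTop atTop :=
      tendsto_natCast_atTop_atTop.comp (tendsto_id.const_mul_atTop' (by norm_num))
    exact h0.comp h2
  rw [mul_zero] at h1
  refine squeeze_zero' (Eventually.of_forall fun X => by positivity) ?_ h1
  filter_upwards [eventually_ge_atTop 1] with X hX
  have hX0 : (0 : ℝ) < X := by exact_mod_cast hX
  rw [div_le_iff₀ hX0]
  have h2 := len_le hc (2 * X)
  refine h2.trans (le_of_eq ?_)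
  push_cast
  field_simp

/-- Primes in `(X, 2X + L]` are at most `(1+ε) X / log X` in number, `L = len c (2X)`. -/
lemma primes_dyadic {c ε : ℝ} (hc : 0 ≤ c) (hε : 0 < ε) :
    ∀ᶠ X : ℕ in atTop, (((Finset.Ioc X (2 * X + len c (2 * X))).filter Nat.Prime).card : ℝ) ≤
      (1 + ε) * X / Real.log X := by
  obtain ⟨e, he0, he1, hee⟩ : ∃ e : ℝ, 0 < e ∧ e < 1 ∧ (1 + e) * (2 + e) - (1 - e) ≤ 1 + ε := by
    refine ⟨min (1 / 2) (ε / 5), by positivity, ?_, ?_⟩
    · exact lt_of_le_of_lt (min_le_left _ _) (by norm_num)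
    · have h1 : min (1 / 2) (ε / 5) ≤ 1 / 2 := min_le_left _ _
      have h2 : min (1 / 2) (ε / 5) ≤ ε / 5 := min_le_right _ _
      have h3 : 0 < min (1 / 2) (ε / 5) := by positivity
      nlinarith
  have hP := LibPNT.primeCounting_tendsto.comp tendsto_natCast_atTop_atTop
  have hlo : ∀ᶠ n : ℕ in atTop, (1 - e) * n / Real.log n ≤ Nat.primeCounting n := by
    filter_upwards [hP.eventually_const_lt (show 1 - e < 1 by linarith), eventually_ge_atTop 2]
      with n hn hn2
    have hn2' : (2 : ℝ) ≤ n := by exact_mod_cast hn2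
    have hl : 0 < Real.log (n : ℝ) := Real.log_pos (by linarith)
    simp only [Function.comp, Nat.floor_natCast] at hn
    rw [lt_div_iff₀ (by linarith)] at hn
    rw [div_le_iff₀ hl]
    exact hn.le
  have hup : ∀ᶠ n : ℕ in atTop, (Nat.primeCounting n : ℝ) ≤ (1 + e) * n / Real.log n := by
    filter_upwards [hP.eventually_lt_const (show 1 < 1 + e by linarith), eventually_ge_atTop 2]
      with n hn hn2
    have hn2' : (2 : ℝ) ≤ n := by exact_mod_cast hn2
    have hl : 0 < Real.log (n : ℝ) := Real.log_pos (by linarith)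
    simp only [Function.comp, Nat.floor_natCast] at hn
    rw [div_lt_iff₀ (by linarith)] at hn
    rw [le_div_iff₀ hl]
    exact hn.le
  have hY : Tendsto (fun X : ℕ => 2 * X + len c (2 * X)) atTop atTop :=
    tendsto_atTop_mono (fun X => by simp only [id]; omega) tendsto_id
  filter_upwards [hlo, hY.eventually hup, (tendsto_len_div hc).eventually_lt_const he0,
    eventually_ge_atTop 2] with X h1 h2 h3 hX2
  have hX : (2 : ℝ) ≤ X := by exact_mod_cast hX2
  have hl : 0 < Real.log (X : ℝ) := Real.log_pos (by linarith)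
  rw [card_primes_Ioc (by omega)]
  rw [div_lt_iff₀ (by linarith)] at h3
  have h4 : ((2 * X + len c (2 * X) : ℕ) : ℝ) ≤ (2 + e) * X := by
    push_cast
    linarith
  have h4' : (X : ℝ) ≤ ((2 * X + len c (2 * X) : ℕ) : ℝ) := by
    push_cast
    have : (0 : ℝ) ≤ len c (2 * X) := Nat.cast_nonneg _
    linarith
  have h5 : (1 + e) * ((2 * X + len c (2 * X) : ℕ) : ℝ) /
      Real.log ((2 * X + len c (2 * X) : ℕ) : ℝ) ≤ (1 + e) * ((2 + e) * X) / Real.log X := by
    apply div_le_div₀ (by positivity) (mul_le_mul_of_nonneg_left h4 (by linarith)) hl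
    exact Real.log_le_log (by linarith) h4'
  calc ((Nat.primeCounting (2 * X + len c (2 * X)) : ℕ) : ℝ) - (Nat.primeCounting X : ℝ)
      ≤ (1 + e) * ((2 + e) * X) / Real.log X - (1 - e) * X / Real.log X := by linarith
    _ = ((1 + e) * (2 + e) - (1 - e)) * (X / Real.log X) := by ring
    _ ≤ (1 + ε) * (X / Real.log X) := mul_le_mul_of_nonneg_right hee (by positivity)
    _ = (1 + ε) * X / Real.log X := by ring

lemma len_le_len {c : ℝ} (hc : 0 ≤ c) {m n : ℕ} (hm : 1 ≤ m) (hmn : m ≤ n) :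
    len c m ≤ len c n := by
  apply Nat.floor_mono
  apply mul_le_mul_of_nonneg_left _ hc
  have hm' : (1 : ℝ) ≤ m := by exact_mod_cast hm
  apply pow_le_pow_left₀ (Real.log_nonneg hm')
  exact Real.log_le_log (by linarith) (by exact_mod_cast hmn)

/-- Double counting: total number of (window, prime) incidences. -/
lemma sum_pc_le {c : ℝ} (hc : 0 ≤ c) (X : ℕ) :
    (∑ m ∈ Finset.Ioc X (2 * X), (pc c m : ℝ)) ≤
      (((Finset.Ioc X (2 * X + len c (2 * X))).filter Nat.Prime).card : ℝ) * len c (2 * X) := by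
  set L := len c (2 * X) with hL
  set P := (Finset.Ioc X (2 * X + L)).filter Nat.Prime with hP
  have h1 : ∀ m ∈ Finset.Ioc X (2 * X), pc c m ≤
      ∑ p ∈ P, (if m < p ∧ p ≤ m + L then 1 else 0) := by
    intro m hm
    rw [Finset.mem_Ioc] at hm
    rw [← Finset.card_filter]
    unfold pc
    apply Finset.card_le_card
    intro p hp
    rw [Finset.mem_filter, Finset.mem_Ioc] at hp
    have h2 : len c m ≤ L := len_le_len hc (by omega) hm.2
    rw [Finset.mem_filter, hP, Finset.mem_filter, Finset.mem_Ioc]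
    exact ⟨⟨⟨by omega, by omega⟩, hp.2⟩, by omega, by omega⟩
  have h2 : ∑ m ∈ Finset.Ioc X (2 * X), pc c m ≤ P.card * L := by
    calc ∑ m ∈ Finset.Ioc X (2 * X), pc c m
        ≤ ∑ m ∈ Finset.Ioc X (2 * X), ∑ p ∈ P, (if m < p ∧ p ≤ m + L then 1 else 0) :=
          Finset.sum_le_sum h1
      _ = ∑ p ∈ P, ∑ m ∈ Finset.Ioc X (2 * X), (if m < p ∧ p ≤ m + L then 1 else 0) :=
          Finset.sum_comm
      _ ≤ ∑ p ∈ P, L := by
          apply Finset.sum_le_sum
          intro p _
          rw [← Finset.card_filter]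
          calc ((Finset.Ioc X (2 * X)).filter (fun m => m < p ∧ p ≤ m + L)).card
              ≤ (Finset.Ico (p - L) p).card := by
                apply Finset.card_le_card
                intro m hm
                rw [Finset.mem_filter] at hm
                rw [Finset.mem_Ico]
                omega
            _ ≤ L := by rw [Nat.card_Ico]; omega
      _ = P.card * L := by rw [Finset.sum_const, smul_eq_mul]
  exact_mod_cast h2

/-- Jensen for the exponential over a finite set with uniform weights -/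
lemma jensen_exp {s : Finset ℕ} (hs : s.Nonempty) (f : ℕ → ℝ) :
    (s.card : ℝ) * Real.exp ((∑ i ∈ s, f i) / s.card) ≤ ∑ i ∈ s, Real.exp (f i) := by
  have hc : (0 : ℝ) < s.card := by exact_mod_cast hs.card_pos
  have h := convexOn_exp.map_sum_le (t := s) (w := fun _ => (s.card : ℝ)⁻¹) (p := f)
    (fun i _ => by positivity) (by simp [hc.ne']) (fun i _ => Set.mem_univ _)
  simp only [smul_eq_mul] at h
  rw [← Finset.mul_sum, ← Finset.mul_sum] at h
  have h2 : (∑ i ∈ s, f i) / s.card = (s.card : ℝ)⁻¹ * ∑ i ∈ s, f i := by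
    rw [div_eq_inv_mul]
  rw [h2]
  calc (s.card : ℝ) * Real.exp ((s.card : ℝ)⁻¹ * ∑ i ∈ s, f i)
      ≤ (s.card : ℝ) * ((s.card : ℝ)⁻¹ * ∑ i ∈ s, Real.exp (f i)) :=
        mul_le_mul_of_nonneg_left h hc.le
    _ = ∑ i ∈ s, Real.exp (f i) := by
        rw [← mul_assoc, mul_inv_cancel₀ hc.ne', one_mul]

/-- lower bound for the avoidance probability in terms of the number of primes -/
lemma avoid_lower {δ : ℝ} {r : ℕ → ℝ} (hδ0 : 0 < δ) 
    (hr0 : ∀ n, 0 ≤ r n) {η : ℝ}
    (hr : Tendsto (fun n : ℕ => r n * Real.log n) atTop (𝓝 η)) {c : ℝ} (hc : 0 ≤ c)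
    {ε : ℝ} (hε : 0 < ε) :
    ∀ᶠ m : ℕ in atTop, Real.exp (-(Real.log (1 / δ) * pc c m) -
      (1 + ε) * (η + ε) * c * Real.log (m : ℝ)) ≤ avoidProb (pertProb δ r) c m := by
  -- r j small
  have hη : 0 ≤ η := ge_of_tendsto hr (by
    filter_upwards [eventually_ge_atTop 1] with n hn
    exact mul_nonneg (hr0 n) (Real.log_nonneg (by exact_mod_cast hn)))
  have hr2 : Tendsto r atTop (𝓝 0) := by
    have h1 : Tendsto (fun n : ℕ => (r n * Real.log n) * (Real.log n)⁻¹) atTop (𝓝 (η * 0)) :=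
      hr.mul (tendsto_inv_atTop_zero.comp tendsto_log_nat)
    rw [mul_zero] at h1
    refine h1.congr' ?_
    filter_upwards [eventually_ge_atTop 2] with n hn
    have : Real.log (n : ℝ) ≠ 0 := (Real.log_pos (by exact_mod_cast hn)).ne'
    field_simp
  -- 1 - x ≥ exp (-(1+ε) x) for small x
  have hexp : ∀ᶠ x in 𝓝[≥] (0 : ℝ), Real.exp (-((1 + ε) * x)) ≤ 1 - x := by
    have h1 : ∀ᶠ x in 𝓝[≥] (0 : ℝ), x < min 1 (ε / (1 + ε) ^ 2) :=
      (eventually_lt_nhds (by positivity)).filter_mono nhdsWithin_le_nhds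
    filter_upwards [h1, self_mem_nhdsWithin] with x hx hx0
    have hx0' : 0 ≤ x := hx0
    have hx1 : x < 1 := hx.trans_le (min_le_left _ _)
    have hx2 : x < ε / (1 + ε) ^ 2 := hx.trans_le (min_le_right _ _)
    rw [lt_div_iff₀ (by positivity)] at hx2
    have h2 : 1 + (1 + ε) * x ≤ Real.exp ((1 + ε) * x) := by
      have := Real.add_one_le_exp ((1 + ε) * x)
      linarith
    rw [Real.exp_neg]
    rw [inv_le_comm₀ (Real.exp_pos _) (by linarith)]
    refine le_trans ?_ h2
    rw [inv_le_comm₀ (by linarith) (by positivity)]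
    rw [inv_le_iff_one_le_mul₀ (by positivity)]
    nlinarith [mul_nonneg hx0' hε.le, mul_nonneg hx0' hx0', sq_nonneg (ε * x)]
  have hr3 : ∀ᶠ n : ℕ in atTop, Real.exp (-((1 + ε) * r n)) ≤ 1 - r n := by
    have h1 : Tendsto r atTop (𝓝[≥] 0) :=
      tendsto_nhdsWithin_iff.2 ⟨hr2, Eventually.of_forall fun n => hr0 n⟩
    exact h1.eventually hexp
  obtain ⟨N, hN⟩ := eventually_atTop.1 (hr3.and (hr.eventually_lt_const (show η < η + ε by linarith)))
  filter_upwards [eventually_ge_atTop N, eventually_ge_atTop 3] with m h3 h4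
  have hm3 : (3 : ℝ) ≤ m := by exact_mod_cast h4
  have hlogm : 0 < Real.log (m : ℝ) := Real.log_pos (by linarith)
  have hsplit : avoidProb (pertProb δ r) c m =
      δ ^ pc c m * ∏ j ∈ Finset.Ioc m (m + len c m), (1 - r j) := by
    unfold avoidProb pc
    rw [Finset.prod_congr rfl fun j _ => one_sub_pertProb (δ := δ) (r := r) j,
      Finset.prod_mul_distrib]
    congr 1
    rw [Finset.prod_ite, Finset.prod_const, Finset.prod_const_one, mul_one]
  rw [hsplit]
  have h5 : δ ^ pc c m = Real.exp (-(Real.log (1 / δ) * pc c m)) := by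
    rw [one_div, Real.log_inv, neg_mul, neg_neg, mul_comm, Real.exp_nat_mul, Real.exp_log hδ0]
  have h6 : Real.exp (-((1 + ε) * (η + ε) * c * Real.log (m : ℝ))) ≤
      ∏ j ∈ Finset.Ioc m (m + len c m), (1 - r j) := by
    calc Real.exp (-((1 + ε) * (η + ε) * c * Real.log (m : ℝ)))
        ≤ Real.exp (-((1 + ε) * ((len c m : ℝ) * ((η + ε) / Real.log (m : ℝ))))) := by
          apply Real.exp_le_exp.2
          have h7 := len_le hc m
          have h8 : (len c m : ℝ) * ((η + ε) / Real.log (m : ℝ)) ≤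
              c * Real.log (m : ℝ) ^ 2 * ((η + ε) / Real.log (m : ℝ)) :=
            mul_le_mul_of_nonneg_right h7 (by positivity)
          have h9 : c * Real.log (m : ℝ) ^ 2 * ((η + ε) / Real.log (m : ℝ)) =
            (η + ε) * c * Real.log (m : ℝ) := by field_simp
          rw [h9] at h8
          nlinarith
      _ = ∏ j ∈ Finset.Ioc m (m + len c m), Real.exp (-((1 + ε) * ((η + ε) / Real.log (m : ℝ)))) := by
          rw [Finset.prod_const, Nat.card_Ioc, ← Real.exp_nat_mul]
          congr 1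
          have : m + len c m - m = len c m := by omega
          rw [this]
          ring
      _ ≤ ∏ j ∈ Finset.Ioc m (m + len c m), (1 - r j) := by
          apply Finset.prod_le_prod
          · intro j _
            positivity
          · intro j hj
            rw [Finset.mem_Ioc] at hj
            obtain ⟨h7, h8⟩ := hN j (by omega)
            refine le_trans ?_ h7
            apply Real.exp_le_exp.2
            have hjm : (m : ℝ) < j := by exact_mod_cast hj.1
            have hlogj : Real.log (m : ℝ) ≤ Real.log (j : ℝ) :=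
              Real.log_le_log (by linarith) hjm.le
            have h9 : r j ≤ (η + ε) / Real.log (m : ℝ) := by
              rw [le_div_iff₀ hlogm]
              exact (mul_le_mul_of_nonneg_left hlogj (hr0 j)).trans h8.le
            nlinarith
  rw [h5]
  rw [sub_eq_add_neg, Real.exp_add]
  exact mul_le_mul_of_nonneg_left h6 (Real.exp_pos _).le

/-- Lower bound for the critical value. -/
theorem not_summable_pert {δ : ℝ} {r : ℕ → ℝ} (hδ0 : 0 < δ) (hδ1 : δ ≤ 1)
    (hr0 : ∀ n, 0 ≤ r n) {η : ℝ}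
    (hr : Tendsto (fun n : ℕ => r n * Real.log n) atTop (𝓝 η)) {c : ℝ} (hc0 : 0 ≤ c)
    (hc : c * (η + Real.log (1 / δ)) < 1) :
    ¬ Summable fun m : ℕ => avoidProb (pertProb δ r) c m / Real.log (m : ℝ) ^ 2 := by
  intro hsum
  set κ := Real.log (1 / δ) with hκ
  have hκ0 : 0 ≤ κ := Real.log_nonneg (by rw [le_div_iff₀ hδ0]; linarith)
  have hη : 0 ≤ η := ge_of_tendsto hr (by
    filter_upwards [eventually_ge_atTop 1] with n hn
    exact mul_nonneg (hr0 n) (Real.log_nonneg (by exact_mod_cast hn)))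
  obtain ⟨ε, hε0, hε1⟩ : ∃ ε : ℝ, 0 < ε ∧
      c * ((1 + ε) ^ 2 * (η + ε) + κ * (1 + ε) ^ 3) + ε < 1 := by
    have hcont : ContinuousAt (fun ε : ℝ => c * ((1 + ε) ^ 2 * (η + ε) + κ * (1 + ε) ^ 3) + ε) 0 := by
      fun_prop
    have h1 : ∀ᶠ ε in 𝓝 (0 : ℝ), c * ((1 + ε) ^ 2 * (η + ε) + κ * (1 + ε) ^ 3) + ε < 1 :=
      hcont.eventually_lt_const (by simpa using hc)
    have h2 : ∀ᶠ ε in 𝓝[>] (0 : ℝ), c * ((1 + ε) ^ 2 * (η + ε) + κ * (1 + ε) ^ 3) + ε < 1 :=
      h1.filter_mono nhdsWithin_le_nhds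
    obtain ⟨ε, h4, h5⟩ := (h2.and self_mem_nhdsWithin).exists
    exact ⟨ε, h5, h4⟩
  -- vanishing of dyadic sums
  have hvan : ∀ᶠ X : ℕ in atTop, ∑ m ∈ Finset.Ioc X (2 * X),
      avoidProb (pertProb δ r) c m / Real.log (m : ℝ) ^ 2 < 1 := by
    obtain ⟨s, hs⟩ := summable_iff_vanishing_norm.1 hsum 1 one_pos
    obtain ⟨N, hN⟩ := s.exists_nat_subset_range
    filter_upwards [eventually_ge_atTop N] with X hX
    refine lt_of_le_of_lt (le_abs_self _) (hs _ ?_)
    rw [Finset.disjoint_left]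
    intro m h1 h2
    rw [Finset.mem_Ioc] at h1
    have := Finset.mem_range.1 (hN h2)
    omega
  obtain ⟨N, hN⟩ := eventually_atTop.1 (avoid_lower (δ := δ) hδ0 hr0 hr hc0 hε0)
  have hloglog : ∀ᶠ X : ℕ in atTop, 2 * Real.log (2 * Real.log (X : ℝ)) ≤ ε / 2 * Real.log (X : ℝ) := by
    have h1 : Tendsto (fun x : ℝ => Real.log x / x) atTop (𝓝 0) := by
      have := Real.isLittleO_log_id_atTop.tendsto_div_nhds_zero
      simpa using this
    have h2 : Tendsto (fun X : ℕ => 2 * Real.log (X : ℝ)) atTop atTop :=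
      tendsto_log_nat.const_mul_atTop (by norm_num)
    have h3 := (h1.comp h2).eventually_lt_const (show 0 < ε / 8 by positivity)
    filter_upwards [h3, h2.eventually_gt_atTop 0] with X hX hX0
    simp only [Function.comp] at hX
    rw [div_lt_iff₀ hX0] at hX
    linarith
  obtain ⟨X, h1, h2, h3, h4, h5, h6⟩ := (hvan.and ((primes_dyadic hc0 hε0).and
    ((log_two_mul_le hε0).and ((eventually_ge_atTop N).and
    ((eventually_ge_atTop 3).and hloglog))))).exists
  have hX3 : (3 : ℝ) ≤ X := by exact_mod_cast h5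
  set T := Real.log (X : ℝ) with hT
  have hT0 : 0 < T := Real.log_pos (by linarith)
  have hX0 : (0 : ℝ) < X := by linarith
  have hlog2X : Real.log (2 * (X : ℝ)) ≤ 2 * T := by
    rw [Real.log_mul (by norm_num) hX0.ne']
    have : Real.log 2 ≤ Real.log (X : ℝ) := Real.log_le_log (by norm_num) (by linarith)
    linarith
  set a := (1 + ε) ^ 2 * (η + ε) * c with ha
  -- termwise lower bound
  have hterm : ∀ m ∈ Finset.Ioc X (2 * X),
      Real.exp (-(κ * pc c m) - a * T - 2 * Real.log (2 * T)) ≤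
        avoidProb (pertProb δ r) c m / Real.log (m : ℝ) ^ 2 := by
    intro m hm
    rw [Finset.mem_Ioc] at hm
    have hXm : (X : ℝ) < m := by exact_mod_cast hm.1
    have hm2X : (m : ℝ) ≤ 2 * X := by exact_mod_cast hm.2
    have hlogm0 : 0 < Real.log (m : ℝ) := Real.log_pos (by linarith)
    have hlogm : Real.log (m : ℝ) ≤ Real.log (2 * (X : ℝ)) := Real.log_le_log (by linarith) hm2X
    have h7 := hN m (by omega)
    rw [le_div_iff₀ (by positivity)]
    refine le_trans ?_ h7
    have h8 : Real.log (m : ℝ) ^ 2 ≤ Real.exp (2 * Real.log (2 * T)) := by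
      have : Real.exp (2 * Real.log (2 * T)) = (2 * T) ^ 2 := by
        rw [mul_comm, Real.exp_mul, Real.exp_log (by positivity)]
        norm_cast
      rw [this]
      exact pow_le_pow_left₀ hlogm0.le (hlogm.trans hlog2X) 2
    calc Real.exp (-(κ * pc c m) - a * T - 2 * Real.log (2 * T)) * Real.log (m : ℝ) ^ 2
        ≤ Real.exp (-(κ * pc c m) - a * T - 2 * Real.log (2 * T)) *
          Real.exp (2 * Real.log (2 * T)) := mul_le_mul_of_nonneg_left h8 (Real.exp_pos _).le
      _ = Real.exp (-(κ * pc c m) - a * T) := by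
          rw [← Real.exp_add]
          congr 1
          ring
      _ ≤ Real.exp (-(κ * pc c m) - (1 + ε) * (η + ε) * c * Real.log (m : ℝ)) := by
          apply Real.exp_le_exp.2
          have h9 : (1 + ε) * (η + ε) * c * Real.log (m : ℝ) ≤
              (1 + ε) * (η + ε) * c * ((1 + ε) * T) :=
            mul_le_mul_of_nonneg_left (hlogm.trans h3) (by positivity)
          have h10 : (1 + ε) * (η + ε) * c * ((1 + ε) * T) = a * T := by rw [ha]; ring
          linarith
  have hcard : (Finset.Ioc X (2 * X)).card = X := by rw [Nat.card_Ioc]; omega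
  have hne : (Finset.Ioc X (2 * X)).Nonempty := by
    rw [← Finset.card_pos, hcard]
    omega
  have hJ := jensen_exp hne (fun m => -(κ * pc c m) - a * T - 2 * Real.log (2 * T))
  rw [hcard] at hJ
  have hJ2 : (X : ℝ) * Real.exp ((∑ m ∈ Finset.Ioc X (2 * X),
      (-(κ * pc c m) - a * T - 2 * Real.log (2 * T))) / X) < 1 :=
    lt_of_le_of_lt (hJ.trans (Finset.sum_le_sum hterm)) h1
  have hsumeq : (∑ m ∈ Finset.Ioc X (2 * X), (-(κ * pc c m) - a * T - 2 * Real.log (2 * T))) / X =
      -(κ * ((∑ m ∈ Finset.Ioc X (2 * X), (pc c m : ℝ)) / X)) - a * T - 2 * Real.log (2 * T) := by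
    rw [Finset.sum_sub_distrib, Finset.sum_sub_distrib, Finset.sum_neg_distrib, ← Finset.mul_sum,
      Finset.sum_const, Finset.sum_const, hcard]
    simp only [nsmul_eq_mul]
    field_simp
  rw [hsumeq] at hJ2
  have hpc := sum_pc_le hc0 X
  have hL : (len c (2 * X) : ℝ) ≤ c * ((1 + ε) * T) ^ 2 := by
    refine (len_le hc0 (2 * X)).trans ?_
    apply mul_le_mul_of_nonneg_left _ hc0
    push_cast
    exact pow_le_pow_left₀ (Real.log_nonneg (by linarith)) h3 2
  have havg : (∑ m ∈ Finset.Ioc X (2 * X), (pc c m : ℝ)) / X ≤ (1 + ε) ^ 3 * c * T := by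
    rw [div_le_iff₀ hX0]
    calc (∑ m ∈ Finset.Ioc X (2 * X), (pc c m : ℝ))
        ≤ (((Finset.Ioc X (2 * X + len c (2 * X))).filter Nat.Prime).card : ℝ) *
          len c (2 * X) := hpc
      _ ≤ ((1 + ε) * X / T) * (c * ((1 + ε) * T) ^ 2) :=
          mul_le_mul h2 hL (Nat.cast_nonneg _) (by positivity)
      _ = (1 + ε) ^ 3 * c * T * X := by
          field_simp
  have hfin : 0 ≤ T + (-(κ * ((∑ m ∈ Finset.Ioc X (2 * X), (pc c m : ℝ)) / X)) - a * T
      - 2 * Real.log (2 * T)) := by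
    have h7 : κ * ((∑ m ∈ Finset.Ioc X (2 * X), (pc c m : ℝ)) / X) ≤
        κ * ((1 + ε) ^ 3 * c * T) := mul_le_mul_of_nonneg_left havg hκ0
    have h8 : a * T + κ * ((1 + ε) ^ 3 * c * T) + ε * T ≤ T := by
      have h9 : (c * ((1 + ε) ^ 2 * (η + ε) + κ * (1 + ε) ^ 3) + ε) * T ≤ 1 * T :=
        mul_le_mul_of_nonneg_right hε1.le hT0.le
      have h10 : a * T + κ * ((1 + ε) ^ 3 * c * T) + ε * T =
        (c * ((1 + ε) ^ 2 * (η + ε) + κ * (1 + ε) ^ 3) + ε) * T := by rw [ha]; ring
      rw [h10]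
      linarith
    nlinarith
  have hexp : 1 ≤ (X : ℝ) * Real.exp (-(κ * ((∑ m ∈ Finset.Ioc X (2 * X), (pc c m : ℝ)) / X)) -
      a * T - 2 * Real.log (2 * T)) := by
    nth_rewrite 1 [← Real.exp_log hX0]
    rw [← Real.exp_add]
    exact Real.one_le_exp hfin
  linarith

lemma not_summable_q {δ : ℝ} {r : ℕ → ℝ} (hδ0 : 0 ≤ δ) (hδ1 : δ ≤ 1)
    (hr0 : ∀ n, 0 ≤ r n) (hr1 : ∀ n, r n ≤ 1) {η : ℝ}
    (hr : Tendsto (fun n : ℕ => r n * Real.log n) atTop (𝓝 η))
    (hpos : 0 < η ∨ δ < 1) : ¬ Summable (pertProb δ r) := by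
  intro hs
  rcases hpos with h | h
  · -- harmonic-type divergence
    have h1 : ∀ᶠ n : ℕ in atTop, ‖(η / 2) * (1 / (n : ℝ))‖ ≤ pertProb δ r n := by
      filter_upwards [hr.eventually_const_lt (show η / 2 < η by linarith), eventually_ge_atTop 2]
        with n hn hn2
      have hn2' : (2 : ℝ) ≤ n := by exact_mod_cast hn2
      have hl : 0 < Real.log (n : ℝ) := Real.log_pos (by linarith)
      rw [Real.norm_of_nonneg (by positivity)]
      refine le_trans ?_ (le_pertProb hδ1 hr1 n)
      have h2 : η / 2 / Real.log n ≤ r n := by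
        rw [div_le_iff₀ hl]
        exact hn.le
      refine le_trans ?_ h2
      rw [mul_one_div]
      apply div_le_div_of_nonneg_left (by positivity) hl
      have := Real.log_le_sub_one_of_pos (show (0 : ℝ) < n by linarith)
      linarith
    have h2 := Summable.of_norm_bounded_eventually_nat hs h1
    have h3 : Summable fun n : ℕ => 1 / (n : ℝ) := by
      have := h2.mul_left (η / 2)⁻¹
      refine this.congr fun n => ?_
      field_simp
    exact Real.not_summable_one_div_natCast h3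
  · have h1 := hs.tendsto_atTop_zero
    obtain ⟨N, hN⟩ := eventually_atTop.1 (h1.eventually_lt_const (show 0 < 1 - δ by linarith))
    obtain ⟨p, hp, hpp⟩ := Nat.exists_infinite_primes N
    have h2 := hN p hp
    unfold pertProb at h2
    rw [if_pos hpp] at h2
    nlinarith [mul_nonneg hδ0 (hr0 p)]

/-- The critical value of the perturbed primes. -/
theorem crit_pert_le {δ : ℝ} {r : ℕ → ℝ} (hδ0 : 0 < δ) (hδ1 : δ ≤ 1)
    (hr1 : ∀ n, r n ≤ 1) {η : ℝ} (hη : 0 ≤ η)
    (hr : Tendsto (fun n : ℕ => r n * Real.log n) atTop (𝓝 η)) :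
    crit (pertProb δ r) ≤ (ENNReal.ofReal η)⁻¹ := by
  rcases hη.eq_or_lt with h0 | h0
  · rw [← h0]
    simp
  · rw [← ENNReal.ofReal_inv_of_pos h0]
    apply le_of_forall_gt
    intro x hx
    obtain ⟨y, hy1, hy2⟩ := exists_between hx
    have hytop : y ≠ ∞ := ne_top_of_lt hy2
    refine lt_of_le_of_lt ?_ hy2
    unfold crit
    refine iInf_le_of_le y.toNNReal (iInf_le_of_le ?_ (le_of_eq (ENNReal.coe_toNNReal hytop)))
    apply summable_pert hδ0.le hδ1 hr1 h0 hr
    have h1 : η⁻¹ < y.toReal := by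
      have := (ENNReal.toReal_lt_toReal ENNReal.ofReal_ne_top hytop).2 hy1
      rwa [ENNReal.toReal_ofReal (by positivity)] at this
    have h2 : ((y.toNNReal : ℝ≥0) : ℝ) = y.toReal := rfl
    rw [h2]
    rw [inv_lt_iff_one_lt_mul₀ h0] at h1
    linarith

theorem le_crit_pert {δ : ℝ} {r : ℕ → ℝ} (hδ0 : 0 < δ) (hδ1 : δ ≤ 1)
    (hr0 : ∀ n, 0 ≤ r n) {η : ℝ}
    (hr : Tendsto (fun n : ℕ => r n * Real.log n) atTop (𝓝 η))
    (hpos : 0 < η + Real.log (1 / δ)) :
    ENNReal.ofReal (1 / (η + Real.log (1 / δ))) ≤ crit (pertProb δ r) := by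
  unfold crit
  refine le_iInf fun c => le_iInf fun hc => ?_
  by_contra hcon
  push Not at hcon
  have h1 : (c : ℝ) < 1 / (η + Real.log (1 / δ)) := by
    have := (ENNReal.toReal_lt_toReal ENNReal.coe_ne_top ENNReal.ofReal_ne_top).2 hcon
    rwa [ENNReal.toReal_ofReal (by positivity), ENNReal.coe_toReal] at this
  rw [lt_div_iff₀ hpos] at h1
  exact not_summable_pert hδ0 hδ1 hr0 hr c.2 h1 hc

end Pool.Agent.LibCramer
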