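import Pool.Agent.LibCramer.RunModel
import Pool.Agent.LibCramer.RunRate
import Pool.Agent.LibCramer.LowerTail
import Pool.Agent.LibMaier.RunPrimes
import Pool.Agent.LibMaier.Numeric

/-!
Runs of gaps: the value in Cramer's model and the comparison with the primes.
-/

namespace Pool.Agent.LibCramer

open Filter Topology MeasureTheory ProbabilityTheory
open scoped ENNReal NNReal

variable {Ω : Type*} [MeasurableSpace Ω] {μ : Measure Ω}

lemma exists_chernoff {c d : ℝ} (hc : 0 ≤ c) (hcd : c < d) (h : 1 < rate c d) :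
    ∃ s : ℝ, 0 < s ∧ s < 1 ∧ 1 < (1 - s) * d + c * Real.log s := by
  have hd : 0 < d := lt_of_le_of_lt hc hcd
  rcases hc.eq_or_lt with h0 | h0
  · rw [← h0, rate_zero] at h
    refine ⟨(1 - 1 / d) / 2, ?_, ?_, ?_⟩
    · have : 1 / d < 1 := (div_lt_one hd).2 h
      linarith
    · have : 0 < 1 / d := by positivity
      linarith
    · rw [← h0, zero_mul, add_zero]
      have : (1 - (1 - 1 / d) / 2) * d = (d + 1) / 2 := by field_simp; ring
      rw [this]
      linarith
  · refine ⟨c / d, by positivity, (div_lt_one hd).2 hcd, ?_⟩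
    unfold rate at h
    have h1 : Real.log (c / d) = -Real.log (d / c) := by
      rw [← Real.log_inv, inv_div]
    have h2 : (1 - c / d) * d = d - c := by field_simp
    rw [h1, h2]
    linarith

/-- **The run constants in Cramer's model.** -/
theorem cramerRun_model {E : ℕ → Set Ω}
    (hE : ∀ n, MeasurableSet (E n)) (hind : iIndepSet E μ)
    (hlim : Tendsto (fun n : ℕ => μ.real (E n) * Real.log (n : ℝ)) atTop (𝓝 1)) :
    ∀ᵐ ω ∂μ, {n | ω ∈ E n}.Infinite ∧ ∀ c l : ℝ, 0 ≤ c → c < l → rate c l = 1 →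
      cramerRun c {n | ω ∈ E n} = ENNReal.ofReal l := by
  have hprob := hind.isProbabilityMeasure
  -- infinitude
  have hinf : ∀ᵐ ω ∂μ, {n | ω ∈ E n}.Infinite := by
    apply ae_infinite hE hind (q := fun n => μ.real (E n))
      (fun n => by rw [Measure.real, ENNReal.ofReal_toReal (measure_ne_top _ _)])
      (fun n => measureReal_nonneg)
    intro hs
    apply Real.not_summable_natCast_inv
    refine summable_of_isBigO_nat hs ?_
    apply Asymptotics.IsBigO.of_bound 2
    filter_upwards [hlim.eventually_const_le (show (1 / 2 : ℝ) < 1 by norm_num),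
      eventually_ge_atTop 2] with n hn hn2
    have hn2' : (2 : ℝ) ≤ n := by exact_mod_cast hn2
    have hl : 0 < Real.log (n : ℝ) := Real.log_pos (by linarith)
    have hl2 : Real.log (n : ℝ) ≤ n := (Real.log_le_sub_one_of_pos (by linarith)).trans (by linarith)
    rw [Real.norm_eq_abs, Real.norm_eq_abs, abs_of_nonneg measureReal_nonneg,
      abs_of_nonneg (by positivity)]
    have h1 : (1 / 2 : ℝ) ≤ μ.real (E n) * n :=
      hn.trans (mul_le_mul_of_nonneg_left hl2 measureReal_nonneg)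
    rw [inv_eq_one_div, div_le_iff₀ (by linarith)]
    linarith
  have hup : ∀ᵐ ω ∂μ, ∀ c d : ℚ, (0 : ℝ) ≤ c → (c : ℝ) < d → 1 < rate c d →
      ∀ᶠ m : ℕ in atTop, ⌊(c : ℝ) * Real.log (m : ℝ)⌋₊ < cnt {n | ω ∈ E n} m (len d m) := by
    rw [ae_all_iff]; intro c
    rw [ae_all_iff]; intro d
    by_cases h : (0 : ℝ) ≤ c ∧ (c : ℝ) < d ∧ 1 < rate c d
    · obtain ⟨s, hs0, hs1, hs⟩ := exists_chernoff h.1 h.2.1 h.2.2
      filter_upwards [ae_eventually_cnt hE hind hlim h.1 (lt_of_le_of_lt h.1 h.2.1) hs0 hs1 hs]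
        with ω hω _ _ _ using hω
    · filter_upwards with ω h1 h2 h3
      exact absurd ⟨h1, h2, h3⟩ h
  have hlo : ∀ᵐ ω ∂μ, ∀ c d : ℚ, (0 : ℝ) ≤ c → (c : ℝ) < d → rate c d < 1 →
      ∃ᶠ m : ℕ in atTop, cnt {n | ω ∈ E n} m (len d m) ≤ ⌊(c : ℝ) * Real.log (m : ℝ)⌋₊ := by
    rw [ae_all_iff]; intro c
    rw [ae_all_iff]; intro d
    by_cases h : (0 : ℝ) ≤ c ∧ (c : ℝ) < d ∧ rate c d < 1
    · obtain ⟨δ, hδ, hlow⟩ := LowerTail.lower_tail hE hind (q := fun n => μ.real (E n)) (fun _ => rfl) hlim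
        h.1 h.2.1 h.2.2
      filter_upwards [ae_frequently_cnt hE hind (lt_of_le_of_lt h.1 h.2.1).le hδ hlow]
        with ω hω _ _ _ using hω
    · filter_upwards with ω h1 h2 h3
      exact absurd ⟨h1, h2, h3⟩ h
  filter_upwards [hinf, hup, hlo] with ω hω1 hω2 hω3
  refine ⟨hω1, fun c l hc hcl hr => le_antisymm ?_ ?_⟩
  · -- upper bound
    have hl0 : 0 < l := lt_of_le_of_lt hc hcl
    have key : ∀ d : ℝ, l < d → cramerRun c {n | ω ∈ E n} ≤ ENNReal.ofReal d := by
      intro d hd
      have h1 : 1 < rate c d := by rw [← hr]; exact rate_strictMono hc hcl hd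
      obtain ⟨c', d', h2, h3, h4, h5⟩ := exists_rat_above hc (hcl.trans hd) h1
      apply cramerRun_le hω1 (hl0.trans hd).le
      filter_upwards [hω2 c' d' (hc.trans h2.le) h3 h5] with m hm
      have h6 : ⌊c * Real.log (m : ℝ)⌋₊ ≤ ⌊(c' : ℝ) * Real.log (m : ℝ)⌋₊ :=
        Nat.floor_mono (mul_le_mul_of_nonneg_right h2.le (Real.log_natCast_nonneg m))
      exact lt_of_le_of_lt h6 (hm.trans_le (cnt_mono _ m (len_mono h4 m)))
    have hlim2 : Tendsto (fun d : ℝ => ENNReal.ofReal d) (𝓝[>] l) (𝓝 (ENNReal.ofReal l)) :=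
      (ENNReal.continuous_ofReal.tendsto l).mono_left nhdsWithin_le_nhds
    exact ge_of_tendsto hlim2 (by filter_upwards [self_mem_nhdsWithin] with d hd using key d hd)
  · -- lower bound
    have key : ∀ d : ℝ, c < d → d < l → ENNReal.ofReal d ≤ cramerRun c {n | ω ∈ E n} := by
      intro d hcd hd
      have h1 : rate c d < 1 := by rw [← hr]; exact rate_strictMono hc hcd hd
      obtain ⟨c', d', h2, h3, h4, h5, h6⟩ := exists_rat_below hc hcd h1
      have h7 := le_cramerRun hω1 h2 h3 hc (h2.trans h4.le) (hω3 c' d' h2 h4 h6)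
      exact (ENNReal.ofReal_le_ofReal h5).trans h7
    have hlim2 : Tendsto (fun d : ℝ => ENNReal.ofReal d) (𝓝[<] l) (𝓝 (ENNReal.ofReal l)) :=
      (ENNReal.continuous_ofReal.tendsto l).mono_left nhdsWithin_le_nhds
    refine le_of_tendsto hlim2 ?_
    filter_upwards [Ioo_mem_nhdsLT hcl] with d hd using key d hd.1 hd.2

open Pool.Agent.LibMaier in
/-- the root is smaller than the constant of the matrix method -/
lemma root_lt {c l : ℝ} (hc : 160 ≤ c) (hr : rate c l = 1) :
    l < 2 * Real.exp (-Real.eulerMascheroniConstant) * c := by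
  have heg : 0 < eg := eg_pos
  have heg2 : Real.exp (-Real.eulerMascheroniConstant) = 1 / eg := by
    unfold eg
    rw [Real.exp_neg, one_div]
  have h1 := eg_lt
  have hc0 : 0 < c := by linarith
  -- `l < (200/179) c`
  have hk : (200 / 179 : ℝ) * c < 2 * (1 / eg) * c := by
    apply mul_lt_mul_of_pos_right _ hc0
    rw [mul_one_div, div_lt_div_iff₀ (by norm_num) heg]
    norm_num at h1 ⊢
    linarith
  have hlog : Real.log (200 / 179) < 0.11105 := by
    rw [Real.log_lt_iff_lt_exp (by norm_num)]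
    have h := Real.sum_le_exp_of_nonneg (x := 0.11105) (by norm_num) 4
    refine lt_of_lt_of_le ?_ h
    norm_num [Finset.sum_range_succ, Nat.factorial]
  have hrate : 1 < rate c (200 / 179 * c) := by
    unfold rate
    have : (200 / 179 * c) / c = 200 / 179 := by field_simp
    rw [this]
    norm_num at hlog ⊢
    nlinarith
  rw [heg2]
  refine lt_of_le_of_lt ?_ hk
  by_contra hcon
  push Not at hcon
  have := rate_strictMono hc0.le (show c < 200 / 179 * c by linarith) hcon
  rw [hr] at this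
  linarith

end Pool.Agent.LibCramer
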